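import Mathlib

/-!
Definitions used in the statements on Moebius disjointness in C*-algebras.
-/

namespace Pool.Agent.Helper40.Mob

universe u

variable {A : Type u} [CStarAlgebra A]

/-- `ρ` is a state: a bounded linear functional of norm one that takes nonnegative real values on
all elements `a* a` -/
def IsState (ρ : A →L[ℂ] ℂ) : Prop :=
  (∀ a : A, ∃ r : ℝ, 0 ≤ r ∧ ρ (star a * a) = r) ∧ ‖ρ‖ = 1

/-- the multiplicative difference `x ↦ α^m(x) x*` -/
def mdiff (α : A → A) (m : ℕ) (x : A) : A := (α^[m] x) * star x

end Pool.Agent.Helper40.Mob
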