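import Mathlib
open Set Filter Topology MeasureTheory Real
open scoped FourierTransform SchwartzMap

namespace Pool.Agent.Helper40.Tauber

/-- A kernel: continuous compactly supported `φ` with integrable Fourier transform of integral 1. -/
theorem exists_kernel : ∃ φ : ℝ → ℂ, Continuous φ ∧ HasCompactSupport φ ∧
    Integrable (𝓕 φ) ∧ ∫ w, 𝓕 φ w = 1 := by
  let f : ContDiffBump (0 : ℝ) := ⟨1, 2, one_pos, one_lt_two⟩
  let g : ℝ → ℂ := fun x => ((f x : ℝ) : ℂ)
  have hgc : HasCompactSupport g := f.hasCompactSupport.comp_left (g := fun x : ℝ => (x : ℂ)) (by simp)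
  have hgs : ContDiff ℝ (⊤ : ℕ∞) g := Complex.ofRealCLM.contDiff.comp f.contDiff
  let φ : 𝓢(ℝ, ℂ) := hgc.toSchwartzMap hgs
  have hφ : (φ : ℝ → ℂ) = g := rfl
  have hcont : Continuous g := hgs.continuous
  have hint : Integrable g := hcont.integrable_of_hasCompactSupport hgc
  have hF : (𝓕 φ : 𝓢(ℝ, ℂ)) = 𝓕 g := by rw [SchwartzMap.fourier_coe, hφ]
  have hFi : Integrable (𝓕 g) := by
    rw [← hF]; exact (𝓕 φ).integrable
  refine ⟨g, hcont, hgc, hFi, ?_⟩
  have h1 := hcont.fourierInv_fourier_eq hint hFi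
  have h2 := congrFun h1 0
  rw [Real.fourierInv_eq'] at h2
  simp only [inner_zero_right, mul_zero, Complex.ofReal_zero, zero_mul, Complex.exp_zero,
    one_smul] at h2
  rw [h2]
  have : f 0 = 1 := f.one_of_mem_closedBall (Metric.mem_closedBall_self f.rIn_pos.le)
  simp [g, this]

/-- Multiplication formula with a modulated test function. -/
theorem fourier_shift (b φ : ℝ → ℂ) (hb : Integrable b) (hφc : Continuous φ)
    (hφs : HasCompactSupport φ) (v : ℝ) :
    ∫ y, 𝓕 b y * (φ y * 𝐞 (v * y)) = ∫ u, b u * 𝓕 φ (u - v) := by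
  have hφ : Integrable φ := hφc.integrable_of_hasCompactSupport hφs
  let g : ℝ → ℂ := fun y => φ y * 𝐞 (v * y)
  have hgc : Continuous g := by fun_prop
  have hg : Integrable g := by
    refine hgc.integrable_of_hasCompactSupport ?_
    exact hφs.mul_right
  have h1 := VectorFourier.integral_fourierIntegral_smul_eq_flip (L := innerₗ ℝ) (μ := volume)
    (ν := volume) (e := 𝐞) (f := b) (g := g) Real.continuous_fourierChar continuous_inner hb hg
  have h2 : ∀ u, 𝓕 g u = 𝓕 φ (u - v) := by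
    intro u
    rw [Real.fourier_eq', Real.fourier_eq']
    refine integral_congr_ae (Eventually.of_forall fun y => ?_)
    simp only [g, smul_eq_mul]
    rw [Real.fourierChar_apply, mul_comm (φ y), ← mul_assoc, ← Complex.exp_add]
    congr 2
    simp only [RCLike.inner_apply, conj_trivial]
    push_cast
    ring
  have h3 : ∫ y, 𝓕 b y * g y = ∫ u, b u * 𝓕 g u := by
    have e1 : (fun y => 𝓕 b y * g y) =
      fun y => VectorFourier.fourierIntegral 𝐞 volume (innerₗ ℝ) b y • g y := rfl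
    have e2 : (fun y => b y * 𝓕 g y) =
      fun y => b y • VectorFourier.fourierIntegral 𝐞 volume (innerₗ ℝ).flip g y := by
      rw [flip_innerₗ]; rfl
    rw [e1, e2]
    exact h1
  rw [show (∫ y, 𝓕 b y * (φ y * 𝐞 (v * y))) = ∫ y, 𝓕 b y * g y from rfl, h3]
  simp only [h2]


theorem limit_identity (B : ℝ → ℂ) (hBm : AEStronglyMeasurable B volume)
    (hB0 : ∀ u < 0, B u = 0) (hB1 : ∀ u, ‖B u‖ ≤ 1) (G0 : ℝ → ℂ)
    (h1 : ∀ y, Tendsto (fun σ : ℝ => 𝓕 (fun u => B u * (Real.exp (-σ * u) : ℂ)) y) (𝓝[>] 0)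
      (𝓝 (G0 y)))
    (h2 : ∀ R : ℝ, ∃ C : ℝ, ∀ σ ∈ Ioc (0 : ℝ) 1, ∀ y, |y| ≤ R →
      ‖𝓕 (fun u => B u * (Real.exp (-σ * u) : ℂ)) y‖ ≤ C)
    (φ : ℝ → ℂ) (hφc : Continuous φ) (hφs : HasCompactSupport φ) (hFi : Integrable (𝓕 φ))
    (v : ℝ) : ∫ y, G0 y * (φ y * 𝐞 (v * y)) = ∫ u, B u * 𝓕 φ (u - v) := by
  have hφi : Integrable φ := hφc.integrable_of_hasCompactSupport hφs
  have hbi : ∀ σ : ℝ, 0 < σ → Integrable (fun u => B u * (Real.exp (-σ * u) : ℂ)) := by
    intro σ hσ
    have hexp : IntegrableOn (fun u : ℝ => Real.exp (-σ * u)) (Ici 0) := by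
      rw [integrableOn_Ici_iff_integrableOn_Ioi]
      exact exp_neg_integrableOn_Ioi 0 hσ
    have h3 : Integrable ((Ici (0 : ℝ)).indicator (fun u : ℝ => Real.exp (-σ * u))) :=
      hexp.integrable_indicator measurableSet_Ici
    refine h3.mono' ?_ ?_
    · exact hBm.mul (by fun_prop)
    · refine Eventually.of_forall fun u => ?_
      by_cases hu : 0 ≤ u
      · rw [indicator_of_mem (by exact hu), norm_mul]
        have : ‖((Real.exp (-σ * u) : ℝ) : ℂ)‖ = Real.exp (-σ * u) := by
          rw [Complex.norm_real, Real.norm_of_nonneg (Real.exp_pos _).le]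
        rw [this]
        calc ‖B u‖ * Real.exp (-σ * u) ≤ 1 * Real.exp (-σ * u) := by
              gcongr; exact hB1 u
          _ = _ := one_mul _
      · push Not at hu
        rw [hB0 u hu, indicator_of_notMem (by simpa using hu)]
        simp
  obtain ⟨R, hR⟩ : ∃ R : ℝ, ∀ y, R < |y| → φ y = 0 := by
    obtain ⟨R, hR⟩ := hφs.isCompact.isBounded.exists_norm_le
    refine ⟨R, fun y hy => ?_⟩
    by_contra hne
    have := hR y (subset_tsupport _ hne)
    rw [Real.norm_eq_abs] at this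
    linarith
  obtain ⟨C, hC⟩ := h2 R
  have hIoc : ∀ᶠ σ : ℝ in 𝓝[>] 0, σ ∈ Ioc (0 : ℝ) 1 := by
    filter_upwards [self_mem_nhdsWithin, nhdsWithin_le_nhds (Iio_mem_nhds (zero_lt_one' ℝ))]
      with σ h1 h2 using ⟨h1, le_of_lt h2⟩
  have hL : Tendsto (fun σ : ℝ => ∫ y, 𝓕 (fun u => B u * (Real.exp (-σ * u) : ℂ)) y *
      (φ y * 𝐞 (v * y))) (𝓝[>] 0) (𝓝 (∫ y, G0 y * (φ y * 𝐞 (v * y)))) := by
    refine tendsto_integral_filter_of_dominated_convergence (fun y => |C| * ‖φ y‖) ?_ ?_ ?_ ?_
    · filter_upwards [hIoc] with σ hσ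
      have : Continuous (𝓕 (fun u => B u * (Real.exp (-σ * u) : ℂ))) :=
        VectorFourier.fourierIntegral_continuous Real.continuous_fourierChar
          continuous_inner (hbi σ hσ.1)
      exact (this.mul (by fun_prop)).aestronglyMeasurable
    · filter_upwards [hIoc] with σ hσ
      refine Eventually.of_forall fun y => ?_
      rw [norm_mul, norm_mul, Circle.norm_coe, mul_one]
      by_cases hy : |y| ≤ R
      · have := (hC σ hσ y hy).trans (le_abs_self C)
        gcongr
      · push Not at hy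
        rw [hR y hy]; simp
    · exact hφi.norm.const_mul _
    · refine Eventually.of_forall fun y => ?_
      exact (h1 y).mul_const _
  have hR' : Tendsto (fun σ : ℝ => ∫ u, (B u * (Real.exp (-σ * u) : ℂ)) * 𝓕 φ (u - v)) (𝓝[>] 0)
      (𝓝 (∫ u, B u * 𝓕 φ (u - v))) := by
    refine tendsto_integral_filter_of_dominated_convergence (fun u => ‖𝓕 φ (u - v)‖) ?_ ?_ ?_ ?_
    · filter_upwards [hIoc] with σ hσ
      exact (hbi σ hσ.1).aestronglyMeasurable.mul (hFi.comp_sub_right v).aestronglyMeasurable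
    · filter_upwards [hIoc] with σ hσ
      refine Eventually.of_forall fun u => ?_
      rw [norm_mul]
      refine mul_le_of_le_one_left (norm_nonneg _) ?_
      by_cases hu : 0 ≤ u
      · rw [norm_mul, Complex.norm_real, Real.norm_of_nonneg (Real.exp_pos _).le]
        have h3 : Real.exp (-σ * u) ≤ 1 := by
          rw [Real.exp_le_one_iff]
          have := hσ.1
          nlinarith
        calc ‖B u‖ * Real.exp (-σ * u) ≤ 1 * 1 := by
              gcongr; exact hB1 u
          _ = 1 := one_mul _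
      · push Not at hu
        rw [hB0 u hu]; simp
    · exact (hFi.comp_sub_right v).norm
    · refine Eventually.of_forall fun u => ?_
      have h3 : Tendsto (fun σ : ℝ => ((Real.exp (-σ * u) : ℝ) : ℂ)) (𝓝[>] 0) (𝓝 ((1 : ℝ) : ℂ)) := by
        have h4 : Continuous (fun σ : ℝ => ((Real.exp (-σ * u) : ℝ) : ℂ)) := by fun_prop
        have h5 := h4.tendsto 0
        simp only [neg_zero, zero_mul, Real.exp_zero] at h5
        exact h5.mono_left nhdsWithin_le_nhds
      have h4 := ((h3.const_mul (B u)).mul_const (𝓕 φ (u - v)))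
      simpa using h4
  have heq : ∀ᶠ σ : ℝ in 𝓝[>] 0, ∫ y, 𝓕 (fun u => B u * (Real.exp (-σ * u) : ℂ)) y *
      (φ y * 𝐞 (v * y)) = ∫ u, (B u * (Real.exp (-σ * u) : ℂ)) * 𝓕 φ (u - v) := by
    filter_upwards [hIoc] with σ hσ
    exact fourier_shift _ φ (hbi σ hσ.1) hφc hφs v
  exact tendsto_nhds_unique (hL.congr' heq) hR'

theorem fourier_scale (φ : ℝ → ℂ) (l : ℝ) (hl : 0 < l) (w : ℝ) :
    𝓕 (fun y => φ (y / l)) w = (l : ℂ) * 𝓕 φ (l * w) := by
  rw [Real.fourier_real_eq, Real.fourier_real_eq]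
  have h := Measure.integral_comp_mul_left (fun y => 𝐞 (-(y * w)) • φ (y / l)) l
  have h2 : (fun x => 𝐞 (-(l * x * w)) • φ (l * x / l)) = fun x => 𝐞 (-(x * (l * w))) • φ x := by
    funext x
    rw [mul_div_cancel_left₀ _ hl.ne']
    congr 2
    ring_nf
  rw [h2] at h
  rw [h, abs_of_pos (inv_pos.2 hl)]
  rw [Complex.real_smul, ← mul_assoc]
  push_cast
  rw [mul_inv_cancel₀ (by exact_mod_cast hl.ne'), one_mul]

theorem tauber_abs (B : ℝ → ℂ) (hBm : AEStronglyMeasurable B volume)
    (hB0 : ∀ u < 0, B u = 0) (hB1 : ∀ u, ‖B u‖ ≤ 1)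
    (hslow : ∀ u v, 0 ≤ u → u ≤ v → ‖B v - B u‖ ≤ 2 * (v - u) + Real.exp (-v)) (G0 : ℝ → ℂ)
    (h1 : ∀ y, Tendsto (fun σ : ℝ => 𝓕 (fun u => B u * (Real.exp (-σ * u) : ℂ)) y) (𝓝[>] 0)
      (𝓝 (G0 y)))
    (h2 : ∀ R : ℝ, ∃ C : ℝ, ∀ σ ∈ Ioc (0 : ℝ) 1, ∀ y, |y| ≤ R →
      ‖𝓕 (fun u => B u * (Real.exp (-σ * u) : ℂ)) y‖ ≤ C) :
    Tendsto B atTop (𝓝 0) := by
  obtain ⟨φ, hφc, hφs, hFi, hF1⟩ := exists_kernel
  -- the smoothed averages tend to zero
  have hJ : ∀ l : ℝ, 0 < l → Tendsto (fun v => ∫ w, B (v + w / l) * 𝓕 φ w) atTop (𝓝 0) := by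
    intro l hl
    let φl : ℝ → ℂ := fun y => φ (y / l)
    have hφlc : Continuous φl := by fun_prop
    have hφls : HasCompactSupport φl := by
      have := hφs.comp_homeomorph (Homeomorph.mulRight₀ (l⁻¹) (inv_ne_zero hl.ne'))
      exact this
    have hFl : 𝓕 φl = fun w => (l : ℂ) * 𝓕 φ (l * w) := by
      funext w; exact fourier_scale φ l hl w
    have hFli : Integrable (𝓕 φl) := by
      rw [hFl]
      exact (hFi.comp_mul_left' hl.ne').const_mul _
    have key := limit_identity B hBm hB0 hB1 G0 h1 h2 φl hφlc hφls hFli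
    have hRL : Tendsto (fun v : ℝ => ∫ y, G0 y * (φl y * 𝐞 (v * y))) atTop (𝓝 0) := by
      have h3 := Real.tendsto_integral_exp_smul_cocompact (fun y => G0 y * φl y)
      have h4 : Tendsto (fun v : ℝ => -v) atTop (cocompact ℝ) :=
        tendsto_neg_atTop_atBot.mono_right atBot_le_cocompact
      have h5 := h3.comp h4
      refine h5.congr fun v => ?_
      refine integral_congr_ae (Eventually.of_forall fun y => ?_)
      simp only [Circle.smul_def, smul_eq_mul]
      rw [show -(y * -v) = v * y by ring]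
      ring
    refine hRL.congr fun v => ?_
    rw [key v, hFl]
    -- change of variables
    have e1 : ∫ u, B u * ((l : ℂ) * 𝓕 φ (l * (u - v))) =
        ∫ u, B (u + v) * ((l : ℂ) * 𝓕 φ (l * u)) := by
      rw [← integral_add_right_eq_self (fun u => B u * ((l : ℂ) * 𝓕 φ (l * (u - v)))) v]
      simp
    have e2 := Measure.integral_comp_mul_left (fun w => B (v + w / l) * 𝓕 φ w) l
    have e3 : (fun x => B (v + l * x / l) * 𝓕 φ (l * x)) = fun x => B (x + v) * 𝓕 φ (l * x) := by
      funext x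
      rw [mul_div_cancel_left₀ _ hl.ne', add_comm]
    rw [e3] at e2
    rw [e1]
    have e4 : ∫ u, B (u + v) * ((l : ℂ) * 𝓕 φ (l * u)) = (l : ℂ) * ∫ u, B (u + v) * 𝓕 φ (l * u) := by
      rw [← integral_const_mul]
      refine integral_congr_ae (Eventually.of_forall fun y => ?_)
      simp only
      ring
    rw [e4, e2, abs_of_pos (inv_pos.2 hl), Complex.real_smul, ← mul_assoc]
    push_cast
    rw [mul_inv_cancel₀ (by exact_mod_cast hl.ne'), one_mul]
  set C := ∫ w, ‖𝓕 φ w‖ with hCdef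
  have hC0 : 0 ≤ C := integral_nonneg fun _ => norm_nonneg _
  have htail : Tendsto (fun n : ℕ => ∫ w in {w : ℝ | (n : ℝ) < |w|}, ‖𝓕 φ w‖) atTop (𝓝 0) := by
    have h3 := tendsto_setIntegral_of_antitone (μ := volume) (f := fun w => ‖𝓕 φ w‖)
      (s := fun n : ℕ => {w : ℝ | (n : ℝ) < |w|})
      (fun n => measurableSet_lt measurable_const (by fun_prop)) (by
        intro a b hab w hw
        have : (a : ℝ) ≤ b := by exact_mod_cast hab
        exact lt_of_le_of_lt this hw) ⟨0, hFi.norm.integrableOn⟩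
    have h4 : (⋂ n : ℕ, {w : ℝ | (n : ℝ) < |w|}) = ∅ := by
      rw [eq_empty_iff_forall_notMem]
      intro w hw
      obtain ⟨n, hn⟩ := exists_nat_gt |w|
      have := mem_iInter.1 hw n
      simp only [mem_ofPred_eq] at this
      linarith
    rw [h4] at h3
    simpa using h3
  rw [Metric.tendsto_atTop]
  intro ε hε
  obtain ⟨M, hM⟩ := (htail.eventually (gt_mem_nhds (show (0 : ℝ) < ε / 8 by positivity))).exists
  have hM0 : (0 : ℝ) ≤ M := Nat.cast_nonneg M
  obtain ⟨l, hl0, hl⟩ : ∃ l : ℝ, 0 < l ∧ (2 * M / l) * C < ε / 4 := by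
    refine ⟨(8 * M * C) / ε + 1, by positivity, ?_⟩
    have h3 : 0 < (8 * M * C) / ε + 1 := by positivity
    rw [div_mul_eq_mul_div, div_lt_iff₀ h3]
    have : ε / 4 * (8 * M * C / ε + 1) = 2 * M * C + ε / 4 := by
      field_simp; ring
    rw [this]; linarith
  obtain ⟨V1, hV1⟩ := Metric.tendsto_atTop.1 (hJ l hl0) (ε / 4) (by positivity)
  have hexp : Tendsto (fun v : ℝ => Real.exp (-v) * C) atTop (𝓝 0) := by
    have := (Real.tendsto_exp_neg_atTop_nhds_zero).mul_const C
    simpa using this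
  obtain ⟨V2, hV2⟩ := (hexp.eventually (gt_mem_nhds (show (0 : ℝ) < ε / 4 by positivity))).exists_forall_of_atTop
  refine ⟨max (max V1 V2) (M / l), fun v hv => ?_⟩
  have hv1 : V1 ≤ v := (le_max_left _ _).trans ((le_max_left _ _).trans hv)
  have hv2 : V2 ≤ v := (le_max_right _ _).trans ((le_max_left _ _).trans hv)
  have hv3 : M / l ≤ v := (le_max_right _ _).trans hv
  have hv0 : 0 ≤ v := le_trans (by positivity) hv3
  have hpt : ∀ w : ℝ, ‖B v - B (v + w / l)‖ ≤ (2 * M / l + Real.exp (-v)) +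
      2 * ({w : ℝ | (M : ℝ) < |w|}).indicator (fun _ => (1 : ℝ)) w := by
    intro w
    by_cases hw : (M : ℝ) < |w|
    · rw [indicator_of_mem (by exact hw)]
      have : ‖B v - B (v + w / l)‖ ≤ 2 := (norm_sub_le _ _).trans (by
        have := hB1 v; have := hB1 (v + w / l); linarith)
      have h3 : 0 ≤ 2 * M / l + Real.exp (-v) := by positivity
      linarith
    · rw [indicator_of_notMem (by simpa using hw)]
      push Not at hw
      obtain ⟨hw1, hw2⟩ := abs_le.1 hw
      have h4 : -(M / l) ≤ w / l := by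
        rw [← neg_div]; gcongr
      have h5 : w / l ≤ M / l := by gcongr
      have hexp' : ∀ v', v ≤ v' → Real.exp (-v') ≤ Real.exp (-v) := by
        intro v' hv'; exact Real.exp_le_exp.2 (by linarith)
      rcases le_total 0 (w / l) with hwl | hwl
      · rw [norm_sub_rev]
        have := hslow v (v + w / l) hv0 (by linarith)
        have := hexp' (v + w / l) (by linarith)
        have h6 : 2 * (v + w / l - v) ≤ 2 * M / l := by
          rw [mul_div_assoc]; linarith
        linarith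
      · have := hslow (v + w / l) v (by linarith) (by linarith)
        have h6 : 2 * (v - (v + w / l)) ≤ 2 * M / l := by
          rw [mul_div_assoc]; linarith
        linarith
  have hBi : Integrable (fun w => B (v + w / l) * 𝓕 φ w) := by
    refine hFi.norm.mono' ?_ ?_
    · refine AEStronglyMeasurable.mul ?_ hFi.aestronglyMeasurable
      have hq : Measure.QuasiMeasurePreserving (fun w : ℝ => v + w / l) volume volume := by
        have q1 : Measure.QuasiMeasurePreserving (fun w : ℝ => v + w) volume volume :=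
          (measurePreserving_add_left volume v).quasiMeasurePreserving
        have q2 : Measure.QuasiMeasurePreserving (fun w : ℝ => w / l) volume volume := by
          have := (Homeomorph.mulRight₀ (l⁻¹) (inv_ne_zero hl0.ne'))
          refine ⟨by fun_prop, ?_⟩
          have h6 := Real.map_volume_mul_right (a := l⁻¹) (inv_ne_zero hl0.ne')
          have h7 : (fun w : ℝ => w / l) = (· * l⁻¹) := by
            funext w; rw [div_eq_mul_inv]
          rw [h7, h6]
          exact Measure.smul_absolutelyContinuous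
        exact q1.comp q2
      exact hBm.comp_quasiMeasurePreserving hq
    · refine Eventually.of_forall fun w => ?_
      rw [norm_mul]
      exact mul_le_of_le_one_left (norm_nonneg _) (hB1 _)
  have hdiff : ‖B v - ∫ w, B (v + w / l) * 𝓕 φ w‖ ≤ (2 * M / l + Real.exp (-v)) * C +
      2 * (ε / 8) := by
    have e1 : B v = ∫ w, B v * 𝓕 φ w := by rw [integral_const_mul, hF1, mul_one]
    rw [e1, ← integral_sub (hFi.const_mul _) hBi]
    refine (norm_integral_le_integral_norm _).trans ?_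
    have hS : MeasurableSet {w : ℝ | (M : ℝ) < |w|} :=
      measurableSet_lt measurable_const (by fun_prop)
    have hind : Integrable (fun w => ({w : ℝ | (M : ℝ) < |w|}).indicator (fun w => ‖𝓕 φ w‖) w) :=
      hFi.norm.indicator hS
    calc ∫ w, ‖B v * 𝓕 φ w - B (v + w / l) * 𝓕 φ w‖
        ≤ ∫ w, ((2 * M / l + Real.exp (-v)) * ‖𝓕 φ w‖ +
          2 * ({w : ℝ | (M : ℝ) < |w|}).indicator (fun w => ‖𝓕 φ w‖) w) := by
          refine integral_mono (((hFi.const_mul _).sub hBi).norm)
            ((hFi.norm.const_mul _).add (hind.const_mul _)) fun w => ?_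
          simp only
          rw [← sub_mul, norm_mul]
          have h6 := hpt w
          by_cases hw : w ∈ {w : ℝ | (M : ℝ) < |w|}
          · rw [indicator_of_mem hw] at h6 ⊢
            calc _ ≤ ((2 * M / l + Real.exp (-v)) + 2 * 1) * ‖𝓕 φ w‖ := by gcongr
              _ = _ := by ring
          · rw [indicator_of_notMem hw] at h6 ⊢
            calc _ ≤ ((2 * M / l + Real.exp (-v)) + 2 * 0) * ‖𝓕 φ w‖ := by gcongr
              _ = _ := by ring
      _ = (2 * M / l + Real.exp (-v)) * C + 2 * ∫ w in {w : ℝ | (M : ℝ) < |w|}, ‖𝓕 φ w‖ := by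
          rw [integral_add (hFi.norm.const_mul _) (hind.const_mul _), integral_const_mul,
            integral_const_mul, integral_indicator hS]
      _ ≤ _ := by
          have := hM.le
          linarith
  rw [dist_zero_right]
  have h7 := hV1 v hv1
  rw [dist_zero_right] at h7
  have h8 := hV2 v hv2
  calc ‖B v‖ = ‖(B v - ∫ w, B (v + w / l) * 𝓕 φ w) + ∫ w, B (v + w / l) * 𝓕 φ w‖ := by
        congr 1; ring
    _ ≤ ‖B v - ∫ w, B (v + w / l) * 𝓕 φ w‖ + ‖∫ w, B (v + w / l) * 𝓕 φ w‖ := norm_add_le _ _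
    _ ≤ ((2 * M / l + Real.exp (-v)) * C + 2 * (ε / 8)) + ‖∫ w, B (v + w / l) * 𝓕 φ w‖ := by
        gcongr
    _ < ε := by
        rw [add_mul]
        linarith

end Pool.Agent.Helper40.Tauber
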