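import Mathlib
import Pool.Agent.Helper40.Tauber1
open Set Filter Topology MeasureTheory Real
open scoped FourierTransform SchwartzMap

namespace Pool.Agent.Helper40.Tauber

/-- Partial sums. -/
noncomputable def A (a : ℕ → ℂ) (n : ℕ) : ℂ := ∑ k ∈ Finset.Icc 1 n, a k

theorem norm_A_le (a : ℕ → ℂ) (ha : ∀ n, ‖a n‖ ≤ 1) (n : ℕ) : ‖A a n‖ ≤ n := by
  unfold A
  calc ‖∑ k ∈ Finset.Icc 1 n, a k‖ ≤ ∑ k ∈ Finset.Icc 1 n, ‖a k‖ := norm_sum_le _ _
    _ ≤ ∑ k ∈ Finset.Icc 1 n, (1 : ℝ) := Finset.sum_le_sum fun k _ => ha k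
    _ = n := by simp

theorem norm_A_sub_le (a : ℕ → ℂ) (ha : ∀ n, ‖a n‖ ≤ 1) {m n : ℕ} (hmn : m ≤ n) :
    ‖A a n - A a m‖ ≤ (n : ℝ) - m := by
  unfold A
  have h1 : Finset.Icc 1 m ⊆ Finset.Icc 1 n := Finset.Icc_subset_Icc_right hmn
  rw [← Finset.sum_sdiff h1, add_sub_cancel_right]
  calc ‖∑ k ∈ Finset.Icc 1 n \ Finset.Icc 1 m, a k‖
      ≤ ∑ k ∈ Finset.Icc 1 n \ Finset.Icc 1 m, ‖a k‖ := norm_sum_le _ _
    _ ≤ ∑ k ∈ Finset.Icc 1 n \ Finset.Icc 1 m, (1 : ℝ) := Finset.sum_le_sum fun k _ => ha k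
    _ = (n : ℝ) - m := by
        rw [Finset.sum_const, Finset.card_sdiff_of_subset h1]
        simp only [Nat.card_Icc, add_tsub_cancel_right, nsmul_eq_mul, mul_one]
        rw [Nat.cast_sub hmn]

/-- The normalised summatory function in logarithmic scale. -/
noncomputable def Bf (a : ℕ → ℂ) (u : ℝ) : ℂ :=
  if 0 ≤ u then A a ⌊Real.exp u⌋₊ * (Real.exp (-u) : ℂ) else 0

theorem Bf_norm_le (a : ℕ → ℂ) (ha : ∀ n, ‖a n‖ ≤ 1) (u : ℝ) : ‖Bf a u‖ ≤ 1 := by
  unfold Bf
  split_ifs with h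
  · rw [norm_mul, Complex.norm_real, Real.norm_of_nonneg (Real.exp_pos _).le]
    calc ‖A a ⌊Real.exp u⌋₊‖ * Real.exp (-u) ≤ (⌊Real.exp u⌋₊ : ℝ) * Real.exp (-u) := by
          gcongr; exact norm_A_le a ha _
      _ ≤ Real.exp u * Real.exp (-u) := by
          gcongr; exact Nat.floor_le (Real.exp_pos _).le
      _ = 1 := by rw [← Real.exp_add]; simp
  · simp

theorem Bf_slow (a : ℕ → ℂ) (ha : ∀ n, ‖a n‖ ≤ 1) (u v : ℝ) (hu : 0 ≤ u) (huv : u ≤ v) :
    ‖Bf a v - Bf a u‖ ≤ 2 * (v - u) + Real.exp (-v) := by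
  unfold Bf
  rw [if_pos hu, if_pos (hu.trans huv)]
  set m := ⌊Real.exp u⌋₊
  set n := ⌊Real.exp v⌋₊
  have hmn : m ≤ n := Nat.floor_mono (Real.exp_le_exp.2 huv)
  have h1 : A a n * (Real.exp (-v) : ℂ) - A a m * (Real.exp (-u) : ℂ) =
      (A a n - A a m) * (Real.exp (-v) : ℂ) - A a m * ((Real.exp (-u) - Real.exp (-v) : ℝ) : ℂ) := by
    push_cast; ring
  rw [h1]
  have he : Real.exp (-v) ≤ Real.exp (-u) := Real.exp_le_exp.2 (by linarith)
  have hn1 : (n : ℝ) ≤ Real.exp v := Nat.floor_le (Real.exp_pos _).le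
  have hm1 : Real.exp u < m + 1 := Nat.lt_floor_add_one _
  have hm2 : (m : ℝ) ≤ Real.exp u := Nat.floor_le (Real.exp_pos _).le
  calc _ ≤ ‖(A a n - A a m) * (Real.exp (-v) : ℂ)‖ +
        ‖A a m * ((Real.exp (-u) - Real.exp (-v) : ℝ) : ℂ)‖ := norm_sub_le _ _
    _ = ‖A a n - A a m‖ * Real.exp (-v) + ‖A a m‖ * (Real.exp (-u) - Real.exp (-v)) := by
        rw [norm_mul, norm_mul, Complex.norm_real, Complex.norm_real,
          Real.norm_of_nonneg (Real.exp_pos _).le, Real.norm_of_nonneg (by linarith)]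
    _ ≤ (Real.exp v - Real.exp u + 1) * Real.exp (-v) +
        Real.exp u * (Real.exp (-u) - Real.exp (-v)) := by
        have h2 := norm_A_sub_le a ha hmn
        have h3 := norm_A_le a ha m
        have h4 : (0 : ℝ) ≤ Real.exp (-u) - Real.exp (-v) := by linarith
        gcongr
        · linarith
        · linarith
    _ = 2 * (1 - Real.exp (u - v)) + Real.exp (-v) := by
        have h5 : Real.exp v * Real.exp (-v) = 1 := by rw [← Real.exp_add]; simp
        have h6 : Real.exp u * Real.exp (-u) = 1 := by rw [← Real.exp_add]; simp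
        have h7 : Real.exp u * Real.exp (-v) = Real.exp (u - v) := by
          rw [← Real.exp_add]; ring_nf
        linear_combination h5 + h6 - 2 * h7
    _ ≤ _ := by
        have := Real.add_one_le_exp (u - v)
        linarith

theorem Bf_meas (a : ℕ → ℂ) : Measurable (Bf a) := by
  unfold Bf
  refine Measurable.ite measurableSet_Ici ?_ measurable_const
  refine Measurable.mul ?_ (by fun_prop)
  have h1 : Measurable (fun u : ℝ => ⌊Real.exp u⌋₊) := Nat.measurable_floor.comp Real.measurable_exp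
  exact (measurable_of_countable (A a)).comp h1

theorem fourier_Bf (a : ℕ → ℂ) (ha : ∀ n, ‖a n‖ ≤ 1) (σ : ℝ) (hσ : 0 < σ) (y : ℝ) :
    𝓕 (fun u => Bf a u * (Real.exp (-σ * u) : ℂ)) y =
      LSeries a (1 + σ + 2 * π * y * Complex.I) / (1 + σ + 2 * π * y * Complex.I) := by
  set s : ℂ := 1 + σ + 2 * π * y * Complex.I with hs
  have hre : s.re = 1 + σ := by simp [hs]
  have hs0 : s ≠ 0 := by
    intro h; rw [h] at hre; simp at hre; linarith
  have hO : (fun n ↦ ∑ k ∈ Finset.Icc 1 n, ‖a k‖) =O[atTop] fun n ↦ ((n : ℝ)) ^ (1 : ℝ) := by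
    refine Asymptotics.IsBigO.of_bound 1 (Eventually.of_forall fun n => ?_)
    rw [Real.rpow_one, one_mul, Real.norm_of_nonneg (Finset.sum_nonneg fun _ _ => norm_nonneg _),
      Real.norm_of_nonneg (Nat.cast_nonneg n)]
    calc ∑ k ∈ Finset.Icc 1 n, ‖a k‖ ≤ ∑ k ∈ Finset.Icc 1 n, (1 : ℝ) :=
          Finset.sum_le_sum fun k _ => ha k
      _ = n := by simp
  have hL := LSeries_eq_mul_integral' a zero_le_one (s := s) (by rw [hre]; linarith) hO
  rw [hL, mul_div_cancel_left₀ _ hs0]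
  -- change of variables
  have himg : Real.exp '' (Ioi 0) = Ioi 1 := by
    ext x
    constructor
    · rintro ⟨u, hu, rfl⟩
      exact Real.one_lt_exp_iff.2 hu
    · intro hx
      exact ⟨Real.log x, Real.log_pos hx, Real.exp_log (zero_lt_one.trans hx)⟩
  rw [← himg, integral_image_eq_integral_abs_deriv_smul (f' := Real.exp) measurableSet_Ioi
    (fun x _ => (Real.hasDerivAt_exp x).hasDerivWithinAt) Real.exp_injective.injOn]
  rw [Real.fourier_real_eq]
  rw [← integral_indicator measurableSet_Ioi]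
  refine integral_congr_ae ?_
  have h0 : ∀ᵐ u : ℝ, u ≠ 0 := by
    simp [ae_iff, measure_singleton]
  filter_upwards [h0] with u hu0
  by_cases hu : 0 < u
  · rw [indicator_of_mem (by exact hu)]
    rw [Bf, if_pos hu.le, abs_of_pos (Real.exp_pos u), Circle.smul_def, smul_eq_mul,
      Complex.real_smul]
    rw [Real.fourierChar_apply]
    have h1 : ((Real.exp u : ℝ) : ℂ) ^ (-(s + 1)) = Complex.exp (-(s + 1) * u) := by
      rw [Complex.cpow_def_of_ne_zero (by exact_mod_cast (Real.exp_pos u).ne'),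
        ← Complex.ofReal_log (Real.exp_pos u).le, Real.log_exp, mul_comm]
    rw [h1]
    have h2 : ∑ k ∈ Finset.Icc 1 ⌊Real.exp u⌋₊, a k = A a ⌊Real.exp u⌋₊ := rfl
    rw [h2]
    have h3 : Complex.exp (((2 * π * (-(u * y)) : ℝ) : ℂ) * Complex.I) *
        (A a ⌊Real.exp u⌋₊ * ((Real.exp (-u) : ℝ) : ℂ) * ((Real.exp (-σ * u) : ℝ) : ℂ)) =
        A a ⌊Real.exp u⌋₊ * Complex.exp (((2 * π * (-(u * y)) : ℝ) : ℂ) * Complex.I + (-u) +
          (-σ * u)) := by
      rw [Complex.exp_add, Complex.exp_add]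
      push_cast
      ring
    have h4 : ((Real.exp u : ℝ) : ℂ) * (A a ⌊Real.exp u⌋₊ * Complex.exp (-(s + 1) * u)) =
        A a ⌊Real.exp u⌋₊ * Complex.exp (u + -(s + 1) * u) := by
      rw [Complex.exp_add]
      push_cast
      ring
    rw [h3, h4, hs]
    congr 2
    push_cast
    ring
  · rw [indicator_of_notMem (by simpa using hu)]
    have : ¬ (0 ≤ u) := fun h => hu (lt_of_le_of_ne h (Ne.symm hu0))
    rw [Bf, if_neg this]
    simp


/-- Tauberian theorem: bounded coefficients, `L`-series continuous up to the line `re s = 1`. -/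
theorem tauber (a : ℕ → ℂ) (ha : ∀ n, ‖a n‖ ≤ 1) (F : ℂ → ℂ)
    (hFc : ContinuousOn F {s | 1 ≤ s.re}) (hF : ∀ s : ℂ, 1 < s.re → LSeries a s = F s) :
    Tendsto (fun N : ℕ => (∑ n ∈ Finset.Icc 1 N, a n) / (N : ℂ)) atTop (𝓝 0) := by
  let G : ℂ → ℂ := fun s => F s / s
  have hG : ContinuousOn G {s | 1 ≤ s.re} := by
    refine hFc.div continuousOn_id fun s hs h0 => ?_
    simp only [mem_ofPred_eq, id] at hs h0
    rw [h0] at hs
    simp at hs
    linarith
  have key : Tendsto (Bf a) atTop (𝓝 0) := by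
    refine tauber_abs (Bf a) (Bf_meas a).aestronglyMeasurable ?_ (Bf_norm_le a ha)
      (Bf_slow a ha) (fun y => G (1 + 2 * π * y * Complex.I)) ?_ ?_
    · intro u hu
      rw [Bf, if_neg (not_le.2 hu)]
    · intro y
      have h1 : Tendsto (fun σ : ℝ => (1 + σ + 2 * π * y * Complex.I : ℂ)) (𝓝[>] 0)
          (𝓝[{s | 1 ≤ s.re}] (1 + 2 * π * y * Complex.I)) := by
        refine tendsto_nhdsWithin_iff.2 ⟨?_, ?_⟩
        · have : Continuous (fun σ : ℝ => (1 + σ + 2 * π * y * Complex.I : ℂ)) := by fun_prop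
          have h2 := this.tendsto 0
          simp only [Complex.ofReal_zero, add_zero] at h2
          exact h2.mono_left nhdsWithin_le_nhds
        · filter_upwards [self_mem_nhdsWithin] with σ hσ
          have hσ' : (0 : ℝ) < σ := hσ
          simp
          exact hσ'.le
      have h2 : Tendsto (fun σ : ℝ => G (1 + σ + 2 * π * y * Complex.I)) (𝓝[>] 0)
          (𝓝 (G (1 + 2 * π * y * Complex.I))) := by
        have h3 := hG (1 + 2 * π * y * Complex.I) (by simp)
        exact h3.tendsto.comp h1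
      refine h2.congr' ?_
      filter_upwards [self_mem_nhdsWithin] with σ hσ
      have hσ' : (0 : ℝ) < σ := hσ
      rw [fourier_Bf a ha σ hσ' y, hF _ (by simp; exact hσ')]
    · intro R
      let K : Set (ℝ × ℝ) := Icc (0 : ℝ) 1 ×ˢ Icc (-R) R
      have hK : IsCompact K := isCompact_Icc.prod isCompact_Icc
      let g : ℝ × ℝ → ℂ := fun p => G (1 + p.1 + 2 * π * p.2 * Complex.I)
      have hg : ContinuousOn g K := by
        refine hG.comp (by fun_prop) ?_
        rintro ⟨σ, y⟩ ⟨⟨h1, _⟩, _⟩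
        simp
        exact h1
      obtain ⟨C, hC⟩ := hK.exists_bound_of_continuousOn hg
      refine ⟨C, fun σ hσ y hy => ?_⟩
      have h1 := hC (σ, y) ⟨⟨hσ.1.le, hσ.2⟩, abs_le.1 hy⟩
      rw [fourier_Bf a ha σ hσ.1 y, hF _ (by simp; exact hσ.1)]
      exact h1
  have hlog : Tendsto (fun N : ℕ => Real.log N) atTop atTop :=
    Real.tendsto_log_atTop.comp tendsto_natCast_atTop_atTop
  refine (key.comp hlog).congr' ?_
  filter_upwards [eventually_ge_atTop 1] with N hN
  have hN' : (0 : ℝ) < N := by exact_mod_cast hN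
  simp only [Function.comp]
  rw [Bf, if_pos (Real.log_nonneg (by exact_mod_cast hN)), Real.exp_log hN', Nat.floor_natCast,
    Real.exp_neg, Real.exp_log hN', A]
  push_cast
  rw [div_eq_mul_inv]

end Pool.Agent.Helper40.Tauber
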