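import Mathlib
import Pool.Agent.Helper40.Tauber2
open Set Filter Topology MeasureTheory Real
open scoped ArithmeticFunction.Moebius

namespace Pool.Agent.Helper40.Tauber

theorem moebius_char_trivial (N : ℕ) [NeZero N] :
    ContinuousOn (fun s : ℂ => (s - 1) / DirichletCharacter.LFunctionTrivChar₁ N s)
      {s | 1 ≤ s.re} := by
  refine ContinuousOn.div (by fun_prop)
    (DirichletCharacter.differentiable_LFunctionTrivChar₁ N).continuous.continuousOn ?_
  intro s hs
  by_cases h1 : s = 1
  · rw [h1]; exact DirichletCharacter.LFunctionTrivChar₁_apply_one_ne_zero N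
  · rw [DirichletCharacter.LFunctionTrivChar₁, Function.update_of_ne h1]
    exact mul_ne_zero (sub_ne_zero.2 h1)
      (DirichletCharacter.LFunction_ne_zero_of_one_le_re (1 : DirichletCharacter ℂ N)
        (Or.inr h1) hs)

theorem moebius_char (N : ℕ) [NeZero N] (χ : DirichletCharacter ℂ N) :
    Tendsto (fun M : ℕ => (∑ n ∈ Finset.Icc 1 M, χ n * (μ n : ℂ)) / (M : ℂ)) atTop (𝓝 0) := by
  have ha : ∀ n : ℕ, ‖χ n * (μ n : ℂ)‖ ≤ 1 := by
    intro n
    rw [norm_mul]
    have h1 : ‖χ n‖ ≤ 1 := χ.norm_le_one _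
    have h2 : ‖(μ n : ℂ)‖ ≤ 1 := by
      rw [Complex.norm_intCast]
      exact_mod_cast ArithmeticFunction.abs_moebius_le_one
    calc _ ≤ (1 : ℝ) * 1 := by gcongr
      _ = 1 := one_mul 1
  have hL : ∀ s : ℂ, 1 < s.re → LSeries (fun n : ℕ => χ n * (μ n : ℂ)) s =
      (DirichletCharacter.LFunction χ s)⁻¹ := by
    intro s hs
    have h1 := DirichletCharacter.LSeries.mul_mu_eq_one χ hs
    rw [DirichletCharacter.LFunction_eq_LSeries χ hs]
    exact eq_inv_of_mul_eq_one_right h1
  by_cases hχ : χ = 1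
  · refine tauber (fun n : ℕ => χ n * (μ n : ℂ)) ha
      (fun s : ℂ => (s - 1) / DirichletCharacter.LFunctionTrivChar₁ N s)
      (moebius_char_trivial N) ?_
    intro s hs
    have hs1 : s ≠ 1 := by
      intro h; rw [h] at hs; simp at hs
    rw [hL s hs, DirichletCharacter.LFunctionTrivChar₁, Function.update_of_ne hs1, hχ]
    have h2 : s - 1 ≠ 0 := sub_ne_zero.2 hs1
    change _ = (s - 1) / ((s - 1) * DirichletCharacter.LFunction 1 s)
    field_simp
  · refine tauber (fun n : ℕ => χ n * (μ n : ℂ)) ha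
      (fun s : ℂ => (DirichletCharacter.LFunction χ s)⁻¹) ?_ hL
    refine ContinuousOn.inv₀
      (DirichletCharacter.differentiable_LFunction hχ).continuous.continuousOn ?_
    intro s hs
    exact DirichletCharacter.LFunction_ne_zero_of_one_le_re χ (Or.inl hχ) hs

end Pool.Agent.Helper40.Tauber
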