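import Mathlib
import Pool.Agent.Helper40.Tauber3
open Set Filter Topology MeasureTheory Real
open scoped ArithmeticFunction.Moebius

namespace Pool.Agent.Helper40.Tauber

/-- Weighted partial sums of the Moebius function. -/
noncomputable def S (f : ℕ → ℂ) (M : ℕ) : ℂ := ∑ n ∈ Finset.Icc 1 M, f n * (μ n : ℂ)

theorem S_tendsto_unit (q : ℕ) [NeZero q] (a : ZMod q) (ha : IsUnit a) :
    Tendsto (fun M : ℕ => S (fun n => if (n : ZMod q) = a then 1 else 0) M / (M : ℂ)) atTop
      (𝓝 0) := by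
  classical
  have h1 : ∀ M : ℕ, S (fun n => if (n : ZMod q) = a then 1 else 0) M / (M : ℂ) =
      ∑ χ : DirichletCharacter ℂ q, ((q.totient : ℂ)⁻¹ * χ a⁻¹) *
        ((∑ n ∈ Finset.Icc 1 M, χ n * (μ n : ℂ)) / (M : ℂ)) := by
    intro M
    unfold S
    have h2 : ∀ n : ℕ, (if (n : ZMod q) = a then (1 : ℂ) else 0) =
        ∑ χ : DirichletCharacter ℂ q, ((q.totient : ℂ)⁻¹ * χ a⁻¹) * χ n := by
      intro n
      have h3 := DirichletCharacter.sum_char_inv_mul_char_eq ℂ ha (n : ZMod q)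
      simp only [mul_assoc]
      rw [← Finset.mul_sum, h3]
      have h4 : (q.totient : ℂ) ≠ 0 := by
        exact_mod_cast (Nat.totient_pos.2 (NeZero.pos q)).ne'
      by_cases h5 : (n : ZMod q) = a
      · rw [if_pos h5, if_pos h5.symm, inv_mul_cancel₀ h4]
      · rw [if_neg h5, if_neg (fun h => h5 h.symm), mul_zero]
    simp only [h2]
    simp only [Finset.sum_mul, Finset.sum_div, Finset.mul_sum]
    rw [Finset.sum_comm]
    refine Finset.sum_congr rfl fun χ _ => Finset.sum_congr rfl fun n _ => ?_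
    ring
  simp only [h1]
  have h6 := tendsto_finsetSum (Finset.univ : Finset (DirichletCharacter ℂ q))
    (fun χ _ => (moebius_char q χ).const_mul ((q.totient : ℂ)⁻¹ * χ a⁻¹))
  simpa using h6

theorem S_tendsto_unit_supp (q : ℕ) [NeZero q] (h : ZMod q → ℂ) (hh : ∀ a, ¬ IsUnit a → h a = 0) :
    Tendsto (fun M : ℕ => S (fun n => h n) M / (M : ℂ)) atTop (𝓝 0) := by
  classical
  have h1 : ∀ M : ℕ, S (fun n => h n) M / (M : ℂ) =
      ∑ a : ZMod q, h a * (S (fun n => if (n : ZMod q) = a then 1 else 0) M / (M : ℂ)) := by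
    intro M
    unfold S
    have h2 : ∀ n : ℕ, h n = ∑ a : ZMod q, h a * (if (n : ZMod q) = a then (1 : ℂ) else 0) := by
      intro n; simp
    have h3 : ∑ n ∈ Finset.Icc 1 M, h n * (μ n : ℂ) = ∑ n ∈ Finset.Icc 1 M,
        (∑ a : ZMod q, h a * (if (n : ZMod q) = a then (1 : ℂ) else 0)) * (μ n : ℂ) :=
      Finset.sum_congr rfl fun n _ => by rw [← h2 n]
    rw [h3]
    simp only [Finset.sum_mul, Finset.sum_div, Finset.mul_sum]
    rw [Finset.sum_comm]
    refine Finset.sum_congr rfl fun χ _ => Finset.sum_congr rfl fun n _ => ?_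
    ring
  simp only [h1]
  have h6 := tendsto_finsetSum (Finset.univ : Finset (ZMod q))
    (f := fun a (M : ℕ) => h a * (S (fun n => if (n : ZMod q) = a then 1 else 0) M / (M : ℂ)))
    (a := fun _ => 0) (x := atTop) (fun a _ => by
      by_cases ha : IsUnit a
      · simpa using (S_tendsto_unit q a ha).const_mul (h a)
      · rw [hh a ha]; simp)
  simpa using h6

theorem S_tendsto_single (q : ℕ) [NeZero q] (a : ZMod q) :
    Tendsto (fun M : ℕ => S (fun n => if (n : ZMod q) = a then 1 else 0) M / (M : ℂ)) atTop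
      (𝓝 0) := by
  classical
  set g := Nat.gcd a.val q with hg
  have hq0 : 0 < q := NeZero.pos q
  have hg0 : 0 < g := Nat.gcd_pos_of_pos_right _ hq0
  have hgq : g ∣ q := Nat.gcd_dvd_right _ _
  have hga : g ∣ a.val := Nat.gcd_dvd_left _ _
  let h : ZMod q → ℂ := fun b => if ((g : ZMod q) * b = a ∧ Nat.Coprime g b.val) then 1 else 0
  have hsupp : ∀ b, ¬ IsUnit b → h b = 0 := by
    intro b hb
    simp only [h]
    rw [if_neg]
    rintro ⟨h1, h2⟩
    apply hb
    rw [← ZMod.natCast_zmod_val b, ZMod.isUnit_iff_coprime]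
    by_contra h3
    obtain ⟨p, hp, hpb, hpq⟩ := Nat.Prime.not_coprime_iff_dvd.1 h3
    have h4 : (p : ℕ) ∣ a.val := by
      have h5 : ((g * b.val : ℕ) : ZMod q) = (a.val : ZMod q) := by
        push_cast
        rw [ZMod.natCast_zmod_val, ZMod.natCast_zmod_val, h1]
      have h6 := (ZMod.natCast_eq_natCast_iff _ _ _).1 h5
      have h7 := h6.of_dvd hpq
      have h8 : g * b.val ≡ 0 [MOD p] := (Nat.modEq_zero_iff_dvd).2 (Dvd.dvd.mul_left hpb _)
      exact (Nat.modEq_zero_iff_dvd).1 (h7.symm.trans h8)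
    have h5 : p ∣ g := Nat.dvd_gcd h4 hpq
    have h6 : p ∣ Nat.gcd g b.val := Nat.dvd_gcd h5 hpb
    rw [h2] at h6
    exact hp.one_lt.ne' (Nat.dvd_one.1 h6)
  have hred : ∀ M : ℕ, S (fun n => if (n : ZMod q) = a then 1 else 0) M =
      (μ g : ℂ) * S (fun n => h n) (M / g) := by
    intro M
    unfold S
    rw [Finset.mul_sum]
    have hfilter : ∑ n ∈ Finset.Icc 1 M, (if (n : ZMod q) = a then (1 : ℂ) else 0) * (μ n : ℂ) =
        ∑ n ∈ (Finset.Icc 1 M).filter (fun n => g ∣ n),
          (if (n : ZMod q) = a then (1 : ℂ) else 0) * (μ n : ℂ) := by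
      rw [Finset.sum_filter]
      refine Finset.sum_congr rfl fun n _ => ?_
      by_cases hn : g ∣ n
      · rw [if_pos hn]
      · rw [if_neg hn, if_neg, zero_mul]
        intro h1
        apply hn
        have h5 : ((n : ℕ) : ZMod q) = (a.val : ZMod q) := by
          rw [ZMod.natCast_zmod_val, h1]
        have h6 := ((ZMod.natCast_eq_natCast_iff _ _ _).1 h5).of_dvd hgq
        exact (Nat.modEq_zero_iff_dvd).1 (h6.trans ((Nat.modEq_zero_iff_dvd).2 hga))
    rw [hfilter]
    symm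
    refine Finset.sum_bij (fun m _ => g * m) ?_ ?_ ?_ ?_
    · intro m hm
      obtain ⟨hm1, hm2⟩ := Finset.mem_Icc.1 hm
      refine Finset.mem_filter.2 ⟨Finset.mem_Icc.2 ⟨?_, ?_⟩, dvd_mul_right _ _⟩
      · exact Nat.mul_pos hg0 hm1
      · rw [mul_comm]; exact (Nat.le_div_iff_mul_le hg0).1 hm2
    · intro m _ m' _ hmm
      exact Nat.eq_of_mul_eq_mul_left hg0 hmm
    · intro n hn
      obtain ⟨hn1, hn2⟩ := Finset.mem_filter.1 hn
      obtain ⟨m, rfl⟩ := hn2
      obtain ⟨h1, h2⟩ := Finset.mem_Icc.1 hn1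
      refine ⟨m, Finset.mem_Icc.2 ⟨?_, ?_⟩, rfl⟩
      · exact Nat.pos_of_mul_pos_left h1
      · rw [Nat.le_div_iff_mul_le hg0, mul_comm]; exact h2
    · intro m _
      simp only [h]
      have hval : Nat.Coprime g (m : ZMod q).val ↔ Nat.Coprime g m := by
        rw [ZMod.val_natCast]
        have : Nat.gcd g (m % q) = Nat.gcd g m := by
          have h1 : (m % q) ≡ m [MOD g] := (Nat.mod_modEq m q).of_dvd hgq
          rw [Nat.gcd_comm, Nat.gcd_comm g m]
          exact Nat.ModEq.gcd_eq h1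
        unfold Nat.Coprime
        rw [this]
      simp only [hval]
      by_cases hcop : Nat.Coprime g m
      · rw [ArithmeticFunction.isMultiplicative_moebius.map_mul_of_coprime hcop]
        push_cast
        by_cases h1 : (g : ZMod q) * m = a
        · simp [h1, hcop]
        · simp [h1]
      · have : μ (g * m) = 0 := by
          rw [ArithmeticFunction.moebius_eq_zero_of_not_squarefree]
          intro hsq
          exact hcop (Nat.coprime_of_squarefree_mul hsq)
        rw [this]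
        simp [hcop]
  have hlim := S_tendsto_unit_supp q h hsupp
  have hdiv : Tendsto (fun M : ℕ => M / g) atTop atTop := Nat.tendsto_div_const_atTop hg0.ne'
  have h1 := hlim.comp hdiv
  rw [tendsto_zero_iff_norm_tendsto_zero] at h1 ⊢
  refine squeeze_zero (fun _ => norm_nonneg _) (fun M => ?_) h1
  simp only [Function.comp]
  rw [hred, norm_div, norm_mul, norm_div, Complex.norm_natCast, Complex.norm_natCast]
  have hμ : ‖(μ g : ℂ)‖ ≤ 1 := by
    rw [Complex.norm_intCast]
    exact_mod_cast ArithmeticFunction.abs_moebius_le_one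
  rcases Nat.eq_zero_or_pos (M / g) with h0 | h0
  · rw [h0]
    simp [S]
  · have hle : ((M / g : ℕ) : ℝ) ≤ M := by exact_mod_cast Nat.div_le_self M g
    have hpos : (0 : ℝ) < ((M / g : ℕ) : ℝ) := by exact_mod_cast h0
    calc ‖(μ g : ℂ)‖ * ‖S (fun n => h n) (M / g)‖ / (M : ℝ)
        ≤ 1 * ‖S (fun n => h n) (M / g)‖ / ((M / g : ℕ) : ℝ) := by gcongr
      _ = _ := by rw [one_mul]

/-- The Moebius function has mean zero against every periodic weight. -/
theorem moebius_periodic (q : ℕ) [NeZero q] (h : ZMod q → ℂ) :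
    Tendsto (fun M : ℕ => (∑ n ∈ Finset.Icc 1 M, h n * (μ n : ℂ)) / (M : ℂ)) atTop (𝓝 0) := by
  classical
  have h1 : ∀ M : ℕ, (∑ n ∈ Finset.Icc 1 M, h n * (μ n : ℂ)) / (M : ℂ) =
      ∑ a : ZMod q, h a * (S (fun n => if (n : ZMod q) = a then 1 else 0) M / (M : ℂ)) := by
    intro M
    unfold S
    have h2 : ∀ n : ℕ, h n = ∑ a : ZMod q, h a * (if (n : ZMod q) = a then (1 : ℂ) else 0) := by
      intro n; simp
    have h3 : ∑ n ∈ Finset.Icc 1 M, h n * (μ n : ℂ) = ∑ n ∈ Finset.Icc 1 M,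
        (∑ a : ZMod q, h a * (if (n : ZMod q) = a then (1 : ℂ) else 0)) * (μ n : ℂ) :=
      Finset.sum_congr rfl fun n _ => by rw [← h2 n]
    rw [h3]
    simp only [Finset.sum_mul, Finset.sum_div, Finset.mul_sum]
    rw [Finset.sum_comm]
    refine Finset.sum_congr rfl fun χ _ => Finset.sum_congr rfl fun n _ => ?_
    ring
  simp only [h1]
  have h6 := tendsto_finsetSum (Finset.univ : Finset (ZMod q))
    (fun a _ => (S_tendsto_single q a).const_mul (h a))
  simpa using h6

end Pool.Agent.Helper40.Tauber
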