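import Mathlib
import Pool.Agent.Helper40.Tauber4
open Set Filter Topology Real
open scoped ArithmeticFunction.Moebius

namespace Pool.Agent.Helper40.Katai

/-- number of primes of `P` dividing `n` -/
noncomputable def om (P : Finset ℕ) (n : ℕ) : ℝ := ∑ p ∈ P, if p ∣ n then 1 else 0

/-- `∑ 1/p` over `P` -/
noncomputable def LL (P : Finset ℕ) : ℝ := ∑ p ∈ P, (1 : ℝ) / p

theorem card_multiples (N d : ℕ) : ((Finset.Icc 1 N).filter (fun n => d ∣ n)).card = N / d := by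
  have : Finset.Icc 1 N = Finset.Ioc 0 N := by
    ext; simp [Nat.lt_iff_add_one_le]
  rw [this, Nat.Ioc_filter_dvd_card_eq_div]

theorem sum_om_mul (P : Finset ℕ) (hP : ∀ p ∈ P, 0 < p) (N : ℕ) (g : ℕ → ℂ) :
    ∑ n ∈ Finset.Icc 1 N, g n * (om P n : ℂ) = ∑ p ∈ P, ∑ m ∈ Finset.Icc 1 (N / p), g (p * m) := by
  classical
  unfold om
  push_cast
  simp only [Finset.mul_sum]
  rw [Finset.sum_comm]
  refine Finset.sum_congr rfl fun p hp => ?_
  have hp0 := hP p hp
  have h1 : ∑ n ∈ Finset.Icc 1 N, g n * (((if p ∣ n then 1 else 0 : ℝ)) : ℂ) =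
      ∑ n ∈ (Finset.Icc 1 N).filter (fun n => p ∣ n), g n := by
    rw [Finset.sum_filter]
    refine Finset.sum_congr rfl fun n _ => ?_
    split_ifs <;> simp
  rw [h1]
  symm
  refine Finset.sum_bij (fun m _ => p * m) ?_ ?_ ?_ ?_
  · intro m hm
    obtain ⟨hm1, hm2⟩ := Finset.mem_Icc.1 hm
    refine Finset.mem_filter.2 ⟨Finset.mem_Icc.2 ⟨?_, ?_⟩, dvd_mul_right _ _⟩
    · exact Nat.mul_pos hp0 hm1
    · rw [mul_comm]; exact (Nat.le_div_iff_mul_le hp0).1 hm2
  · intro m _ m' _ hmm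
    exact Nat.eq_of_mul_eq_mul_left hp0 hmm
  · intro n hn
    obtain ⟨hn1, hn2⟩ := Finset.mem_filter.1 hn
    obtain ⟨m, rfl⟩ := hn2
    obtain ⟨h1, h2⟩ := Finset.mem_Icc.1 hn1
    refine ⟨m, Finset.mem_Icc.2 ⟨?_, ?_⟩, rfl⟩
    · exact Nat.pos_of_mul_pos_left h1
    · rw [Nat.le_div_iff_mul_le hp0, mul_comm]; exact h2
  · intro m _; rfl

/-- Turán–Kubilius type inequality. -/
theorem turan (P : Finset ℕ) (hP : ∀ p ∈ P, p.Prime) (N : ℕ) :
    ∑ n ∈ Finset.Icc 1 N, (om P n - LL P) ^ 2 ≤ N * LL P + 2 * LL P * P.card := by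
  classical
  have hLL : 0 ≤ LL P := Finset.sum_nonneg fun p _ => by positivity
  have e1 : ∑ n ∈ Finset.Icc 1 N, om P n = ∑ p ∈ P, ((N / p : ℕ) : ℝ) := by
    unfold om
    rw [Finset.sum_comm]
    refine Finset.sum_congr rfl fun p _ => ?_
    rw [← card_multiples N p, Finset.sum_boole]
  have e2 : ∑ n ∈ Finset.Icc 1 N, (om P n) ^ 2 ≤ N * LL P + N * (LL P) ^ 2 := by
    have h1 : ∀ n, (om P n) ^ 2 = ∑ p ∈ P, ∑ q ∈ P, (if (p ∣ n ∧ q ∣ n) then (1 : ℝ) else 0) := by
      intro n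
      rw [pow_two, om, Finset.sum_mul_sum]
      refine Finset.sum_congr rfl fun p _ => Finset.sum_congr rfl fun q _ => ?_
      by_cases hp : p ∣ n <;> by_cases hq : q ∣ n <;> simp [hp, hq]
    simp only [h1]
    rw [Finset.sum_comm]
    have h2 : ∀ p ∈ P, ∑ n ∈ Finset.Icc 1 N, ∑ q ∈ P, (if (p ∣ n ∧ q ∣ n) then (1 : ℝ) else 0) ≤
        N / p + N / p * LL P := by
      intro p hp
      rw [Finset.sum_comm]
      have h3 : ∀ q ∈ P, ∑ n ∈ Finset.Icc 1 N, (if (p ∣ n ∧ q ∣ n) then (1 : ℝ) else 0) ≤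
          (if q = p then (N : ℝ) / p else 0) + (N : ℝ) / p * (1 / q) := by
        intro q hq
        rw [Finset.sum_boole]
        have hp0 : (0 : ℝ) < p := by exact_mod_cast (hP p hp).pos
        have hq0 : (0 : ℝ) < q := by exact_mod_cast (hP q hq).pos
        by_cases hqp : q = p
        · subst hqp
          rw [if_pos rfl]
          have h4 : ((Finset.Icc 1 N).filter (fun n => q ∣ n ∧ q ∣ n)).card = N / q := by
            rw [← card_multiples N q]
            congr 1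
            ext n; simp
          rw [h4]
          have h5 : ((N / q : ℕ) : ℝ) ≤ (N : ℝ) / q := Nat.cast_div_le
          have h6 : (0 : ℝ) ≤ (N : ℝ) / q * (1 / q) := by positivity
          linarith
        · rw [if_neg hqp, zero_add]
          have hcop : Nat.Coprime p q := (Nat.coprime_primes (hP p hp) (hP q hq)).2
            (fun h => hqp h.symm)
          have h4 : ((Finset.Icc 1 N).filter (fun n => p ∣ n ∧ q ∣ n)).card = N / (p * q) := by
            rw [← card_multiples N (p * q)]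
            congr 1
            ext n
            simp only [Finset.mem_filter, Finset.mem_Icc, and_congr_right_iff]
            intro _
            exact ⟨fun h => hcop.mul_dvd_of_dvd_of_dvd h.1 h.2,
              fun h => ⟨(dvd_mul_right _ _).trans h, (dvd_mul_left _ _).trans h⟩⟩
          rw [h4]
          calc ((N / (p * q) : ℕ) : ℝ) ≤ (N : ℝ) / ((p * q : ℕ) : ℝ) := Nat.cast_div_le
            _ = (N : ℝ) / p * (1 / q) := by push_cast; field_simp
      calc _ ≤ ∑ q ∈ P, ((if q = p then (N : ℝ) / p else 0) + (N : ℝ) / p * (1 / q)) :=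
            Finset.sum_le_sum h3
        _ = N / p + N / p * LL P := by
            rw [Finset.sum_add_distrib, ← Finset.mul_sum, Finset.sum_ite_eq' P p]
            rw [if_pos hp, LL]
    calc _ ≤ ∑ p ∈ P, ((N : ℝ) / p + N / p * LL P) := Finset.sum_le_sum h2
      _ = N * LL P + N * (LL P) ^ 2 := by
          rw [Finset.sum_add_distrib, ← Finset.sum_mul]
          have : ∑ p ∈ P, (N : ℝ) / p = N * LL P := by
            rw [LL, Finset.mul_sum]
            exact Finset.sum_congr rfl fun p _ => by ring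
          rw [this]; ring
  have e3 : (N : ℝ) * LL P - P.card ≤ ∑ p ∈ P, ((N / p : ℕ) : ℝ) := by
    have h1 : ∀ p ∈ P, (N : ℝ) / p - 1 ≤ ((N / p : ℕ) : ℝ) := by
      intro p hp
      have h2 := Nat.lt_floor_add_one ((N : ℝ) / p)
      rw [Nat.floor_div_natCast, Nat.floor_natCast] at h2
      linarith
    calc (N : ℝ) * LL P - P.card = ∑ p ∈ P, ((N : ℝ) / p - 1) := by
          rw [Finset.sum_sub_distrib, LL, Finset.mul_sum]
          simp only [Finset.sum_const, nsmul_eq_mul, mul_one]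
          congr 1
          exact Finset.sum_congr rfl fun p _ => by ring
      _ ≤ _ := Finset.sum_le_sum h1
  have e4 : ∑ n ∈ Finset.Icc 1 N, (om P n - LL P) ^ 2 =
      ∑ n ∈ Finset.Icc 1 N, (om P n) ^ 2 - 2 * LL P * ∑ n ∈ Finset.Icc 1 N, om P n +
        N * (LL P) ^ 2 := by
    have : ∀ n, (om P n - LL P) ^ 2 = (om P n) ^ 2 - 2 * LL P * om P n + (LL P) ^ 2 := by
      intro n; ring
    simp only [this]
    rw [Finset.sum_add_distrib, Finset.sum_sub_distrib, ← Finset.mul_sum]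
    simp
  rw [e4, e1]
  nlinarith [mul_le_mul_of_nonneg_left e3 hLL]


theorem moebius_prime_mul (p m : ℕ) (hp : p.Prime) :
    (μ (p * m) : ℂ) = -(μ m : ℂ) + (if p ∣ m then (μ m : ℂ) else 0) := by
  by_cases h : p ∣ m
  · rw [if_pos h, neg_add_cancel]
    have : μ (p * m) = 0 := by
      rw [ArithmeticFunction.moebius_eq_zero_of_not_squarefree]
      intro hsq
      have := Nat.coprime_of_squarefree_mul hsq
      exact hp.one_lt.ne' (Nat.Coprime.eq_one_of_dvd this h)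
    rw [this]; simp
  · rw [if_neg h, add_zero]
    rw [ArithmeticFunction.isMultiplicative_moebius.map_mul_of_coprime
      ((Nat.Prime.coprime_iff_not_dvd hp).2 h), ArithmeticFunction.moebius_apply_prime hp]
    push_cast; ring

theorem norm_moebius_le (n : ℕ) : ‖(μ n : ℂ)‖ ≤ 1 := by
  rw [Complex.norm_intCast]
  exact_mod_cast ArithmeticFunction.abs_moebius_le_one

/-- truncated dilate -/
noncomputable def tr (a : ℕ → ℂ) (N p m : ℕ) : ℂ := if p * m ≤ N then a (p * m) else 0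

theorem sum_tr (a : ℕ → ℂ) (c : ℕ → ℂ) (N p : ℕ) (hp : 0 < p) :
    ∑ m ∈ Finset.Icc 1 (N / p), c m * a (p * m) = ∑ m ∈ Finset.Icc 1 N, c m * tr a N p m := by
  have h1 : Finset.Icc 1 (N / p) ⊆ Finset.Icc 1 N :=
    Finset.Icc_subset_Icc_right (Nat.div_le_self N p)
  rw [← Finset.sum_subset h1]
  · refine Finset.sum_congr rfl fun m hm => ?_
    obtain ⟨_, hm2⟩ := Finset.mem_Icc.1 hm
    rw [tr, if_pos]
    rw [mul_comm]; exact (Nat.le_div_iff_mul_le hp).1 hm2
  · intro m hm1 hm2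
    obtain ⟨hm3, _⟩ := Finset.mem_Icc.1 hm1
    rw [tr, if_neg, mul_zero]
    intro h
    apply hm2
    exact Finset.mem_Icc.2 ⟨hm3, by rw [Nat.le_div_iff_mul_le hp, mul_comm]; exact h⟩

theorem pair_tendsto (a : ℕ → ℂ)
    (hcorr : ∀ p q : ℕ, p.Prime → q.Prime → p ≠ q →
      Tendsto (fun N : ℕ => (∑ n ∈ Finset.Icc 1 N, a (p * n) * (starRingEnd ℂ) (a (q * n))) / (N : ℂ))
        atTop (𝓝 0))
    (p q : ℕ) (hp : p.Prime) (hq : q.Prime) (hpq : p ≠ q) :
    Tendsto (fun N : ℕ => ‖∑ m ∈ Finset.Icc 1 N, tr a N p m * (starRingEnd ℂ) (tr a N q m)‖ / (N : ℝ))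
      atTop (𝓝 0) := by
  have hM0 : 0 < max p q := lt_max_of_lt_left hp.pos
  have hred : ∀ N : ℕ, ∑ m ∈ Finset.Icc 1 N, tr a N p m * (starRingEnd ℂ) (tr a N q m) =
      ∑ n ∈ Finset.Icc 1 (N / max p q), a (p * n) * (starRingEnd ℂ) (a (q * n)) := by
    intro N
    have h1 : Finset.Icc 1 (N / max p q) ⊆ Finset.Icc 1 N :=
      Finset.Icc_subset_Icc_right (Nat.div_le_self N _)
    rw [← Finset.sum_subset h1]
    · refine Finset.sum_congr rfl fun m hm => ?_
      obtain ⟨_, hm2⟩ := Finset.mem_Icc.1 hm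
      have hm3 := (Nat.le_div_iff_mul_le hM0).1 hm2
      have h2 : p * m ≤ N := by
        calc p * m ≤ max p q * m := Nat.mul_le_mul_right _ (le_max_left _ _)
          _ ≤ N := by rw [mul_comm]; exact hm3
      have h3 : q * m ≤ N := by
        calc q * m ≤ max p q * m := Nat.mul_le_mul_right _ (le_max_right _ _)
          _ ≤ N := by rw [mul_comm]; exact hm3
      rw [tr, tr, if_pos h2, if_pos h3]
    · intro m hm1 hm2
      obtain ⟨hm3, _⟩ := Finset.mem_Icc.1 hm1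
      by_cases h2 : p * m ≤ N
      · by_cases h3 : q * m ≤ N
        · exfalso
          apply hm2
          refine Finset.mem_Icc.2 ⟨hm3, ?_⟩
          rw [Nat.le_div_iff_mul_le hM0, mul_comm]
          rcases max_choice p q with h | h <;> rw [h] <;> assumption
        · rw [tr, tr, if_neg h3]; simp
      · rw [tr, if_neg h2, zero_mul]
  have h2 := (hcorr p q hp hq hpq).comp (Nat.tendsto_div_const_atTop hM0.ne')
  rw [tendsto_zero_iff_norm_tendsto_zero] at h2
  refine squeeze_zero (fun _ => by positivity) (fun N => ?_) h2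
  simp only [Function.comp]
  rw [hred, norm_div, Complex.norm_natCast]
  rcases Nat.eq_zero_or_pos (N / max p q) with h0 | h0
  · rw [h0]; simp
  · have hle : ((N / max p q : ℕ) : ℝ) ≤ N := by exact_mod_cast Nat.div_le_self N _
    have hpos : (0 : ℝ) < ((N / max p q : ℕ) : ℝ) := by exact_mod_cast h0
    gcongr

theorem sum_inv_sq_le (P : Finset ℕ) (hP : ∀ p ∈ P, p.Prime) :
    ∑ p ∈ P, (1 : ℝ) / p ^ 2 ≤ 2 := by
  classical
  obtain ⟨K, hK⟩ : ∃ K, ∀ p ∈ P, p < K := ⟨P.sup id + 1, fun p hp =>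
    Nat.lt_succ_of_le (Finset.le_sup (f := id) hp)⟩
  have h1 : P ⊆ Finset.Ioc 1 (max 1 K) := by
    intro p hp
    exact Finset.mem_Ioc.2 ⟨(hP p hp).one_lt, (hK p hp).le.trans (le_max_right _ _)⟩
  calc ∑ p ∈ P, (1 : ℝ) / p ^ 2 ≤ ∑ p ∈ Finset.Ioc 1 (max 1 K), (1 : ℝ) / p ^ 2 :=
        Finset.sum_le_sum_of_subset_of_nonneg h1 fun _ _ _ => by positivity
    _ = ∑ p ∈ Finset.Ioc 1 (max 1 K), ((p : ℝ) ^ 2)⁻¹ := by simp
    _ ≤ ((1 : ℕ) : ℝ)⁻¹ - ((max 1 K : ℕ) : ℝ)⁻¹ :=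
        sum_Ioc_inv_sq_le_sub one_ne_zero (le_max_left _ _)
    _ ≤ 2 := by
        have h3 : (0 : ℝ) ≤ ((max 1 K : ℕ) : ℝ)⁻¹ := by positivity
        have h4 : ((1 : ℕ) : ℝ)⁻¹ = 1 := by simp
        rw [h4]
        linarith

theorem exists_large (C : ℝ) : ∃ P : Finset ℕ, (∀ p ∈ P, p.Prime) ∧ C < LL P := by
  classical
  by_contra hcon
  push Not at hcon
  apply Nat.Primes.not_summable_one_div
  refine summable_of_sum_le (c := C) (fun _ => by positivity) fun u => ?_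
  have := hcon (u.image (fun p : Nat.Primes => (p : ℕ))) (by
    intro p hp
    obtain ⟨q, _, rfl⟩ := Finset.mem_image.1 hp
    exact q.2)
  have h2 : LL (u.image (fun p : Nat.Primes => (p : ℕ))) = ∑ p ∈ u, (1 : ℝ) / ((p : ℕ) : ℝ) :=
    Finset.sum_image (g := fun p : Nat.Primes => (p : ℕ)) (f := fun p : ℕ => (1 : ℝ) / p)
      (fun a _ b _ h => Subtype.ext h)
  rw [h2] at this
  exact this

theorem main_bound (a : ℕ → ℂ) (ha : ∀ n, ‖a n‖ ≤ 1) (P : Finset ℕ) (hP : ∀ p ∈ P, p.Prime)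
    (N : ℕ) :
    LL P * ‖∑ n ∈ Finset.Icc 1 N, (μ n : ℂ) * a n‖ ≤
      √N * √(N * LL P + ∑ p ∈ P, ∑ q ∈ P.erase p,
        ‖∑ m ∈ Finset.Icc 1 N, tr a N p m * (starRingEnd ℂ) (tr a N q m)‖) + 2 * N +
      √N * √(N * LL P + 2 * LL P * P.card) := by
  classical
  have hLL : 0 ≤ LL P := Finset.sum_nonneg fun p _ => by positivity
  have hcard : (∑ n ∈ Finset.Icc 1 N, (1 : ℝ) ^ 2) = N := by simp
  -- error from om - LL
  have hE1 : ‖∑ n ∈ Finset.Icc 1 N, ((μ n : ℂ) * a n) * ((om P n - LL P : ℝ) : ℂ)‖ ≤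
      √N * √(N * LL P + 2 * LL P * P.card) := by
    calc _ ≤ ∑ n ∈ Finset.Icc 1 N, ‖((μ n : ℂ) * a n) * ((om P n - LL P : ℝ) : ℂ)‖ :=
          norm_sum_le _ _
      _ ≤ ∑ n ∈ Finset.Icc 1 N, 1 * |om P n - LL P| := by
          refine Finset.sum_le_sum fun n _ => ?_
          rw [norm_mul, norm_mul, Complex.norm_real, Real.norm_eq_abs]
          gcongr
          calc ‖(μ n : ℂ)‖ * ‖a n‖ ≤ 1 * 1 := by
                gcongr
                · exact norm_moebius_le n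
                · exact ha n
            _ = 1 := one_mul 1
      _ ≤ √(∑ n ∈ Finset.Icc 1 N, (1 : ℝ) ^ 2) * √(∑ n ∈ Finset.Icc 1 N, |om P n - LL P| ^ 2) :=
          Real.sum_mul_le_sqrt_mul_sqrt _ _ _
      _ ≤ √N * √(N * LL P + 2 * LL P * P.card) := by
          rw [hcard]
          gcongr
          simp only [sq_abs]
          exact turan P hP N
  -- main term
  have hmain : ‖∑ p ∈ P, ∑ m ∈ Finset.Icc 1 (N / p), (μ m : ℂ) * a (p * m)‖ ≤
      √N * √(N * LL P + ∑ p ∈ P, ∑ q ∈ P.erase p,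
        ‖∑ m ∈ Finset.Icc 1 N, tr a N p m * (starRingEnd ℂ) (tr a N q m)‖) := by
    have h1 : ∑ p ∈ P, ∑ m ∈ Finset.Icc 1 (N / p), (μ m : ℂ) * a (p * m) =
        ∑ m ∈ Finset.Icc 1 N, (μ m : ℂ) * ∑ p ∈ P, tr a N p m := by
      have : ∀ p ∈ P, ∑ m ∈ Finset.Icc 1 (N / p), (μ m : ℂ) * a (p * m) =
          ∑ m ∈ Finset.Icc 1 N, (μ m : ℂ) * tr a N p m := fun p hp =>
        sum_tr a (fun m => (μ m : ℂ)) N p (hP p hp).pos
      rw [Finset.sum_congr rfl this, Finset.sum_comm]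
      exact Finset.sum_congr rfl fun m _ => by rw [Finset.mul_sum]
    rw [h1]
    have hsq : ∑ m ∈ Finset.Icc 1 N, ‖∑ p ∈ P, tr a N p m‖ ^ 2 ≤
        N * LL P + ∑ p ∈ P, ∑ q ∈ P.erase p,
        ‖∑ m ∈ Finset.Icc 1 N, tr a N p m * (starRingEnd ℂ) (tr a N q m)‖ := by
      have h2 : ((∑ m ∈ Finset.Icc 1 N, ‖∑ p ∈ P, tr a N p m‖ ^ 2 : ℝ) : ℂ) =
          ∑ p ∈ P, ∑ q ∈ P, ∑ m ∈ Finset.Icc 1 N, tr a N p m * (starRingEnd ℂ) (tr a N q m) := by
        push_cast
        have h3 : ∀ m, ((‖∑ p ∈ P, tr a N p m‖ : ℂ)) ^ 2 =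
            ∑ p ∈ P, ∑ q ∈ P, tr a N p m * (starRingEnd ℂ) (tr a N q m) := by
          intro m
          rw [← Complex.mul_conj', map_sum, Finset.sum_mul_sum]
        simp only [h3]
        rw [Finset.sum_comm]
        refine Finset.sum_congr rfl fun p _ => ?_
        rw [Finset.sum_comm]
      have h4 : ∑ m ∈ Finset.Icc 1 N, ‖∑ p ∈ P, tr a N p m‖ ^ 2 =
          ‖((∑ m ∈ Finset.Icc 1 N, ‖∑ p ∈ P, tr a N p m‖ ^ 2 : ℝ) : ℂ)‖ := by
        rw [Complex.norm_real, Real.norm_of_nonneg (Finset.sum_nonneg fun _ _ => by positivity)]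
      rw [h4, h2]
      refine (norm_sum_le _ _).trans ?_
      have h5 : ∀ p ∈ P, ‖∑ q ∈ P, ∑ m ∈ Finset.Icc 1 N, tr a N p m * (starRingEnd ℂ) (tr a N q m)‖
          ≤ (N : ℝ) / p + ∑ q ∈ P.erase p,
        ‖∑ m ∈ Finset.Icc 1 N, tr a N p m * (starRingEnd ℂ) (tr a N q m)‖ := by
        intro p hp
        rw [← Finset.add_sum_erase P _ hp]
        refine (norm_add_le _ _).trans ?_
        refine add_le_add ?_ (norm_sum_le _ _)
        have h6 : ∑ m ∈ Finset.Icc 1 N, tr a N p m * (starRingEnd ℂ) (tr a N p m) =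
            ∑ m ∈ Finset.Icc 1 (N / p), (starRingEnd ℂ) (tr a N p m) * a (p * m) := by
          rw [sum_tr a (fun m => (starRingEnd ℂ) (tr a N p m)) N p (hP p hp).pos]
          exact Finset.sum_congr rfl fun m _ => mul_comm _ _
        rw [h6]
        refine (norm_sum_le _ _).trans ?_
        calc ∑ m ∈ Finset.Icc 1 (N / p), ‖(starRingEnd ℂ) (tr a N p m) * a (p * m)‖
            ≤ ∑ m ∈ Finset.Icc 1 (N / p), (1 : ℝ) := by
              refine Finset.sum_le_sum fun m _ => ?_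
              rw [norm_mul, RCLike.norm_conj]
              have h7 : ‖tr a N p m‖ ≤ 1 := by
                rw [tr]; split_ifs
                · exact ha _
                · simp
              calc _ ≤ (1 : ℝ) * 1 := by
                    gcongr
                    exact ha _
                _ = 1 := one_mul 1
          _ = ((N / p : ℕ) : ℝ) := by simp
          _ ≤ (N : ℝ) / p := Nat.cast_div_le
      refine (Finset.sum_le_sum h5).trans ?_
      rw [Finset.sum_add_distrib]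
      have : ∑ p ∈ P, (N : ℝ) / p = N * LL P := by
        rw [LL, Finset.mul_sum]
        exact Finset.sum_congr rfl fun p _ => by ring
      rw [this]
    calc _ ≤ ∑ m ∈ Finset.Icc 1 N, ‖(μ m : ℂ) * ∑ p ∈ P, tr a N p m‖ := norm_sum_le _ _
      _ ≤ ∑ m ∈ Finset.Icc 1 N, 1 * ‖∑ p ∈ P, tr a N p m‖ := by
          refine Finset.sum_le_sum fun m _ => ?_
          rw [norm_mul]
          gcongr
          exact norm_moebius_le m
      _ ≤ √(∑ n ∈ Finset.Icc 1 N, (1 : ℝ) ^ 2) * √(∑ m ∈ Finset.Icc 1 N, ‖∑ p ∈ P, tr a N p m‖ ^ 2) :=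
          Real.sum_mul_le_sqrt_mul_sqrt _ _ _
      _ ≤ _ := by
          rw [hcard]
          gcongr
  -- small term
  have hE2 : ‖∑ p ∈ P, ∑ m ∈ Finset.Icc 1 (N / p), (if p ∣ m then (μ m : ℂ) else 0) * a (p * m)‖ ≤
      2 * N := by
    refine (norm_sum_le _ _).trans ?_
    have h1 : ∀ p ∈ P, ‖∑ m ∈ Finset.Icc 1 (N / p), (if p ∣ m then (μ m : ℂ) else 0) * a (p * m)‖ ≤
        (N : ℝ) * (1 / p ^ 2) := by
      intro p hp
      have hp0 : (0 : ℝ) < p := by exact_mod_cast (hP p hp).pos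
      calc _ ≤ ∑ m ∈ Finset.Icc 1 (N / p), ‖(if p ∣ m then (μ m : ℂ) else 0) * a (p * m)‖ :=
            norm_sum_le _ _
        _ ≤ ∑ m ∈ Finset.Icc 1 (N / p), (if p ∣ m then (1 : ℝ) else 0) := by
            refine Finset.sum_le_sum fun m _ => ?_
            rw [norm_mul]
            split_ifs
            · calc _ ≤ (1 : ℝ) * 1 := by
                    gcongr
                    · exact norm_moebius_le m
                    · exact ha _
                _ = 1 := one_mul 1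
            · simp
        _ = ((N / p / p : ℕ) : ℝ) := by rw [Finset.sum_boole, card_multiples]
        _ ≤ ((N / p : ℕ) : ℝ) / p := Nat.cast_div_le
        _ ≤ ((N : ℝ) / p) / p := by gcongr; exact Nat.cast_div_le
        _ = _ := by field_simp
    refine (Finset.sum_le_sum h1).trans ?_
    rw [← Finset.mul_sum, mul_comm]
    gcongr
    exact sum_inv_sq_le P hP
  -- assembling
  have hid : (LL P : ℂ) * ∑ n ∈ Finset.Icc 1 N, (μ n : ℂ) * a n =
      -(∑ p ∈ P, ∑ m ∈ Finset.Icc 1 (N / p), (μ m : ℂ) * a (p * m)) +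
      (∑ p ∈ P, ∑ m ∈ Finset.Icc 1 (N / p), (if p ∣ m then (μ m : ℂ) else 0) * a (p * m)) -
      ∑ n ∈ Finset.Icc 1 N, ((μ n : ℂ) * a n) * ((om P n - LL P : ℝ) : ℂ) := by
    have h1 := sum_om_mul P (fun p hp => (hP p hp).pos) N (fun n => (μ n : ℂ) * a n)
    have h2 : ∑ p ∈ P, ∑ m ∈ Finset.Icc 1 (N / p), (μ (p * m) : ℂ) * a (p * m) =
        -(∑ p ∈ P, ∑ m ∈ Finset.Icc 1 (N / p), (μ m : ℂ) * a (p * m)) +
      (∑ p ∈ P, ∑ m ∈ Finset.Icc 1 (N / p), (if p ∣ m then (μ m : ℂ) else 0) * a (p * m)) := by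
      rw [← Finset.sum_neg_distrib, ← Finset.sum_add_distrib]
      refine Finset.sum_congr rfl fun p hp => ?_
      rw [← Finset.sum_neg_distrib, ← Finset.sum_add_distrib]
      refine Finset.sum_congr rfl fun m _ => ?_
      rw [moebius_prime_mul p m (hP p hp)]
      ring
    rw [← h2]
    rw [← h1]
    rw [Finset.mul_sum, ← Finset.sum_sub_distrib]
    refine Finset.sum_congr rfl fun n _ => ?_
    push_cast
    ring
  calc LL P * ‖∑ n ∈ Finset.Icc 1 N, (μ n : ℂ) * a n‖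
      = ‖(LL P : ℂ) * ∑ n ∈ Finset.Icc 1 N, (μ n : ℂ) * a n‖ := by
        rw [norm_mul, Complex.norm_real, Real.norm_of_nonneg hLL]
    _ ≤ _ := by
        rw [hid]
        refine (norm_sub_le _ _).trans ?_
        refine add_le_add ((norm_add_le _ _).trans ?_) hE1
        rw [norm_neg]
        exact add_le_add hmain hE2

/-- Kátai's criterion for the Moebius function. -/
theorem katai (a : ℕ → ℂ) (ha : ∀ n, ‖a n‖ ≤ 1)
    (hcorr : ∀ p q : ℕ, p.Prime → q.Prime → p ≠ q →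
      Tendsto (fun N : ℕ => (∑ n ∈ Finset.Icc 1 N, a (p * n) * (starRingEnd ℂ) (a (q * n))) / (N : ℂ))
        atTop (𝓝 0)) :
    Tendsto (fun N : ℕ => (∑ n ∈ Finset.Icc 1 N, (μ n : ℂ) * a n) / (N : ℂ)) atTop (𝓝 0) := by
  classical
  rw [Metric.tendsto_atTop]
  intro ε hε
  obtain ⟨P, hP, hPL⟩ := exists_large (max 1 ((12 / ε) ^ 2))
  set L := LL P with hL
  have hL1 : 1 < L := (le_max_left _ _).trans_lt hPL
  have hL0 : 0 < L := by linarith
  have hL2 : (12 / ε) ^ 2 < L := (le_max_right _ _).trans_lt hPL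
  have hsqrtL : 12 / ε < √L := by
    rw [Real.lt_sqrt (by positivity)]; exact hL2
  -- off diagonal terms
  have hoff : Tendsto (fun N : ℕ => (∑ p ∈ P, ∑ q ∈ P.erase p,
        ‖∑ m ∈ Finset.Icc 1 N, tr a N p m * (starRingEnd ℂ) (tr a N q m)‖) / (N : ℝ)) atTop
        (𝓝 0) := by
    have h1 : Tendsto (fun N : ℕ => ∑ p ∈ P, ∑ q ∈ P.erase p,
        (‖∑ m ∈ Finset.Icc 1 N, tr a N p m * (starRingEnd ℂ) (tr a N q m)‖ / (N : ℝ))) atTop
        (𝓝 (∑ p ∈ P, ∑ q ∈ P.erase p, 0)) := by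
      refine tendsto_finsetSum _ fun p hp => tendsto_finsetSum _ fun q hq => ?_
      obtain ⟨hq1, hq2⟩ := Finset.mem_erase.1 hq
      exact pair_tendsto a hcorr p q (hP p hp) (hP q hq2) (Ne.symm hq1)
    simp only [Finset.sum_const_zero] at h1
    refine h1.congr fun N => ?_
    rw [Finset.sum_div]
    exact Finset.sum_congr rfl fun p _ => by rw [Finset.sum_div]
  have hcardt : Tendsto (fun N : ℕ => (2 * L * P.card) / (N : ℝ)) atTop (𝓝 0) :=
    tendsto_const_div_atTop_nhds_zero_nat _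
  obtain ⟨N1, hN1⟩ := (hoff.eventually (gt_mem_nhds one_pos)).exists_forall_of_atTop
  obtain ⟨N2, hN2⟩ := (hcardt.eventually (gt_mem_nhds one_pos)).exists_forall_of_atTop
  refine ⟨max 1 (max N1 N2), fun N hN => ?_⟩
  have hN0 : 1 ≤ N := (le_max_left _ _).trans hN
  have hNpos : (0 : ℝ) < N := by exact_mod_cast hN0
  have h1 := hN1 N ((le_max_left _ _).trans ((le_max_right _ _).trans hN))
  have h2 := hN2 N ((le_max_right _ _).trans ((le_max_right _ _).trans hN))
  rw [div_lt_one hNpos] at h1 h2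
  have h3 := main_bound a ha P hP N
  rw [← hL] at h3
  have h4 : √N * √(N * L + ∑ p ∈ P, ∑ q ∈ P.erase p,
        ‖∑ m ∈ Finset.Icc 1 N, tr a N p m * (starRingEnd ℂ) (tr a N q m)‖) ≤ N * √(4 * L) := by
    calc _ ≤ √N * √(N * (4 * L)) := by
          gcongr
          nlinarith
      _ = √N * (√N * √(4 * L)) := by rw [Real.sqrt_mul hNpos.le]
      _ = (√N * √N) * √(4 * L) := by ring
      _ = _ := by rw [Real.mul_self_sqrt hNpos.le]
  have h5 : √N * √(N * L + 2 * L * P.card) ≤ N * √(4 * L) := by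
    calc _ ≤ √N * √(N * (4 * L)) := by
          gcongr
          nlinarith
      _ = √N * (√N * √(4 * L)) := by rw [Real.sqrt_mul hNpos.le]
      _ = (√N * √N) * √(4 * L) := by ring
      _ = _ := by rw [Real.mul_self_sqrt hNpos.le]
  have h6 : √(4 * L) = 2 * √L := by
    rw [Real.sqrt_mul (by norm_num)]
    have : √(4 : ℝ) = 2 := by
      rw [show (4 : ℝ) = 2 ^ 2 by norm_num, Real.sqrt_sq (by norm_num)]
    rw [this]
  rw [h6] at h4 h5
  have hsq : √L * √L = L := Real.mul_self_sqrt hL0.le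
  have hsL : 0 < √L := Real.sqrt_pos.2 hL0
  have hsL1 : 1 < √L := by
    rw [Real.lt_sqrt (by norm_num)]; simpa using hL1
  have h7 : L * ‖∑ n ∈ Finset.Icc 1 N, (μ n : ℂ) * a n‖ ≤ N * (6 * √L) := by
    have : (2 : ℝ) * N ≤ N * (2 * √L) := by nlinarith
    calc _ ≤ _ := h3
      _ ≤ N * (2 * √L) + N * (2 * √L) + N * (2 * √L) := by
          exact add_le_add (add_le_add h4 this) h5
      _ = _ := by ring
  rw [dist_zero_right, norm_div, Complex.norm_natCast, div_lt_iff₀ hNpos]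
  have h8 : √L * ‖∑ n ∈ Finset.Icc 1 N, (μ n : ℂ) * a n‖ ≤ 6 * N := by
    have h9 : √L * (√L * ‖∑ n ∈ Finset.Icc 1 N, (μ n : ℂ) * a n‖) ≤ √L * (6 * N) := by
      rw [← mul_assoc, hsq]
      calc _ ≤ _ := h7
        _ = _ := by ring
    exact le_of_mul_le_mul_left h9 hsL
  have h9 : 12 < √L * ε := by
    rw [div_lt_iff₀ hε] at hsqrtL
    exact hsqrtL
  by_contra hcon
  push Not at hcon
  have : √L * (ε * N) ≤ 6 * N := (mul_le_mul_of_nonneg_left hcon hsL.le).trans h8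
  nlinarith

end Pool.Agent.Helper40.Katai
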