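import Mathlib
open Filter Topology MeasureTheory
open scoped InnerProductSpace ComplexConjugate

namespace Pool.Agent.Helper40.Wiener

variable {H : Type*} [NormedAddCommGroup H] [InnerProductSpace ℂ H] [CompleteSpace H]

theorem exists_measure (U : H →L[ℂ] H) (hU : IsStarNormal U) (ξ : H) :
    ∃ ν : Measure (spectrum ℂ U), IsFiniteMeasure ν ∧
      ∀ f : C(spectrum ℂ U, ℂ), ∫ x, f x ∂ν = inner ℂ ξ (cfcHom hU f ξ) := by
  classical
  have hcpt : CompactSpace (spectrum ℂ U) := isCompact_iff_compactSpace.mp (spectrum.isCompact U)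
  let ι : C(spectrum ℂ U, ℝ) → C(spectrum ℂ U, ℂ) :=
    fun f => ⟨fun x => (f x : ℂ), by fun_prop⟩
  have hιadd : ∀ f g, ι (f + g) = ι f + ι g := by
    intro f g; ext x; simp [ι]
  have hιsmul : ∀ (c : ℝ) g, ι (c • g) = (c : ℂ) • ι g := by
    intro f g; ext x; simp [ι]
  let L : CompactlySupportedContinuousMap (spectrum ℂ U) ℝ →ₗ[ℝ] ℝ :=
    { toFun := fun f => (inner ℂ ξ (cfcHom hU (ι (f : C(spectrum ℂ U, ℝ))) ξ)).re
      map_add' := by
        intro f g
        have : ((f + g : CompactlySupportedContinuousMap (spectrum ℂ U) ℝ) :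
            C(spectrum ℂ U, ℝ)) = (f : C(spectrum ℂ U, ℝ)) + (g : C(spectrum ℂ U, ℝ)) := by
          ext x; rfl
        rw [this, hιadd, map_add, add_apply, inner_add_right, Complex.add_re]
      map_smul' := by
        intro c f
        have : ((c • f : CompactlySupportedContinuousMap (spectrum ℂ U) ℝ) :
            C(spectrum ℂ U, ℝ)) = c • (f : C(spectrum ℂ U, ℝ)) := by
          ext x; rfl
        rw [this, hιsmul, map_smul, smul_apply, inner_smul_right]
        simp }
  have hpos' : ∀ g : C(spectrum ℂ U, ℝ), 0 ≤ g → 0 ≤ (inner ℂ ξ (cfcHom hU (ι g) ξ)).re := by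
    intro g hg
    let s : C(spectrum ℂ U, ℂ) := ⟨fun x => ((Real.sqrt (g x) : ℝ) : ℂ), by fun_prop⟩
    have h1 : ι g = star s * s := by
      ext x
      have h2 : 0 ≤ g x := hg x
      simp only [ι, s, ContinuousMap.coe_mk, ContinuousMap.mul_apply, ContinuousMap.star_apply]
      rw [Complex.star_def, Complex.conj_ofReal, ← Complex.ofReal_mul, Real.mul_self_sqrt h2]
    rw [h1, map_mul, map_star, ContinuousLinearMap.star_eq_adjoint,
      mul_apply_eq_comp, ContinuousLinearMap.adjoint_inner_right,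
      inner_self_eq_norm_sq_to_K]
    simp [← Complex.ofReal_pow]
  have hpos : ∀ f : CompactlySupportedContinuousMap (spectrum ℂ U) ℝ, 0 ≤ f → 0 ≤ L f := by
    intro f hf
    exact hpos' f hf
  have hreal : ∀ g : C(spectrum ℂ U, ℝ), (inner ℂ ξ (cfcHom hU (ι g) ξ)).im = 0 := by
    intro g
    have h1 : star (ι g) = ι g := by
      ext x
      simp [ι]
    have h2 : inner ℂ ξ (cfcHom hU (ι g) ξ) = conj (inner ℂ ξ (cfcHom hU (ι g) ξ)) := by
      rw [inner_conj_symm]
      conv_rhs => rw [← ContinuousLinearMap.adjoint_inner_right,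
        ← ContinuousLinearMap.star_eq_adjoint, ← map_star, h1]
    exact Complex.conj_eq_iff_im.1 h2.symm
  let Λ := PositiveLinearMap.mk₀ L hpos
  let ν := RealRMK.rieszMeasure Λ
  have hν : IsFiniteMeasure ν := inferInstance
  have key : ∀ g : C(spectrum ℂ U, ℝ), ((∫ x, g x ∂ν : ℝ) : ℂ) = inner ℂ ξ (cfcHom hU (ι g) ξ) := by
    intro g
    let g' : CompactlySupportedContinuousMap (spectrum ℂ U) ℝ :=
      ⟨g, HasCompactSupport.of_compactSpace _⟩
    have h1 : ∫ x, g' x ∂ν = Λ g' := RealRMK.integral_rieszMeasure Λ g'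
    have h2 : ∫ x, g x ∂ν = ∫ x, g' x ∂ν := rfl
    rw [h2, h1]
    have h3 : Λ g' = (inner ℂ ξ (cfcHom hU (ι g) ξ)).re := rfl
    rw [h3]
    apply Complex.ext
    · simp
    · simp [hreal g]
  refine ⟨ν, hν, ?_⟩
  intro f
  let fr : C(spectrum ℂ U, ℝ) := ⟨fun x => (f x).re, by fun_prop⟩
  let fi : C(spectrum ℂ U, ℝ) := ⟨fun x => (f x).im, by fun_prop⟩
  have hf : f = ι fr + Complex.I • ι fi := by
    ext x
    simp only [ι, fr, fi, ContinuousMap.add_apply, ContinuousMap.smul_apply, ContinuousMap.coe_mk,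
      smul_eq_mul]
    rw [mul_comm]
    exact (Complex.re_add_im (f x)).symm
  have hint : ∀ g : C(spectrum ℂ U, ℂ), Integrable (fun x => g x) ν := fun g =>
    g.continuous.integrable_of_hasCompactSupport (HasCompactSupport.of_compactSpace _)
  have h4 : ∫ x, f x ∂ν = ∫ x, ι fr x ∂ν + Complex.I * ∫ x, ι fi x ∂ν := by
    rw [← integral_const_mul, ← integral_add (hint _) ((hint _).const_mul _)]
    congr 1
    ext x
    conv_lhs => rw [hf]
    simp
  have h5 : ∀ g : C(spectrum ℂ U, ℝ), ∫ x, ι g x ∂ν = ((∫ x, g x ∂ν : ℝ) : ℂ) := by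
    intro g
    exact integral_ofReal
  rw [h4, h5, h5, key, key]
  conv_rhs => rw [hf]
  rw [map_add, map_smul, add_apply, smul_apply, inner_add_right, inner_smul_right]

theorem geom_zero {u : ℂ} (hu : ‖u‖ = 1) (h1 : u ≠ 1) :
    Tendsto (fun N : ℕ => (∑ n ∈ Finset.range N, u ^ n) / (N : ℂ)) atTop (𝓝 0) := by
  have h2 : 0 < ‖u - 1‖ := norm_pos_iff.2 (sub_ne_zero.2 h1)
  rw [tendsto_zero_iff_norm_tendsto_zero]
  refine squeeze_zero (fun _ => norm_nonneg _) (g := fun N : ℕ => (2 / ‖u - 1‖) / (N : ℝ)) ?_ ?_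
  · intro N
    rw [norm_div, Complex.norm_natCast]
    gcongr
    rw [geom_sum_eq h1, norm_div]
    gcongr
    calc ‖u ^ N - 1‖ ≤ ‖u ^ N‖ + ‖(1 : ℂ)‖ := norm_sub_le _ _
      _ = 2 := by rw [norm_pow, hu]; norm_num
  · exact tendsto_const_div_atTop_nhds_zero_nat _

theorem geom_one :
    Tendsto (fun N : ℕ => (∑ n ∈ Finset.range N, (1 : ℂ) ^ n) / (N : ℂ)) atTop (𝓝 1) := by
  apply tendsto_const_nhds.congr'
  filter_upwards [eventually_gt_atTop 0] with N hN
  have : (N : ℂ) ≠ 0 := by exact_mod_cast hN.ne'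
  simp [this]

theorem geom_bound {u : ℂ} (hu : ‖u‖ = 1) (N : ℕ) :
    ‖(∑ n ∈ Finset.range N, u ^ n) / (N : ℂ)‖ ≤ 1 := by
  rw [norm_div, Complex.norm_natCast]
  apply div_le_one_of_le₀ _ (by positivity)
  calc _ ≤ ∑ n ∈ Finset.range N, ‖u ^ n‖ := norm_sum_le _ _
    _ = N := by simp [norm_pow, hu]


theorem norm_spec (U : H →L[ℂ] H) (hU : U ∈ unitary (H →L[ℂ] H)) (z : spectrum ℂ U) :
    ‖(z : ℂ)‖ = 1 := by
  have := spectrum.subset_circle_of_unitary hU z.2
  simpa using this

theorem norm_pow_apply (U : H →L[ℂ] H) (hU : U ∈ unitary (H →L[ℂ] H)) (n : ℕ) (x : H) :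
    ‖(U ^ n) x‖ = ‖x‖ := by
  have h1 : U ^ n ∈ unitary (H →L[ℂ] H) := pow_mem hU n
  exact ContinuousLinearMap.norm_map_of_mem_unitary h1 x

/-- for `ξ` orthogonal to the fixed vectors, the averages tend to zero -/
theorem mean_zero (V : H →L[ℂ] H) (hV : ‖V‖ ≤ 1) (ξ : H) :
    Tendsto (fun N : ℕ => (∑ n ∈ Finset.range N, inner ℂ ξ ((V ^ n) ξ)) / (N : ℂ)) atTop
      (𝓝 (inner ℂ ξ ((V.eqLocus (1 : H →L[ℂ] H)).orthogonalProjectionOnto ξ : H))) := by
  have h1 := ContinuousLinearMap.tendsto_birkhoffAverage_orthogonalProjection V hV ξ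
  have h2 : Continuous (fun y : H => inner ℂ ξ y) := by fun_prop
  have h3 := (h2.tendsto _).comp h1
  refine h3.congr ?_
  intro N
  simp only [Function.comp_apply, birkhoffAverage, birkhoffSum, id]
  rw [inner_smul_right, inner_sum, div_eq_inv_mul]
  congr 1
  apply Finset.sum_congr rfl
  intro n _
  rw [FunLike.coe_pow_eq_iterate]

theorem atomless (U : H →L[ℂ] H) (hU : U ∈ unitary (H →L[ℂ] H)) (ξ : H)
    (hξ : ∀ (z : ℂ) (η : H), U η = z • η → inner ℂ ξ η = 0)
    (ν : Measure (spectrum ℂ U)) [IsFiniteMeasure ν]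
    (hν : ∀ n : ℕ, ∫ z, (z : ℂ) ^ n ∂ν = inner ℂ ξ ((U ^ n) ξ)) (z₀ : spectrum ℂ U) :
    ν {z₀} = 0 := by
  have hz0 := norm_spec U hU z₀
  set V : H →L[ℂ] H := conj (z₀ : ℂ) • U with hVdef
  have hUn : ‖U‖ ≤ 1 := by
    apply ContinuousLinearMap.opNorm_le_bound _ zero_le_one
    intro x
    have := norm_pow_apply U hU 1 x
    rw [pow_one] at this
    rw [this, one_mul]
  have hV : ‖V‖ ≤ 1 := by
    rw [hVdef, norm_smul, RCLike.norm_conj, hz0, one_mul]
    exact hUn
  have h1 := mean_zero V hV ξ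
  have hz0' : (z₀ : ℂ) ≠ 0 := by
    intro h; rw [h] at hz0; simp at hz0
  have hconj : conj (z₀ : ℂ) * z₀ = 1 := by
    rw [mul_comm, Complex.mul_conj, Complex.normSq_eq_norm_sq, hz0]; norm_num
  have h2 : inner ℂ ξ ((V.eqLocus (1 : H →L[ℂ] H)).orthogonalProjectionOnto ξ : H) = 0 := by
    apply hξ (z₀ : ℂ)
    have h3 := ((V.eqLocus (1 : H →L[ℂ] H)).orthogonalProjectionOnto ξ).2
    have h4 : V ((V.eqLocus (1 : H →L[ℂ] H)).orthogonalProjectionOnto ξ : H) =
      ((V.eqLocus (1 : H →L[ℂ] H)).orthogonalProjectionOnto ξ : H) := h3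
    rw [hVdef, smul_apply] at h4
    conv_rhs => rw [← h4]
    rw [smul_smul, mul_comm, hconj, one_smul]
  rw [h2] at h1
  have h5 : Tendsto (fun N : ℕ => ∫ z : spectrum ℂ U,
      (∑ n ∈ Finset.range N, (conj (z₀ : ℂ) * z) ^ n) / (N : ℂ) ∂ν) atTop
      (𝓝 (∫ z : spectrum ℂ U, Set.indicator {z₀} (fun _ => (1 : ℂ)) z ∂ν)) := by
    apply tendsto_integral_of_dominated_convergence (fun _ => (1 : ℝ))
    · intro N
      apply Measurable.aestronglyMeasurable
      apply Continuous.measurable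
      fun_prop
    · exact integrable_const _
    · intro N
      refine Eventually.of_forall (fun z => ?_)
      apply geom_bound
      rw [norm_mul, RCLike.norm_conj, hz0, norm_spec U hU z, one_mul]
    · refine Eventually.of_forall (fun z => ?_)
      by_cases h : z = z₀
      · subst h
        simp only [Set.mem_singleton_iff, Set.indicator_of_mem, hconj]
        exact geom_one
      · rw [Set.indicator_of_notMem (by simpa using h)]
        apply geom_zero
        · rw [norm_mul, RCLike.norm_conj, hz0, norm_spec U hU z, one_mul]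
        · intro h6
          apply h
          apply Subtype.ext
          calc (z : ℂ) = (conj (z₀ : ℂ) * z₀) * z := by rw [hconj, one_mul]
            _ = z₀ * (conj (z₀ : ℂ) * z) := by ring
            _ = z₀ := by rw [h6, mul_one]
  have h6 : ∀ N : ℕ, ∫ z : spectrum ℂ U,
      (∑ n ∈ Finset.range N, (conj (z₀ : ℂ) * z) ^ n) / (N : ℂ) ∂ν =
      (∑ n ∈ Finset.range N, inner ℂ ξ ((V ^ n) ξ)) / (N : ℂ) := by
    intro N
    have hcpt : CompactSpace (spectrum ℂ U) :=
      isCompact_iff_compactSpace.mp (spectrum.isCompact U)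
    rw [integral_div, integral_finsetSum]
    · congr 1
      apply Finset.sum_congr rfl
      intro n _
      have : ∀ z : spectrum ℂ U, (conj (z₀ : ℂ) * z) ^ n = conj (z₀ : ℂ) ^ n * (z : ℂ) ^ n :=
        fun z => mul_pow _ _ _
      simp_rw [this]
      rw [integral_const_mul, hν, hVdef, smul_pow, smul_apply, inner_smul_right]
    · intro n _
      apply Continuous.integrable_of_hasCompactSupport
      · fun_prop
      · exact HasCompactSupport.of_compactSpace _
  simp_rw [h6] at h5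
  have h7 := tendsto_nhds_unique h5 h1
  rw [integral_indicator (measurableSet_singleton _), integral_const] at h7
  simp only [MeasurableSet.univ, Measure.real, Measure.restrict_apply, Set.univ_inter,
    Complex.real_smul, mul_one] at h7
  have h8 : (ν {z₀}).toReal = 0 := by exact_mod_cast h7
  rcases (ENNReal.toReal_eq_zero_iff _).1 h8 with h9 | h9
  · exact h9
  · exact absurd h9 (measure_ne_top _ _)

theorem wiener (U : H →L[ℂ] H) (hU : U ∈ unitary (H →L[ℂ] H)) (ξ : H)
    (hξ : ∀ (z : ℂ) (η : H), U η = z • η → inner ℂ ξ η = 0) :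
    Tendsto (fun N : ℕ => (∑ n ∈ Finset.range N, ‖inner ℂ ξ ((U ^ n) ξ)‖ ^ 2) / (N : ℝ))
      atTop (𝓝 0) := by
  have hUn : IsStarNormal U := ⟨by
    rw [commute_iff_eq, (Unitary.mem_iff.1 hU).1, (Unitary.mem_iff.1 hU).2]⟩
  obtain ⟨ν, hνf, hν⟩ := exists_measure U hUn ξ
  have hcpt : CompactSpace (spectrum ℂ U) :=
    isCompact_iff_compactSpace.mp (spectrum.isCompact U)
  have hmom : ∀ n : ℕ, ∫ z, (z : ℂ) ^ n ∂ν = inner ℂ ξ ((U ^ n) ξ) := by
    intro n
    have h1 := hν ((ContinuousMap.restrict (spectrum ℂ U) (ContinuousMap.id ℂ)) ^ n)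
    rw [map_pow, cfcHom_id] at h1
    rw [← h1]
    rfl
  have hatom := atomless U hU ξ hξ ν hmom
  have h5 : Tendsto (fun N : ℕ => ∫ p : spectrum ℂ U × spectrum ℂ U,
      (∑ n ∈ Finset.range N, ((p.1 : ℂ) * conj (p.2 : ℂ)) ^ n) / (N : ℂ) ∂(ν.prod ν)) atTop
      (𝓝 (∫ p : spectrum ℂ U × spectrum ℂ U,
        Set.indicator (Set.diagonal (spectrum ℂ U)) (fun _ => (1 : ℂ)) p ∂(ν.prod ν))) := by
    apply tendsto_integral_of_dominated_convergence (fun _ => (1 : ℝ))
    · intro N
      apply Measurable.aestronglyMeasurable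
      apply Continuous.measurable
      fun_prop
    · exact integrable_const _
    · intro N
      refine Eventually.of_forall (fun p => ?_)
      apply geom_bound
      rw [norm_mul, RCLike.norm_conj, norm_spec U hU, norm_spec U hU, one_mul]
    · refine Eventually.of_forall (fun p => ?_)
      by_cases h : p.1 = p.2
      · rw [Set.indicator_of_mem (by simpa using h), h]
        have : (p.2 : ℂ) * conj (p.2 : ℂ) = 1 := by
          rw [Complex.mul_conj, Complex.normSq_eq_norm_sq, norm_spec U hU]; norm_num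
        rw [this]
        exact geom_one
      · rw [Set.indicator_of_notMem (by simpa using h)]
        apply geom_zero
        · rw [norm_mul, RCLike.norm_conj, norm_spec U hU, norm_spec U hU, one_mul]
        · intro h6
          apply h
          apply Subtype.ext
          have h7 : conj (p.2 : ℂ) * p.2 = 1 := by
            rw [mul_comm, Complex.mul_conj, Complex.normSq_eq_norm_sq, norm_spec U hU]; norm_num
          calc (p.1 : ℂ) = p.1 * (conj (p.2 : ℂ) * p.2) := by rw [h7, mul_one]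
            _ = (p.1 * conj (p.2 : ℂ)) * p.2 := by ring
            _ = p.2 := by rw [h6, one_mul]
  have hdiag : ∫ p : spectrum ℂ U × spectrum ℂ U,
        Set.indicator (Set.diagonal (spectrum ℂ U)) (fun _ => (1 : ℂ)) p ∂(ν.prod ν) = 0 := by
    have h8 : (ν.prod ν) (Set.diagonal (spectrum ℂ U)) = 0 := by
      rw [Measure.prod_apply measurableSet_diagonal]
      have : ∀ x : spectrum ℂ U, ν (Prod.mk x ⁻¹' Set.diagonal (spectrum ℂ U)) = 0 := by
        intro x
        have : Prod.mk x ⁻¹' Set.diagonal (spectrum ℂ U) = {x} := by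
          ext y; simp [eq_comm]
        rw [this]; exact hatom x
      simp [this]
    rw [integral_indicator measurableSet_diagonal, Measure.restrict_eq_zero.2 h8]
    simp
  rw [hdiag] at h5
  have h6 : ∀ N : ℕ, ∫ p : spectrum ℂ U × spectrum ℂ U,
      (∑ n ∈ Finset.range N, ((p.1 : ℂ) * conj (p.2 : ℂ)) ^ n) / (N : ℂ) ∂(ν.prod ν) =
      (((∑ n ∈ Finset.range N, ‖inner ℂ ξ ((U ^ n) ξ)‖ ^ 2) / (N : ℝ) : ℝ) : ℂ) := by
    intro N
    rw [integral_div, integral_finsetSum]
    · push_cast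
      congr 1
      apply Finset.sum_congr rfl
      intro n _
      have : ∀ p : spectrum ℂ U × spectrum ℂ U, ((p.1 : ℂ) * conj (p.2 : ℂ)) ^ n =
        (p.1 : ℂ) ^ n * conj ((p.2 : ℂ) ^ n) := fun p => by rw [mul_pow, map_pow]
      simp_rw [this]
      rw [integral_prod_mul (fun x : spectrum ℂ U => (x : ℂ) ^ n)
        (fun x : spectrum ℂ U => conj ((x : ℂ) ^ n)), integral_conj, hmom, Complex.mul_conj,
        Complex.normSq_eq_norm_sq]
      push_cast
      rfl
    · intro n _
      apply Continuous.integrable_of_hasCompactSupport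
      · fun_prop
      · exact HasCompactSupport.of_compactSpace _
  simp_rw [h6] at h5
  rw [← Complex.ofReal_zero] at h5
  exact Filter.tendsto_ofReal_iff.1 h5

end Pool.Agent.Helper40.Wiener
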