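import Mathlib
open Set Filter Topology Real Polynomial
open scoped FourierTransform InnerProductSpace

namespace Pool.Agent.Helper40.Weyl

section Shift

variable {H : Type*} [NormedAddCommGroup H]

theorem sum_shift_le (x : ℕ → H) (hx : ∀ n, ‖x n‖ ≤ 1) (k N : ℕ) :
    ‖∑ n ∈ Finset.Icc 1 N, x (n + k) - ∑ n ∈ Finset.Icc 1 N, x n‖ ≤ 2 * k := by
  induction k with
  | zero => simp
  | succ k ih =>
    have h1 : ∑ n ∈ Finset.Icc 1 N, x (n + (k + 1)) - ∑ n ∈ Finset.Icc 1 N, x (n + k) =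
        x (N + 1 + k) - x (1 + k) := by
      clear ih
      induction N with
      | zero => simp
      | succ N ih =>
        rw [Finset.sum_Icc_succ_top (by omega), Finset.sum_Icc_succ_top (by omega)]
        have : ∀ a b c d e f : H, a - b = e - f → (a + c) - (b + d) = (e - f) + (c - d) := by
          intro a b c d e f h; rw [← h]; abel
        rw [this _ _ _ _ _ _ ih]
        rw [show N + 1 + (k + 1) = N + 1 + 1 + k by ring]
        abel
    have h2 : ∑ n ∈ Finset.Icc 1 N, x (n + (k + 1)) - ∑ n ∈ Finset.Icc 1 N, x n =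
        (x (N + 1 + k) - x (1 + k)) +
          (∑ n ∈ Finset.Icc 1 N, x (n + k) - ∑ n ∈ Finset.Icc 1 N, x n) := by
      rw [← h1]; abel
    rw [h2]
    calc _ ≤ ‖x (N + 1 + k) - x (1 + k)‖ +
          ‖∑ n ∈ Finset.Icc 1 N, x (n + k) - ∑ n ∈ Finset.Icc 1 N, x n‖ := norm_add_le _ _
      _ ≤ (1 + 1) + 2 * k := by
          gcongr
          exact (norm_sub_le _ _).trans (add_le_add (hx _) (hx _))
      _ = _ := by push_cast; ring

end Shift

section VdC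

variable {H : Type*} [NormedAddCommGroup H] [InnerProductSpace ℂ H]

theorem norm_sq_eq_inner (v : H) : ((‖v‖ : ℝ) : ℂ) ^ 2 = ⟪v, v⟫_ℂ := by
  rw [inner_self_eq_norm_sq_to_K]
  rfl

theorem vdc_bound (x : ℕ → H) (hx : ∀ n, ‖x n‖ ≤ 1) (K N : ℕ) :
    (K : ℝ) * ‖∑ n ∈ Finset.Icc 1 N, x n‖ ≤ 2 * K * K + √N * √(N * K +
      ∑ k ∈ Finset.range K, ∑ l ∈ (Finset.range K).erase k,
        ‖∑ n ∈ Finset.Icc 1 N, ⟪x (n + k), x (n + l)⟫_ℂ‖) := by
  classical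
  have hcard : (∑ n ∈ Finset.Icc 1 N, (1 : ℝ) ^ 2) = N := by simp
  have h1 : ‖(K : ℂ) • ∑ n ∈ Finset.Icc 1 N, x n -
      ∑ n ∈ Finset.Icc 1 N, ∑ k ∈ Finset.range K, x (n + k)‖ ≤ 2 * K * K := by
    have e1 : (K : ℂ) • ∑ n ∈ Finset.Icc 1 N, x n -
      ∑ n ∈ Finset.Icc 1 N, ∑ k ∈ Finset.range K, x (n + k) =
      ∑ k ∈ Finset.range K, (∑ n ∈ Finset.Icc 1 N, x n - ∑ n ∈ Finset.Icc 1 N, x (n + k)) := by
      rw [Finset.sum_sub_distrib, Finset.sum_comm]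
      congr 1
      rw [Finset.sum_const, Finset.card_range]
      exact Nat.cast_smul_eq_nsmul ℂ K _
    rw [e1]
    calc _ ≤ ∑ k ∈ Finset.range K, ‖∑ n ∈ Finset.Icc 1 N, x n - ∑ n ∈ Finset.Icc 1 N, x (n + k)‖ :=
          norm_sum_le _ _
      _ ≤ ∑ k ∈ Finset.range K, (2 * K : ℝ) := by
          refine Finset.sum_le_sum fun k hk => ?_
          rw [norm_sub_rev]
          refine (sum_shift_le x hx k N).trans ?_
          have : (k : ℝ) ≤ K := by exact_mod_cast (Finset.mem_range.1 hk).le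
          linarith
      _ = _ := by simp; ring
  have h2 : ‖∑ n ∈ Finset.Icc 1 N, ∑ k ∈ Finset.range K, x (n + k)‖ ≤ √N * √(N * K +
      ∑ k ∈ Finset.range K, ∑ l ∈ (Finset.range K).erase k,
        ‖∑ n ∈ Finset.Icc 1 N, ⟪x (n + k), x (n + l)⟫_ℂ‖) := by
    have hsq : ∑ n ∈ Finset.Icc 1 N, ‖∑ k ∈ Finset.range K, x (n + k)‖ ^ 2 ≤ N * K +
      ∑ k ∈ Finset.range K, ∑ l ∈ (Finset.range K).erase k,
        ‖∑ n ∈ Finset.Icc 1 N, ⟪x (n + k), x (n + l)⟫_ℂ‖ := by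
      have e2 : ((∑ n ∈ Finset.Icc 1 N, ‖∑ k ∈ Finset.range K, x (n + k)‖ ^ 2 : ℝ) : ℂ) =
          ∑ k ∈ Finset.range K, ∑ l ∈ Finset.range K,
            ∑ n ∈ Finset.Icc 1 N, ⟪x (n + k), x (n + l)⟫_ℂ := by
        push_cast
        have e3 : ∀ n, ((‖∑ k ∈ Finset.range K, x (n + k)‖ : ℂ)) ^ 2 =
            ∑ k ∈ Finset.range K, ∑ l ∈ Finset.range K, ⟪x (n + k), x (n + l)⟫_ℂ := by
          intro n
          rw [norm_sq_eq_inner, sum_inner]
          exact Finset.sum_congr rfl fun k _ => by rw [inner_sum]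
        simp only [e3]
        rw [Finset.sum_comm]
        refine Finset.sum_congr rfl fun p _ => ?_
        rw [Finset.sum_comm]
      have e4 : ∑ n ∈ Finset.Icc 1 N, ‖∑ k ∈ Finset.range K, x (n + k)‖ ^ 2 =
          ‖((∑ n ∈ Finset.Icc 1 N, ‖∑ k ∈ Finset.range K, x (n + k)‖ ^ 2 : ℝ) : ℂ)‖ := by
        rw [Complex.norm_real, Real.norm_of_nonneg (Finset.sum_nonneg fun _ _ => by positivity)]
      rw [e4, e2]
      refine (norm_sum_le _ _).trans ?_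
      have h5 : ∀ k ∈ Finset.range K, ‖∑ l ∈ Finset.range K,
            ∑ n ∈ Finset.Icc 1 N, ⟪x (n + k), x (n + l)⟫_ℂ‖ ≤ N +
          ∑ l ∈ (Finset.range K).erase k, ‖∑ n ∈ Finset.Icc 1 N, ⟪x (n + k), x (n + l)⟫_ℂ‖ := by
        intro k hk
        rw [← Finset.add_sum_erase _ _ hk]
        refine (norm_add_le _ _).trans (add_le_add ?_ (norm_sum_le _ _))
        calc _ ≤ ∑ n ∈ Finset.Icc 1 N, ‖⟪x (n + k), x (n + k)⟫_ℂ‖ := norm_sum_le _ _
          _ ≤ ∑ n ∈ Finset.Icc 1 N, (1 : ℝ) := by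
              refine Finset.sum_le_sum fun n _ => ?_
              refine (norm_inner_le_norm _ _).trans ?_
              have := hx (n + k)
              nlinarith [norm_nonneg (x (n + k))]
          _ = N := by simp
      refine (Finset.sum_le_sum h5).trans ?_
      rw [Finset.sum_add_distrib]
      simp [mul_comm]
    calc _ ≤ ∑ n ∈ Finset.Icc 1 N, ‖∑ k ∈ Finset.range K, x (n + k)‖ := norm_sum_le _ _
      _ = ∑ n ∈ Finset.Icc 1 N, 1 * ‖∑ k ∈ Finset.range K, x (n + k)‖ := by simp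
      _ ≤ √(∑ n ∈ Finset.Icc 1 N, (1 : ℝ) ^ 2) *
            √(∑ n ∈ Finset.Icc 1 N, ‖∑ k ∈ Finset.range K, x (n + k)‖ ^ 2) :=
          Real.sum_mul_le_sqrt_mul_sqrt _ _ _
      _ ≤ _ := by
          rw [hcard]
          gcongr
  calc (K : ℝ) * ‖∑ n ∈ Finset.Icc 1 N, x n‖ = ‖(K : ℂ) • ∑ n ∈ Finset.Icc 1 N, x n‖ := by
        rw [norm_smul, Complex.norm_natCast]
    _ = ‖((K : ℂ) • ∑ n ∈ Finset.Icc 1 N, x n -
      ∑ n ∈ Finset.Icc 1 N, ∑ k ∈ Finset.range K, x (n + k)) +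
        ∑ n ∈ Finset.Icc 1 N, ∑ k ∈ Finset.range K, x (n + k)‖ := by
        congr 1; abel
    _ ≤ _ := norm_add_le _ _
    _ ≤ _ := add_le_add h1 h2

/-- Van der Corput's lemma. -/
theorem vdc (x : ℕ → H) (hx : ∀ n, ‖x n‖ ≤ 1)
    (hcorr : ∀ h : ℕ, 1 ≤ h → Tendsto (fun N : ℕ =>
      ‖∑ n ∈ Finset.Icc 1 N, ⟪x n, x (n + h)⟫_ℂ‖ / (N : ℝ)) atTop (𝓝 0)) :
    Tendsto (fun N : ℕ => ‖∑ n ∈ Finset.Icc 1 N, x n‖ / (N : ℝ)) atTop (𝓝 0) := by
  classical
  have hcorr1 : ∀ k l : ℕ, k < l → Tendsto (fun N : ℕ =>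
      ‖∑ n ∈ Finset.Icc 1 N, ⟪x (n + k), x (n + l)⟫_ℂ‖ / (N : ℝ)) atTop (𝓝 0) := by
    intro k l hkl
    obtain ⟨h, rfl⟩ := Nat.exists_eq_add_of_lt hkl
    have h1 := hcorr (h + 1) (by omega)
    have h2 : Tendsto (fun N : ℕ => ((2 * k : ℕ) : ℝ) / (N : ℝ)) atTop (𝓝 0) :=
      tendsto_const_div_atTop_nhds_zero_nat _
    have h3 := h1.add h2
    rw [add_zero] at h3
    refine squeeze_zero (fun _ => by positivity) (fun N => ?_) h3
    rw [← add_div]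
    gcongr
    have h4 := sum_shift_le (fun n => ⟪x n, x (n + (h + 1))⟫_ℂ) (fun n => by
      refine (norm_inner_le_norm _ _).trans ?_
      have := hx n
      have := hx (n + (h + 1))
      nlinarith [norm_nonneg (x n), norm_nonneg (x (n + (h + 1)))]) k N
    have h5 : ∀ n, n + k + (h + 1) = n + (k + h + 1) := fun n => by ring
    simp only [h5] at h4
    push_cast
    calc _ = ‖(∑ n ∈ Finset.Icc 1 N, ⟪x (n + k), x (n + (k + h + 1))⟫_ℂ -
          ∑ n ∈ Finset.Icc 1 N, ⟪x n, x (n + (h + 1))⟫_ℂ) +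
          ∑ n ∈ Finset.Icc 1 N, ⟪x n, x (n + (h + 1))⟫_ℂ‖ := by congr 1; ring
      _ ≤ _ := norm_add_le _ _
      _ ≤ _ := by linarith
  have hcorr2 : ∀ k l : ℕ, k ≠ l → Tendsto (fun N : ℕ =>
      ‖∑ n ∈ Finset.Icc 1 N, ⟪x (n + k), x (n + l)⟫_ℂ‖ / (N : ℝ)) atTop (𝓝 0) := by
    intro k l hkl
    rcases lt_or_gt_of_ne hkl with h | h
    · exact hcorr1 k l h
    · refine (hcorr1 l k h).congr fun N => ?_
      congr 1
      rw [← RCLike.norm_conj (K := ℂ), map_sum]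
      congr 1
      exact Finset.sum_congr rfl fun n _ => inner_conj_symm _ _
  rw [Metric.tendsto_atTop]
  intro ε hε
  obtain ⟨K, hK⟩ := exists_nat_gt (max 1 ((4 / ε) ^ 2))
  have hK1 : (1 : ℝ) < K := (le_max_left _ _).trans_lt hK
  have hK0 : (0 : ℝ) < K := by linarith
  have hK2 : (4 / ε) ^ 2 < (K : ℝ) := (le_max_right _ _).trans_lt hK
  have hsqrtK : 4 / ε < √K := by
    rw [Real.lt_sqrt (by positivity)]; exact hK2
  have hoff : Tendsto (fun N : ℕ => (∑ k ∈ Finset.range K, ∑ l ∈ (Finset.range K).erase k,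
        ‖∑ n ∈ Finset.Icc 1 N, ⟪x (n + k), x (n + l)⟫_ℂ‖) / (N : ℝ)) atTop (𝓝 0) := by
    have h1 : Tendsto (fun N : ℕ => ∑ k ∈ Finset.range K, ∑ l ∈ (Finset.range K).erase k,
        (‖∑ n ∈ Finset.Icc 1 N, ⟪x (n + k), x (n + l)⟫_ℂ‖ / (N : ℝ))) atTop
        (𝓝 (∑ k ∈ Finset.range K, ∑ l ∈ (Finset.range K).erase k, 0)) := by
      refine tendsto_finsetSum _ fun p hp => tendsto_finsetSum _ fun q hq => ?_
      exact hcorr2 p q (Finset.ne_of_mem_erase hq).symm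
    simp only [Finset.sum_const_zero] at h1
    refine h1.congr fun N => ?_
    rw [Finset.sum_div]
    exact Finset.sum_congr rfl fun p _ => by rw [Finset.sum_div]
  have hconst : Tendsto (fun N : ℕ => (2 * (K : ℝ) * K) / (N : ℝ)) atTop (𝓝 0) :=
    tendsto_const_div_atTop_nhds_zero_nat _
  obtain ⟨N1, hN1⟩ := (hoff.eventually (gt_mem_nhds one_pos)).exists_forall_of_atTop
  obtain ⟨N2, hN2⟩ := (hconst.eventually (gt_mem_nhds one_pos)).exists_forall_of_atTop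
  refine ⟨max 1 (max N1 N2), fun N hN => ?_⟩
  have hN0 : 1 ≤ N := (le_max_left _ _).trans hN
  have hNpos : (0 : ℝ) < N := by exact_mod_cast hN0
  have h1 := hN1 N ((le_max_left _ _).trans ((le_max_right _ _).trans hN))
  have h2 := hN2 N ((le_max_right _ _).trans ((le_max_right _ _).trans hN))
  rw [div_lt_one hNpos] at h1 h2
  have h3 := vdc_bound x hx K N
  have h4 : √N * √(N * K + ∑ k ∈ Finset.range K, ∑ l ∈ (Finset.range K).erase k,
        ‖∑ n ∈ Finset.Icc 1 N, ⟪x (n + k), x (n + l)⟫_ℂ‖) ≤ N * √(4 * K) := by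
    calc _ ≤ √N * √(N * (4 * K)) := by
          gcongr
          nlinarith
      _ = √N * (√N * √(4 * K)) := by rw [Real.sqrt_mul hNpos.le]
      _ = (√N * √N) * √(4 * K) := by ring
      _ = _ := by rw [Real.mul_self_sqrt hNpos.le]
  have h6 : √(4 * K) = 2 * √(K : ℝ) := by
    rw [Real.sqrt_mul (by norm_num)]
    have : √(4 : ℝ) = 2 := by
      rw [show (4 : ℝ) = 2 ^ 2 by norm_num, Real.sqrt_sq (by norm_num)]
    rw [this]
  rw [h6] at h4
  have hsq : √(K : ℝ) * √(K : ℝ) = K := Real.mul_self_sqrt hK0.le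
  have hsL : 0 < √(K : ℝ) := Real.sqrt_pos.2 hK0
  have hsL1 : 1 < √(K : ℝ) := by
    rw [Real.lt_sqrt (by norm_num)]; simpa using hK1
  have h7 : (K : ℝ) * ‖∑ n ∈ Finset.Icc 1 N, x n‖ ≤ N * (4 * √(K : ℝ)) := by
    have : (2 : ℝ) * K * K ≤ N * (2 * √(K : ℝ)) := by nlinarith
    calc _ ≤ _ := h3
      _ ≤ N * (2 * √(K : ℝ)) + N * (2 * √(K : ℝ)) := add_le_add this h4
      _ = _ := by ring
  rw [dist_zero_right, Real.norm_of_nonneg (by positivity), div_lt_iff₀ hNpos]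
  have h8 : √(K : ℝ) * ‖∑ n ∈ Finset.Icc 1 N, x n‖ ≤ 4 * N := by
    have h9 : √(K : ℝ) * (√(K : ℝ) * ‖∑ n ∈ Finset.Icc 1 N, x n‖) ≤ √(K : ℝ) * (4 * N) := by
      rw [← mul_assoc, hsq]
      calc _ ≤ _ := h7
        _ = _ := by ring
    exact le_of_mul_le_mul_left h9 hsL
  have h9 : 4 < √(K : ℝ) * ε := by
    rw [div_lt_iff₀ hε] at hsqrtK
    exact hsqrtK
  by_contra hcon
  push Not at hcon
  have : √(K : ℝ) * (ε * N) ≤ 4 * N := (mul_le_mul_of_nonneg_left hcon hsL.le).trans h8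
  nlinarith

end VdC

end Pool.Agent.Helper40.Weyl
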