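import Mathlib
import Pool.Agent.Helper40.VdC
import Pool.Agent.Helper40.Katai
open Set Filter Topology Real Polynomial
open scoped FourierTransform InnerProductSpace ArithmeticFunction.Moebius

namespace Pool.Agent.Helper40.Weyl

/-- the subfield of rational numbers -/
noncomputable def KQ : Subfield ℝ := (Rat.castHom ℝ).fieldRange

theorem mem_KQ_iff (x : ℝ) : x ∈ KQ ↔ ¬ Irrational x := by
  rw [Irrational, not_not]
  rfl

theorem ratCast_mem_KQ (q : ℚ) : (q : ℝ) ∈ KQ := ⟨q, rfl⟩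

theorem natCast_mem_KQ (n : ℕ) : (n : ℝ) ∈ KQ := ⟨n, by simp⟩

theorem taylor_coeff_sum (P : ℝ[X]) (D : ℕ) (hD : P.natDegree ≤ D) (r : ℝ) (n : ℕ) :
    (taylor r P).coeff n = ∑ i ∈ Finset.range (D + 1), ((i + n).choose n : ℝ) * P.coeff (i + n) * r ^ i := by
  rw [taylor_coeff]
  have h1 : (hasseDeriv n P).natDegree < D + 1 := by
    have := natDegree_hasseDeriv_le P n
    omega
  rw [eval_eq_sum_range' h1]
  refine Finset.sum_congr rfl fun i _ => ?_
  rw [hasseDeriv_coeff]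

theorem coeff_taylor_sub (P : ℝ[X]) (h : ℕ) (k : ℕ) (hk : 2 ≤ k)
    (hgt : ∀ j, k < j → P.coeff j ∈ KQ) :
    ∃ r ∈ KQ, (taylor (h : ℝ) P - P).coeff (k - 1) = (k * h : ℕ) * P.coeff k + r := by
  set D := P.natDegree + 2 with hD
  have h1 := taylor_coeff_sum P D (by omega) (h : ℝ) (k - 1)
  rw [coeff_sub, h1]
  have hD3 : D + 1 = (P.natDegree + 1) + 1 + 1 := by omega
  rw [hD3, Finset.sum_range_succ', Finset.sum_range_succ']
  refine ⟨∑ i ∈ Finset.range (P.natDegree + 1), ((i + 1 + 1 + (k - 1)).choose (k - 1) : ℝ) *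
    P.coeff (i + 1 + 1 + (k - 1)) * (h : ℝ) ^ (i + 1 + 1), ?_, ?_⟩
  · refine sum_mem fun i _ => ?_
    refine mul_mem (mul_mem (natCast_mem_KQ _) (hgt _ (by omega))) (pow_mem (natCast_mem_KQ _) _)
  · have e1 : (0 + 1 + (k - 1)).choose (k - 1) = k := by
      have : 0 + 1 + (k - 1) = (k - 1) + 1 := by ring
      rw [this, Nat.choose_succ_self_right]; omega
    have e2 : 0 + 1 + (k - 1) = k := by omega
    rw [e1, e2]
    simp only [zero_add, Nat.choose_self, Nat.cast_one, one_mul, pow_zero, mul_one, pow_one]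
    push_cast
    ring

theorem natDegree_taylor_sub (P : ℝ[X]) (h : ℝ) (d : ℕ) (hd : P.natDegree ≤ d + 1) :
    (taylor h P - P).natDegree ≤ d := by
  rw [natDegree_le_iff_coeff_eq_zero]
  intro n hn
  rw [coeff_sub, taylor_coeff_sum P P.natDegree le_rfl h n, Finset.sum_range_succ']
  have h1 : ∑ i ∈ Finset.range P.natDegree, ((i + 1 + n).choose n : ℝ) * P.coeff (i + 1 + n) *
      h ^ (i + 1) = 0 := by
    refine Finset.sum_eq_zero fun i _ => ?_
    rw [coeff_eq_zero_of_natDegree_lt (by omega)]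
    ring
  rw [h1]
  simp

theorem e_sub (x y : ℝ) : (𝐞 (x - y) : ℂ) = 𝐞 x * (starRingEnd ℂ) (𝐞 y : ℂ) := by
  rw [sub_eq_add_neg, AddChar.map_add_eq_mul, AddChar.map_neg_eq_inv]
  push_cast
  rw [← Circle.coe_inv_eq_conj]
  simp

theorem e_int (z : ℤ) : (𝐞 (z : ℝ) : ℂ) = 1 := by
  rw [Real.fourierChar_apply]
  rw [Complex.exp_eq_one_iff]
  exact ⟨z, by push_cast; ring⟩

theorem e_add_int (x : ℝ) (z : ℤ) : (𝐞 (x + z) : ℂ) = 𝐞 x := by
  rw [AddChar.map_add_eq_mul]
  push_cast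
  rw [e_int, mul_one]

theorem e_ne_one (x : ℝ) (hx : Irrational x) : (𝐞 x : ℂ) ≠ 1 := by
  intro h
  rw [Real.fourierChar_apply, Complex.exp_eq_one_iff] at h
  obtain ⟨n, hn⟩ := h
  have h1 : (x : ℂ) = n := by
    have h2 : (2 * π * Complex.I : ℂ) ≠ 0 := by
      simp [Real.pi_ne_zero]
    have h3 : (x : ℂ) * (2 * π * Complex.I) = n * (2 * π * Complex.I) := by
      rw [← hn]; push_cast; ring
    exact mul_right_cancel₀ h2 h3
  have h2 : x = n := by exact_mod_cast h1
  exact hx ⟨n, by rw [h2]; simp⟩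

/-- Common denominator for the rational coefficients from index `k₀` on. -/
theorem exists_denom (P : ℝ[X]) (k₀ : ℕ) (h : ∀ k, k₀ ≤ k → P.coeff k ∈ KQ) :
    ∃ M : ℕ, 0 < M ∧ ∀ k, k₀ ≤ k → ∃ a : ℤ, (M : ℝ) * P.coeff k = a := by
  classical
  have h1 : ∀ k, ∃ q : ℚ, k₀ ≤ k → (q : ℝ) = P.coeff k := by
    intro k
    by_cases hk : k₀ ≤ k
    · obtain ⟨q, hq⟩ := h k hk
      exact ⟨q, fun _ => hq⟩
    · exact ⟨0, fun h => absurd h hk⟩
  choose q hq using h1
  refine ⟨∏ k ∈ Finset.range (P.natDegree + 1), (q k).den, Finset.prod_pos fun k _ => (q k).pos, ?_⟩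
  intro k hk
  by_cases hkd : k < P.natDegree + 1
  · obtain ⟨c, hc⟩ := Finset.dvd_prod_of_mem (fun k => (q k).den) (Finset.mem_range.2 hkd)
    refine ⟨c * (q k).num, ?_⟩
    rw [hc, ← hq k hk]
    push_cast
    have h2 : ((q k).den : ℝ) * (q k : ℝ) = (q k).num := by
      exact_mod_cast Rat.den_mul_eq_num (q k)
    calc ((q k).den : ℝ) * c * (q k : ℝ) = c * (((q k).den : ℝ) * (q k : ℝ)) := by ring
      _ = _ := by rw [h2]
  · refine ⟨0, ?_⟩
    rw [coeff_eq_zero_of_natDegree_lt (by omega)]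
    simp

theorem eval_shift (P : ℝ[X]) (M : ℕ) (hM : ∀ k, 2 ≤ k → ∃ a : ℤ, (M : ℝ) * P.coeff k = a)
    (n : ℕ) : ∃ z : ℤ, P.eval ((n + M : ℕ) : ℝ) = (P.eval (n : ℝ) + M * P.coeff 1) + z := by
  classical
  have hterm : ∀ k, ∃ z : ℤ, P.coeff k * ((n + M : ℕ) : ℝ) ^ k =
      P.coeff k * (n : ℝ) ^ k + (if k = 1 then M * P.coeff 1 else 0) + z := by
    intro k
    rcases Nat.lt_or_ge k 2 with hk | hk
    · interval_cases k
      · exact ⟨0, by simp⟩
      · refine ⟨0, ?_⟩
        simp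
        ring
    · obtain ⟨a, ha⟩ := hM k hk
      have h1 : (M : ℤ) ∣ ((n + M : ℕ) : ℤ) ^ k - (n : ℤ) ^ k := by
        have h2 := sub_dvd_pow_sub_pow ((n + M : ℕ) : ℤ) (n : ℤ) k
        have h3 : ((n + M : ℕ) : ℤ) - (n : ℤ) = M := by push_cast; ring
        rwa [h3] at h2
      obtain ⟨t, ht⟩ := h1
      refine ⟨a * t, ?_⟩
      rw [if_neg (by omega)]
      have h4 : ((n + M : ℕ) : ℝ) ^ k - (n : ℝ) ^ k = M * t := by exact_mod_cast ht
      have h5 : ((n + M : ℕ) : ℝ) ^ k = (n : ℝ) ^ k + M * t := by linarith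
      rw [h5]
      push_cast
      rw [← ha]
      ring
  choose z hz using hterm
  refine ⟨∑ k ∈ Finset.range (P.natDegree + 2), z k, ?_⟩
  rw [eval_eq_sum_range' (n := P.natDegree + 2) (by omega),
    eval_eq_sum_range' (n := P.natDegree + 2) (by omega)]
  rw [Finset.sum_congr rfl fun k _ => hz k, Finset.sum_add_distrib, Finset.sum_add_distrib]
  rw [Finset.sum_ite_eq' (Finset.range (P.natDegree + 2)) 1, if_pos (by simp)]
  push_cast
  ring

/-- Weyl's theorem. -/
theorem weyl (d : ℕ) : ∀ P : ℝ[X], P.natDegree ≤ d → (∃ k, 1 ≤ k ∧ Irrational (P.coeff k)) →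
    Tendsto (fun N : ℕ => ‖∑ n ∈ Finset.Icc 1 N, (𝐞 (P.eval (n : ℝ)) : ℂ)‖ / (N : ℝ)) atTop
      (𝓝 0) := by
  classical
  induction d with
  | zero =>
    intro P hP ⟨k, hk1, hk2⟩
    rw [coeff_eq_zero_of_natDegree_lt (by omega)] at hk2
    exact absurd hk2 (by simp)
  | succ d ih =>
    intro P hP ⟨k0, hk01, hk02⟩
    by_cases hbig : ∃ k, 2 ≤ k ∧ Irrational (P.coeff k)
    · -- van der Corput
      obtain ⟨k1, hk11, hk12⟩ := hbig
      set k := Nat.findGreatest (fun k => Irrational (P.coeff k)) P.natDegree with hk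
      have hk1d : k1 ≤ P.natDegree := by
        by_contra hcon
        rw [coeff_eq_zero_of_natDegree_lt (by omega)] at hk12
        exact absurd hk12 (by simp)
      have hkk : k1 ≤ k := Nat.le_findGreatest hk1d hk12
      have hk2 : 2 ≤ k := hk11.trans hkk
      have hkirr : Irrational (P.coeff k) :=
        Nat.findGreatest_spec (P := fun k => Irrational (P.coeff k)) hk1d hk12
      have hgt : ∀ j, k < j → P.coeff j ∈ KQ := by
        intro j hj
        rw [mem_KQ_iff]
        intro hirr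
        by_cases hjd : j ≤ P.natDegree
        · exact Nat.findGreatest_is_greatest hj hjd hirr
        · rw [coeff_eq_zero_of_natDegree_lt (by omega)] at hirr
          exact absurd hirr (by simp)
      refine vdc (fun n : ℕ => (𝐞 (P.eval (n : ℝ)) : ℂ)) (fun n => (Circle.norm_coe _).le) fun h hh => ?_
      have hQ := ih (taylor (h : ℝ) P - P) (natDegree_taylor_sub P h d hP) (by
        obtain ⟨r, hr, hcoef⟩ := coeff_taylor_sub P h k hk2 hgt
        refine ⟨k - 1, by omega, ?_⟩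
        rw [hcoef]
        by_contra hcon
        rw [← mem_KQ_iff] at hcon
        have h1 : ((k * h : ℕ) : ℝ) * P.coeff k ∈ KQ := by
          have := sub_mem hcon hr
          simpa using this
        have hne : ((k * h : ℕ) : ℝ) ≠ 0 := by
          have : k * h ≠ 0 := Nat.mul_ne_zero (by omega) (by omega)
          exact_mod_cast this
        have h2 : P.coeff k ∈ KQ := by
          have := mul_mem (inv_mem (natCast_mem_KQ (k * h))) h1
          rwa [inv_mul_cancel_left₀ hne] at this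
        rw [mem_KQ_iff] at h2
        exact h2 hkirr)
      refine hQ.congr fun N => ?_
      congr 2
      refine Finset.sum_congr rfl fun n _ => ?_
      rw [eval_sub, taylor_eval, e_sub, RCLike.inner_apply]
      push_cast
      rfl
    · push Not at hbig
      have hrat : ∀ k, 2 ≤ k → P.coeff k ∈ KQ := fun k hk => (mem_KQ_iff _).2 (hbig k hk)
      have h1irr : Irrational (P.coeff 1) := by
        rcases Nat.lt_or_ge k0 2 with h | h
        · have : k0 = 1 := by omega
          rwa [this] at hk02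
        · exact absurd hk02 (hbig k0 h)
      obtain ⟨M, hM0, hM⟩ := exists_denom P 2 hrat
      set c : ℂ := (𝐞 ((M : ℝ) * P.coeff 1) : ℂ) with hc
      have hc1 : c ≠ 1 := by
        refine e_ne_one _ ?_
        have := h1irr.natCast_mul hM0.ne'
        exact this
      have hshift : ∀ n : ℕ, (𝐞 (P.eval ((n + M : ℕ) : ℝ)) : ℂ) = c * 𝐞 (P.eval (n : ℝ)) := by
        intro n
        obtain ⟨z, hz⟩ := eval_shift P M hM n
        rw [hz, e_add_int, AddChar.map_add_eq_mul]
        push_cast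
        rw [hc, mul_comm]
      have hbound : ∀ N : ℕ, ‖∑ n ∈ Finset.Icc 1 N, (𝐞 (P.eval (n : ℝ)) : ℂ)‖ ≤
          2 * M / ‖c - 1‖ := by
        intro N
        have h2 := sum_shift_le (fun n : ℕ => (𝐞 (P.eval (n : ℝ)) : ℂ)) (fun n => (Circle.norm_coe _).le) M N
        simp only [hshift] at h2
        rw [← Finset.mul_sum] at h2
        have h3 : c * ∑ n ∈ Finset.Icc 1 N, (𝐞 (P.eval (n : ℝ)) : ℂ) -
            ∑ n ∈ Finset.Icc 1 N, (𝐞 (P.eval (n : ℝ)) : ℂ) =
            (c - 1) * ∑ n ∈ Finset.Icc 1 N, (𝐞 (P.eval (n : ℝ)) : ℂ) := by ring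
        rw [h3, norm_mul] at h2
        have h4 : 0 < ‖c - 1‖ := norm_pos_iff.2 (sub_ne_zero.2 hc1)
        rw [le_div_iff₀ h4, mul_comm]
        exact h2
      refine squeeze_zero (fun _ => by positivity) (fun N => ?_)
        (tendsto_const_div_atTop_nhds_zero_nat (2 * M / ‖c - 1‖))
      gcongr
      exact hbound N

/-- The Moebius function is orthogonal to all polynomial phases. -/
theorem moebius_poly (P : ℝ[X]) :
    Tendsto (fun N : ℕ => (∑ n ∈ Finset.Icc 1 N, (μ n : ℂ) * (𝐞 (P.eval (n : ℝ)) : ℂ)) / (N : ℂ))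
      atTop (𝓝 0) := by
  classical
  by_cases hirr : ∃ k, 1 ≤ k ∧ Irrational (P.coeff k)
  · refine Katai.katai _ (fun n => (Circle.norm_coe _).le) fun p q hp hq hpq => ?_
    obtain ⟨k, hk1, hk2⟩ := hirr
    set Q : ℝ[X] := P.comp (C (p : ℝ) * X) - P.comp (C (q : ℝ) * X) with hQ
    have hcoef : Q.coeff k = P.coeff k * ((p : ℝ) ^ k - (q : ℝ) ^ k) := by
      rw [hQ, coeff_sub, comp_C_mul_X_coeff, comp_C_mul_X_coeff]
      ring
    have hne : ((p : ℝ) ^ k - (q : ℝ) ^ k) ≠ 0 := by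
      rw [sub_ne_zero]
      intro h
      have h1 : (p : ℝ) = q := by
        exact (pow_left_inj₀ (Nat.cast_nonneg p) (Nat.cast_nonneg q) (by omega)).1 h
      exact hpq (by exact_mod_cast h1)
    have hw := weyl Q.natDegree Q le_rfl ⟨k, hk1, by
      rw [hcoef]
      by_contra hcon
      rw [← mem_KQ_iff] at hcon
      have h1 : ((p : ℝ) ^ k - (q : ℝ) ^ k) ∈ KQ :=
        sub_mem (pow_mem (natCast_mem_KQ _) _) (pow_mem (natCast_mem_KQ _) _)
      have h2 := mul_mem hcon (inv_mem h1)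
      rw [mul_inv_cancel_right₀ hne, mem_KQ_iff] at h2
      exact h2 hk2⟩
    rw [tendsto_zero_iff_norm_tendsto_zero]
    refine hw.congr fun N => ?_
    rw [norm_div, Complex.norm_natCast]
    congr 2
    refine Finset.sum_congr rfl fun n _ => ?_
    rw [hQ, eval_sub, eval_comp, eval_comp, e_sub]
    simp
  · push Not at hirr
    have hrat : ∀ k, 1 ≤ k → P.coeff k ∈ KQ := fun k hk => (mem_KQ_iff _).2 (hirr k hk)
    obtain ⟨M, hM0, hM⟩ := exists_denom P 1 hrat
    have : NeZero M := ⟨hM0.ne'⟩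
    have hper : Function.Periodic (fun n : ℕ => (𝐞 (P.eval (n : ℝ)) : ℂ)) M := by
      intro n
      obtain ⟨z, hz⟩ := eval_shift P M (fun k hk => hM k (by omega)) n
      obtain ⟨a, ha⟩ := hM 1 le_rfl
      simp only
      rw [hz, ha, e_add_int, e_add_int]
    have h1 := Tauber.moebius_periodic M (fun a => (𝐞 (P.eval (a.val : ℝ)) : ℂ))
    refine h1.congr fun N => ?_
    congr 1
    refine Finset.sum_congr rfl fun n _ => ?_
    rw [mul_comm]
    congr 1
    rw [ZMod.val_natCast]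
    exact hper.map_mod_nat n

/-- Davenport: linear phases. -/
theorem moebius_linear (z : ℂ) (hz : ‖z‖ = 1) :
    Tendsto (fun N : ℕ => (∑ n ∈ Finset.Icc 1 N, (μ n : ℂ) * z ^ n) / (N : ℂ)) atTop (𝓝 0) := by
  obtain ⟨θ, hθ⟩ : ∃ θ : ℝ, z = Complex.exp (θ * Complex.I) := by
    refine ⟨Complex.arg z, ?_⟩
    have := Complex.norm_mul_exp_arg_mul_I z
    rw [hz] at this
    simpa using this.symm
  have h1 := moebius_poly (C (θ / (2 * π)) * X)
  refine h1.congr fun N => ?_
  congr 1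
  refine Finset.sum_congr rfl fun n _ => ?_
  congr 1
  rw [Real.fourierChar_apply, hθ, ← Complex.exp_nat_mul]
  congr 1
  simp only [eval_mul, eval_C, eval_X]
  push_cast
  have : (π : ℂ) ≠ 0 := by exact_mod_cast Real.pi_ne_zero
  field_simp

end Pool.Agent.Helper40.Weyl
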