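import Mathlib
import Pool.Agent.Helper40.Wiener
import Pool.Agent.Helper40.VdC
import Pool.Agent.Helper40.MoebiusPoly

open Filter Topology MeasureTheory Polynomial
open scoped InnerProductSpace ComplexConjugate FourierTransform

set_option linter.unusedSectionVars false

namespace Pool.Agent.Helper40.Wiener

variable {H : Type*} [NormedAddCommGroup H] [InnerProductSpace ℂ H] [CompleteSpace H]

/-- `ξ` is a weakly mixing vector of `U` -/
def Wm (U : H →L[ℂ] H) (ξ : H) : Prop :=
  Tendsto (fun N : ℕ => (∑ n ∈ Finset.range N, ‖inner ℂ ξ ((U ^ n) ξ)‖) / (N : ℝ)) atTop (𝓝 0)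

theorem wm_of_cts (U : H →L[ℂ] H) (hU : U ∈ unitary (H →L[ℂ] H)) (ξ : H)
    (hξ : ∀ (z : ℂ) (η : H), U η = z • η → inner ℂ ξ η = 0) : Wm U ξ := by
  have h1 := wiener U hU ξ hξ
  have h2 : Tendsto (fun N : ℕ =>
      √((∑ n ∈ Finset.range N, ‖inner ℂ ξ ((U ^ n) ξ)‖ ^ 2) / (N : ℝ))) atTop (𝓝 0) := by
    have := (Real.continuous_sqrt.tendsto 0).comp h1
    rwa [Real.sqrt_zero] at this
  refine squeeze_zero (fun N => by positivity) (fun N => ?_) h2
  rcases Nat.eq_zero_or_pos N with h0 | h0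
  · subst h0; simp
  have hN : (0 : ℝ) < N := by exact_mod_cast h0
  apply Real.le_sqrt_of_sq_le
  rw [div_pow, div_le_div_iff₀ (by positivity) hN]
  have h3 := sq_sum_le_card_mul_sum_sq (s := Finset.range N)
    (f := fun n => ‖inner ℂ ξ ((U ^ n) ξ)‖)
  rw [Finset.card_range] at h3
  nlinarith [h3]

theorem wm_pow (U : H →L[ℂ] H) (ξ : H) (h : Wm U ξ) (k : ℕ) (hk : 1 ≤ k) : Wm (U ^ k) ξ := by
  unfold Wm at h ⊢
  have h1 : Tendsto (fun N : ℕ => k * N) atTop atTop :=
    tendsto_id.const_mul_atTop' (by omega)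
  have h2 := (h.comp h1).const_mul (k : ℝ)
  rw [mul_zero] at h2
  refine squeeze_zero (fun N => by positivity) (fun N => ?_) h2
  simp only [Function.comp_apply]
  have hk' : (0 : ℝ) < k := by exact_mod_cast hk
  rcases Nat.eq_zero_or_pos N with h0 | h0
  · subst h0; simp
  have hN : (0 : ℝ) < N := by exact_mod_cast h0
  have h3 : ∑ n ∈ Finset.range N, ‖inner ℂ ξ (((U ^ k) ^ n) ξ)‖ ≤
      ∑ n ∈ Finset.range (k * N), ‖inner ℂ ξ ((U ^ n) ξ)‖ := by
    have h4 : ∑ n ∈ Finset.range N, ‖inner ℂ ξ (((U ^ k) ^ n) ξ)‖ =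
        ∑ m ∈ (Finset.range N).image (fun n => k * n), ‖inner ℂ ξ ((U ^ m) ξ)‖ := by
      rw [Finset.sum_image]
      · apply Finset.sum_congr rfl
        intro n _
        rw [pow_mul]
      · intro a _ b _ hab
        exact Nat.eq_of_mul_eq_mul_left hk hab
    rw [h4]
    apply Finset.sum_le_sum_of_subset_of_nonneg
    · intro m hm
      simp only [Finset.mem_image, Finset.mem_range] at hm ⊢
      obtain ⟨a, ha, rfl⟩ := hm
      exact Nat.mul_lt_mul_of_pos_left ha (by omega)
    · intros; positivity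
  calc _ ≤ (∑ n ∈ Finset.range (k * N), ‖inner ℂ ξ ((U ^ n) ξ)‖) / (N : ℝ) := by gcongr
    _ = _ := by push_cast; field_simp

theorem wm_smul (U : H →L[ℂ] H) (ξ : H) (h : Wm U ξ) (c : ℂ) (hc : ‖c‖ = 1) : Wm (c • U) ξ := by
  unfold Wm at h ⊢
  refine h.congr (fun N => ?_)
  congr 1
  apply Finset.sum_congr rfl
  intro n _
  rw [_root_.smul_pow, smul_apply, inner_smul_right, norm_mul, norm_pow, hc, one_pow, one_mul]

/-- row sums of a symmetric Toeplitz-like kernel -/
theorem double_sum_le (b : ℕ → ℝ) (hb : ∀ n, 0 ≤ b n) (N : ℕ) (m : ℕ) (hm : m < N) :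
    ∑ n ∈ Finset.range N, b (if m ≤ n then n - m else m - n) ≤
      2 * ∑ k ∈ Finset.range N, b k := by
  rw [← Finset.sum_filter_add_sum_filter_not (Finset.range N) (fun n => m ≤ n), two_mul]
  apply add_le_add
  · have : ∑ n ∈ (Finset.range N).filter (fun n => m ≤ n), b (if m ≤ n then n - m else m - n) =
        ∑ k ∈ ((Finset.range N).filter (fun n => m ≤ n)).image (fun n => n - m), b k := by
      rw [Finset.sum_image]
      · apply Finset.sum_congr rfl
        intro n hn
        rw [if_pos (Finset.mem_filter.1 hn).2]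
      · intro a ha c hc hac
        simp only [Finset.coe_filter, Finset.mem_range, Set.mem_ofPred_eq] at ha hc
        simp only at hac
        omega
    rw [this]
    apply Finset.sum_le_sum_of_subset_of_nonneg
    · intro k hk
      simp only [Finset.mem_image, Finset.mem_filter, Finset.mem_range] at hk ⊢
      obtain ⟨a, ha, rfl⟩ := hk
      omega
    · intros; exact hb _
  · have : ∑ n ∈ (Finset.range N).filter (fun n => ¬ m ≤ n),
        b (if m ≤ n then n - m else m - n) =
        ∑ k ∈ ((Finset.range N).filter (fun n => ¬ m ≤ n)).image (fun n => m - n), b k := by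
      rw [Finset.sum_image]
      · apply Finset.sum_congr rfl
        intro n hn
        rw [if_neg (Finset.mem_filter.1 hn).2]
      · intro a ha c hc hac
        simp only [Finset.coe_filter, Finset.mem_range, Set.mem_ofPred_eq] at ha hc
        simp only at hac
        omega
    rw [this]
    apply Finset.sum_le_sum_of_subset_of_nonneg
    · intro k hk
      simp only [Finset.mem_image, Finset.mem_filter, Finset.mem_range] at hk ⊢
      obtain ⟨a, ha, rfl⟩ := hk
      omega
    · intros; exact hb _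

/-- almost orthogonal sums -/
theorem norm_sq_sum_le (x : ℕ → H) (c : ℕ → ℂ) (hc : ∀ n, ‖c n‖ ≤ 1) (b : ℕ → ℝ)
    (hb : ∀ n, 0 ≤ b n) (hx : ∀ m k, ‖inner ℂ (x m) (x (m + k))‖ ≤ b k) (N : ℕ) :
    ‖∑ n ∈ Finset.range N, c n • x n‖ ^ 2 ≤ 2 * N * ∑ k ∈ Finset.range N, b k := by
  have h1 : ((‖∑ n ∈ Finset.range N, c n • x n‖ ^ 2 : ℝ) : ℂ) =
      ∑ m ∈ Finset.range N, ∑ n ∈ Finset.range N, inner ℂ (c m • x m) (c n • x n) := by
    push_cast
    rw [Weyl.norm_sq_eq_inner, sum_inner]
    apply Finset.sum_congr rfl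
    intro m _
    rw [inner_sum]
  have h2 : ‖∑ n ∈ Finset.range N, c n • x n‖ ^ 2 ≤
      ∑ m ∈ Finset.range N, ∑ n ∈ Finset.range N, b (if m ≤ n then n - m else m - n) := by
    have h3 : ‖∑ n ∈ Finset.range N, c n • x n‖ ^ 2 =
        ‖((‖∑ n ∈ Finset.range N, c n • x n‖ ^ 2 : ℝ) : ℂ)‖ := by
      rw [Complex.norm_real, Real.norm_of_nonneg (by positivity)]
    rw [h3, h1]
    refine (norm_sum_le _ _).trans (Finset.sum_le_sum fun m _ => ?_)
    refine (norm_sum_le _ _).trans (Finset.sum_le_sum fun n _ => ?_)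
    rw [inner_smul_left, inner_smul_right, norm_mul, norm_mul, RCLike.norm_conj]
    have h4 : ‖inner ℂ (x m) (x n)‖ ≤ b (if m ≤ n then n - m else m - n) := by
      split_ifs with h
      · have := hx m (n - m)
        rwa [Nat.add_sub_cancel' h] at this
      · have := hx n (m - n)
        rw [Nat.add_sub_cancel' (by omega)] at this
        rw [← inner_conj_symm, RCLike.norm_conj]
        exact this
    calc _ ≤ 1 * (1 * ‖inner ℂ (x m) (x n)‖) := by
          gcongr
          · exact hc m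
          · exact hc n
      _ ≤ _ := by rw [one_mul, one_mul]; exact h4
  calc _ ≤ _ := h2
    _ ≤ ∑ m ∈ Finset.range N, 2 * ∑ k ∈ Finset.range N, b k :=
        Finset.sum_le_sum fun m hm => double_sum_le b hb N m (Finset.mem_range.1 hm)
    _ = _ := by rw [Finset.sum_const, Finset.card_range, nsmul_eq_mul]; ring

theorem tendsto_of_sq (f : ℕ → ℝ) (hf : ∀ N, 0 ≤ f N) (b : ℕ → ℝ)
    (h : ∀ N, f N ^ 2 ≤ 2 * N * ∑ k ∈ Finset.range N, b k)
    (hb : Tendsto (fun N : ℕ => (∑ k ∈ Finset.range N, b k) / (N : ℝ)) atTop (𝓝 0)) :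
    Tendsto (fun N : ℕ => f N / (N : ℝ)) atTop (𝓝 0) := by
  have h1 := (Real.continuous_sqrt.tendsto _).comp (hb.const_mul 2)
  rw [mul_zero, Real.sqrt_zero] at h1
  refine squeeze_zero (fun N => div_nonneg (hf N) (by positivity)) (fun N => ?_) h1
  rcases Nat.eq_zero_or_pos N with h0 | h0
  · subst h0; simp
  have hN : (0 : ℝ) < N := by exact_mod_cast h0
  simp only [Function.comp_apply]
  apply Real.le_sqrt_of_sq_le
  rw [div_pow, ← mul_div_assoc, div_le_div_iff₀ (by positivity) hN]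
  nlinarith [h N]

theorem sum_Icc_pred {E : Type*} [AddCommMonoid E] (f : ℕ → E) (N : ℕ) :
    ∑ n ∈ Finset.Icc 1 N, f (n - 1) = ∑ n ∈ Finset.range N, f n := by
  induction N with
  | zero => simp
  | succ N ih => rw [Finset.sum_Icc_succ_top (by omega), ih, Finset.sum_range_succ]; simp

theorem vdc_range (x : ℕ → H) (hx : ∀ n, ‖x n‖ ≤ 1)
    (hcorr : ∀ h : ℕ, 1 ≤ h → Tendsto (fun N : ℕ =>
      ‖∑ n ∈ Finset.range N, inner ℂ (x n) (x (n + h))‖ / (N : ℝ)) atTop (𝓝 0)) :
    Tendsto (fun N : ℕ => ‖∑ n ∈ Finset.range N, x n‖ / (N : ℝ)) atTop (𝓝 0) := by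
  have := Weyl.vdc (fun n => x (n - 1)) (fun n => hx _) ?_
  · refine this.congr fun N => ?_
    rw [sum_Icc_pred]
  · intro h hh
    refine (hcorr h hh).congr fun N => ?_
    rw [← sum_Icc_pred]
    congr 2
    apply Finset.sum_congr rfl
    intro n hn
    have : 1 ≤ n := (Finset.mem_Icc.1 hn).1
    rw [show n + h - 1 = n - 1 + h by omega]

end Pool.Agent.Helper40.Wiener
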