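import Mathlib
import Pool.Agent.Helper40.Wiener2

open Filter Topology MeasureTheory Polynomial
open scoped InnerProductSpace ComplexConjugate FourierTransform

set_option linter.unusedSectionVars false

namespace Pool.Agent.Helper40.Wiener

variable {H : Type*} [NormedAddCommGroup H] [InnerProductSpace ℂ H] [CompleteSpace H]
variable {Γ : Type*} [AddCommGroup Γ]

/-- a projective unitary representation of an abelian group -/
structure IsProj (w : Γ → H →L[ℂ] H) : Prop where
  unit : ∀ x, w x ∈ unitary (H →L[ℂ] H)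
  mul : ∀ x y, ∃ c : ℂ, ‖c‖ = 1 ∧ w x * w y = c • w (x + y)

theorem inner_map_map {U : H →L[ℂ] H} (hU : U ∈ unitary (H →L[ℂ] H)) (x y : H) :
    inner ℂ (U x) (U y) = inner ℂ x y := by
  rw [← ContinuousLinearMap.adjoint_inner_right, ← ContinuousLinearMap.star_eq_adjoint,
    ← mul_apply_eq_comp, (Unitary.mem_iff.1 hU).1, one_apply_eq_self]

theorem IsProj.inner_eq {w : Γ → H →L[ℂ] H} (hw : IsProj w) (x y : Γ) (ξ : H) :
    ∃ c : ℂ, ‖c‖ = 1 ∧ inner ℂ (w x ξ) (w y ξ) = c * inner ℂ ξ (w (y - x) ξ) := by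
  obtain ⟨c, hc, h1⟩ := hw.mul x (y - x)
  have hc0 : c ≠ 0 := by intro h; rw [h] at hc; simp at hc
  rw [add_sub_cancel] at h1
  have h2 : w y ξ = c⁻¹ • (w x (w (y - x) ξ)) := by
    rw [← mul_apply_eq_comp, h1, smul_apply, smul_smul, inv_mul_cancel₀ hc0, one_smul]
  refine ⟨c⁻¹, by rw [norm_inv, hc, inv_one], ?_⟩
  rw [h2, inner_smul_right, inner_map_map (hw.unit x)]

theorem IsProj.pow_eq {w : Γ → H →L[ℂ] H} (hw : IsProj w) (v : Γ) (h : ℕ) :
    ∃ c : ℂ, ‖c‖ = 1 ∧ (w v) ^ h = c • w (h • v) := by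
  induction h with
  | zero =>
    obtain ⟨c, hc, h1⟩ := hw.mul 0 0
    have hc0 : c ≠ 0 := by intro h; rw [h] at hc; simp at hc
    refine ⟨c⁻¹, by rw [norm_inv, hc, inv_one], ?_⟩
    rw [pow_zero, zero_smul]
    have h2 : star (w 0) * (w 0 * w 0) = star (w 0) * (c • w (0 + 0)) := by rw [h1]
    rw [← mul_assoc, (Unitary.mem_iff.1 (hw.unit 0)).1, one_mul, add_zero, mul_smul_comm,
      (Unitary.mem_iff.1 (hw.unit 0)).1] at h2
    rw [h2, smul_smul, inv_mul_cancel₀ hc0, one_smul]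
  | succ h ih =>
    obtain ⟨c, hc, h1⟩ := ih
    obtain ⟨c', hc', h2⟩ := hw.mul (h • v) v
    refine ⟨c * c', by rw [norm_mul, hc, hc', one_mul], ?_⟩
    rw [pow_succ, h1, smul_mul_assoc, h2, smul_smul, succ_nsmul]

theorem IsProj.norm_apply {w : Γ → H →L[ℂ] H} (hw : IsProj w) (v : Γ) (ξ : H) :
    ‖w v ξ‖ = ‖ξ‖ := ContinuousLinearMap.norm_map_of_mem_unitary (hw.unit v) ξ

theorem IsProj.wm_smul {w : Γ → H →L[ℂ] H} (hw : IsProj w) (v : Γ) (ξ : H) (h : Wm (w v) ξ)
    (k : ℕ) (hk : 1 ≤ k) : Wm (w (k • v)) ξ := by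
  obtain ⟨c, hc, h1⟩ := hw.pow_eq v k
  have hc0 : c ≠ 0 := by intro h; rw [h] at hc; simp at hc
  have h2 : w (k • v) = c⁻¹ • (w v) ^ k := by
    rw [h1, smul_smul, inv_mul_cancel₀ hc0, one_smul]
  rw [h2]
  exact Wiener.wm_smul _ _ (wm_pow _ _ h k hk) _ (by rw [norm_inv, hc, inv_one])

/-- polynomial sequence -/
def pseq (v : ℕ → Γ) (D : ℕ) (n : ℕ) : Γ := ∑ i ∈ Finset.range (D + 1), (n.choose i) • v i

/-- Vandermonde -/
theorem pseq_diff (v : ℕ → Γ) (D : ℕ) (n h : ℕ) :
    pseq v (D + 1) (n + h) - pseq v (D + 1) n =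
      pseq (fun j => ∑ i ∈ Finset.Ioc j (D + 1), (h.choose (i - j)) • v i) D n := by
  unfold pseq
  have h1 : ∀ i, (n + h).choose i = ∑ j ∈ Finset.range (i + 1), n.choose j * h.choose (i - j) := by
    intro i
    rw [Nat.add_choose_eq, Finset.Nat.sum_antidiagonal_eq_sum_range_succ_mk]
  have h2 : ∀ i, ((n + h).choose i) • v i =
      ∑ j ∈ Finset.range (i + 1), (n.choose j) • ((h.choose (i - j)) • v i) := by
    intro i
    rw [h1, Finset.sum_smul]
    apply Finset.sum_congr rfl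
    intro j _
    rw [mul_smul]
  have h3 : ∑ i ∈ Finset.range (D + 1 + 1), ((n + h).choose i) • v i =
      ∑ j ∈ Finset.range (D + 1 + 1), ∑ i ∈ Finset.Icc j (D + 1),
        (n.choose j) • ((h.choose (i - j)) • v i) := by
    rw [Finset.sum_congr rfl (fun i _ => h2 i), Finset.sum_comm']
    intro i j
    simp only [Finset.mem_range, Finset.mem_Icc]
    omega
  have h4 : ∀ j ∈ Finset.range (D + 1 + 1), ∑ i ∈ Finset.Icc j (D + 1),
        (n.choose j) • ((h.choose (i - j)) • v i) = (n.choose j) • v j +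
        (n.choose j) • ∑ i ∈ Finset.Ioc j (D + 1), (h.choose (i - j)) • v i := by
    intro j hj
    rw [← Finset.smul_sum, ← smul_add]
    congr 1
    have : j ≤ D + 1 := by have := Finset.mem_range.1 hj; omega
    rw [← Finset.Ioc_insert_left this, Finset.sum_insert (by simp)]
    simp
  rw [h3, Finset.sum_congr rfl h4, Finset.sum_add_distrib, add_sub_cancel_left,
    Finset.sum_range_succ]
  simp

theorem lemL {w : Γ → H →L[ℂ] H} (hw : IsProj w) (D : ℕ) : ∀ (v : ℕ → Γ) (ξ : H), ‖ξ‖ ≤ 1 →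
    Wm (w (v (D + 1))) ξ → ∀ c : ℕ → ℂ, (∀ n, ‖c n‖ ≤ 1) →
    Tendsto (fun N : ℕ => ‖∑ n ∈ Finset.range N, c n • w (pseq v (D + 1) n) ξ‖ / (N : ℝ)) atTop
      (𝓝 0) := by
  induction D with
  | zero =>
    intro v ξ hξ hwm c hc
    refine tendsto_of_sq _ (fun N => norm_nonneg _)
      (fun k => ‖inner ℂ ξ (((w (v (0 + 1))) ^ k) ξ)‖) (fun N => ?_) hwm
    apply norm_sq_sum_le (fun n => w (pseq v (0 + 1) n) ξ) c hc _ (fun n => norm_nonneg _)
    intro m k
    obtain ⟨c1, hc1, h1⟩ := hw.inner_eq (pseq v (0 + 1) m) (pseq v (0 + 1) (m + k)) ξ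
    obtain ⟨c2, hc2, h2⟩ := hw.pow_eq (v (0 + 1)) k
    have h3 : pseq v (0 + 1) (m + k) - pseq v (0 + 1) m = k • v (0 + 1) := by
      simp only [pseq, Finset.sum_range_succ, Finset.sum_range_zero, Nat.choose_zero_right,
        zero_add, Nat.choose_one_right, add_smul]
      abel
    rw [h1, h2, h3, smul_apply, inner_smul_right, norm_mul, norm_mul, hc1, hc2]
  | succ D ih =>
    intro v ξ hξ hwm c hc
    apply vdc_range
    · intro n
      rw [norm_smul, hw.norm_apply]
      calc _ ≤ (1 : ℝ) * 1 := by gcongr; exact hc n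
        _ = 1 := one_mul _
    · intro h hh
      choose e he1 he2 using fun n => hw.inner_eq (pseq v (D + 1 + 1) n)
        (pseq v (D + 1 + 1) (n + h)) ξ
      have h1 := ih (fun j => ∑ i ∈ Finset.Ioc j (D + 1 + 1), (h.choose (i - j)) • v i) ξ hξ ?_
        (fun n => conj (c n) * c (n + h) * e n) ?_
      · refine squeeze_zero (fun N => by positivity) (fun N => ?_) h1
        gcongr
        have h2 : ∑ n ∈ Finset.range N, inner ℂ (c n • w (pseq v (D + 1 + 1) n) ξ)
            (c (n + h) • w (pseq v (D + 1 + 1) (n + h)) ξ) =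
            inner ℂ ξ (∑ n ∈ Finset.range N, (conj (c n) * c (n + h) * e n) •
              w (pseq (fun j => ∑ i ∈ Finset.Ioc j (D + 1 + 1), (h.choose (i - j)) • v i)
                (D + 1) n) ξ) := by
          rw [inner_sum]
          apply Finset.sum_congr rfl
          intro n _
          rw [inner_smul_left, inner_smul_right, inner_smul_right, he2, pseq_diff]
          ring
        rw [h2]
        calc _ ≤ ‖ξ‖ * _ := norm_inner_le_norm _ _
          _ ≤ 1 * _ := by gcongr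
          _ = _ := one_mul _
      · have h3 : ∑ i ∈ Finset.Ioc (D + 1) (D + 1 + 1), (h.choose (i - (D + 1))) • v i =
            h • v (D + 1 + 1) := by
          rw [Nat.Ioc_succ_singleton, Finset.sum_singleton]
          simp
        rw [h3]
        exact hw.wm_smul _ _ hwm h hh
      · intro n
        rw [norm_mul, norm_mul, he1, mul_one, RCLike.norm_conj]
        calc _ ≤ (1 : ℝ) * 1 := by
              gcongr
              · exact hc _
              · exact hc _
          _ = 1 := one_mul _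

end Pool.Agent.Helper40.Wiener
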