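import Mathlib
import Pool.Agent.Helper40.Wiener3

open Filter Topology MeasureTheory Polynomial
open scoped InnerProductSpace ComplexConjugate FourierTransform commutatorElement

set_option linter.unusedSectionVars false

namespace Pool.Agent.Helper40.Wiener

variable {H : Type*} [NormedAddCommGroup H] [InnerProductSpace ℂ H] [CompleteSpace H]

/-- weights orthogonal to all polynomial phases -/
def OrthPoly (ν : ℕ → ℂ) : Prop :=
  ∀ P : ℝ[X], Tendsto (fun N : ℕ =>
    (∑ n ∈ Finset.range N, ν n * (𝐞 (P.eval (n : ℝ)) : ℂ)) / (N : ℂ)) atTop (𝓝 0)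

theorem OrthPoly.mul_phase {ν : ℕ → ℂ} (hν : OrthPoly ν) (Q : ℝ[X]) :
    OrthPoly (fun n => ν n * (𝐞 (Q.eval (n : ℝ)) : ℂ)) := by
  intro P
  refine (hν (Q + P)).congr fun N => ?_
  congr 1
  apply Finset.sum_congr rfl
  intro n _
  rw [eval_add, AddChar.map_add_eq_mul]
  push_cast
  ring

/-- the binomial coefficient as a polynomial -/
noncomputable def choosePoly (k : ℕ) : ℝ[X] := C ((k.factorial : ℝ)⁻¹) * descPochhammer ℝ k

theorem choosePoly_eval (k n : ℕ) : (choosePoly k).eval (n : ℝ) = (n.choose k : ℝ) := by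
  rw [choosePoly, eval_mul, eval_C, descPochhammer_eval_eq_descFactorial,
    Nat.descFactorial_eq_factorial_mul_choose]
  push_cast
  have : (k.factorial : ℝ) ≠ 0 := by exact_mod_cast k.factorial_ne_zero
  field_simp

theorem exists_phase (z : ℂ) (hz : ‖z‖ = 1) : ∃ θ : ℝ, z = (𝐞 θ : ℂ) := by
  refine ⟨Complex.arg z / (2 * Real.pi), ?_⟩
  have := Complex.norm_mul_exp_arg_mul_I z
  rw [hz] at this
  rw [Real.fourierChar_apply]
  have h2 : ((2 * Real.pi * (Complex.arg z / (2 * Real.pi)) : ℝ) : ℂ) = Complex.arg z := by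
    congr 1
    have : Real.pi ≠ 0 := Real.pi_ne_zero
    field_simp
  rw [h2]
  simpa using this.symm

theorem phase_pow (θ : ℝ) (n : ℕ) : ((𝐞 θ : ℂ)) ^ n = (𝐞 (θ * n) : ℂ) := by
  rw [mul_comm, ← nsmul_eq_mul, AddChar.map_nsmul_eq_pow]
  push_cast
  rfl

/-- vectors with good averages -/
def good (T : ℕ → H →L[ℂ] H) (ν : ℕ → ℂ) : Submodule ℂ H where
  carrier := {ξ | Tendsto (fun N : ℕ => ‖∑ n ∈ Finset.range N, ν n • T n ξ‖ / (N : ℝ)) atTop (𝓝 0)}
  add_mem' := by
    intro a b ha hb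
    have h := Tendsto.add ha hb
    rw [add_zero] at h
    refine squeeze_zero (fun N => by positivity) (fun N => ?_) h
    rw [← add_div]
    gcongr
    have : ∑ n ∈ Finset.range N, ν n • T n (a + b) =
      ∑ n ∈ Finset.range N, ν n • T n a + ∑ n ∈ Finset.range N, ν n • T n b := by
      rw [← Finset.sum_add_distrib]
      apply Finset.sum_congr rfl
      intro n _
      rw [map_add, smul_add]
    rw [this]
    exact norm_add_le _ _
  zero_mem' := by
    simp
  smul_mem' := by
    intro c a ha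
    have h := Tendsto.const_mul ‖c‖ ha
    rw [mul_zero] at h
    refine h.congr (fun N => ?_)
    rw [← mul_div_assoc, ← norm_smul, Finset.smul_sum]
    congr 2
    apply Finset.sum_congr rfl
    intro n _
    rw [map_smul, smul_comm]

theorem good_closed (T : ℕ → H →L[ℂ] H) (ν : ℕ → ℂ) (hν : ∀ n, ‖ν n‖ ≤ 1)
    (hT : ∀ n ξ, ‖T n ξ‖ ≤ ‖ξ‖) : IsClosed (good T ν : Set H) := by
  rw [← closure_subset_iff_isClosed]
  intro ξ hξ
  rw [Metric.mem_closure_iff] at hξ
  change Tendsto _ _ _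
  rw [Metric.tendsto_atTop]
  intro ε hε
  obtain ⟨η, hη, hd⟩ := hξ (ε / 2) (by positivity)
  have h1 : Tendsto (fun N : ℕ => ‖∑ n ∈ Finset.range N, ν n • T n η‖ / (N : ℝ)) atTop (𝓝 0) := hη
  rw [Metric.tendsto_atTop] at h1
  obtain ⟨N0, hN0⟩ := h1 (ε / 2) (by positivity)
  refine ⟨N0, fun N hN => ?_⟩
  have h2 := hN0 N hN
  rw [Real.dist_eq, sub_zero, abs_of_nonneg (by positivity)] at h2 ⊢
  have h3 : ‖∑ n ∈ Finset.range N, ν n • T n ξ‖ ≤ ‖∑ n ∈ Finset.range N, ν n • T n η‖ +
      N * ‖ξ - η‖ := by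
    have e1 : ∑ n ∈ Finset.range N, ν n • T n ξ = ∑ n ∈ Finset.range N, ν n • T n η +
        ∑ n ∈ Finset.range N, ν n • T n (ξ - η) := by
      rw [← Finset.sum_add_distrib]
      apply Finset.sum_congr rfl
      intro n _
      rw [map_sub, smul_sub]
      abel
    rw [e1]
    refine (norm_add_le _ _).trans ?_
    gcongr
    calc _ ≤ ∑ n ∈ Finset.range N, ‖ν n • T n (ξ - η)‖ := norm_sum_le _ _
      _ ≤ ∑ n ∈ Finset.range N, ‖ξ - η‖ := by
        apply Finset.sum_le_sum
        intro n _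
        rw [norm_smul]
        calc _ ≤ 1 * ‖ξ - η‖ := by
              gcongr
              · exact hν n
              · exact hT n _
          _ = _ := one_mul _
      _ = _ := by simp
  rcases Nat.eq_zero_or_pos N with h0 | h0
  · subst h0; simpa using hε
  have hN : (0 : ℝ) < N := by exact_mod_cast h0
  rw [dist_eq_norm] at hd
  calc _ ≤ (‖∑ n ∈ Finset.range N, ν n • T n η‖ + N * ‖ξ - η‖) / N := by gcongr
    _ = ‖∑ n ∈ Finset.range N, ν n • T n η‖ / N + ‖ξ - η‖ := by field_simp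
    _ < ε / 2 + ε / 2 := by gcongr
    _ = ε := by ring

theorem good_top (M : Submodule ℂ H) (hM : IsClosed (M : Set H)) (U : H →L[ℂ] H)
    (h1 : ∀ (z : ℂ) (η : H), U η = z • η → η ∈ M)
    (h2 : ∀ ξ : H, (∀ (z : ℂ) (η : H), U η = z • η → inner ℂ ξ η = 0) → ξ ∈ M) (ξ : H) :
    ξ ∈ M := by
  have hc : IsComplete (M : Set H) := hM.isComplete
  have : CompleteSpace M := hc.completeSpace_coe
  obtain ⟨p, hp, q, hq, rfl⟩ := M.exists_add_mem_mem_orthogonal ξ
  refine M.add_mem hp (h2 q ?_)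
  intro z η hη
  exact (Submodule.mem_orthogonal' M q).1 hq η (h1 z η hη)

section grp

variable {𝔾 : Type*} [Group 𝔾] (π : 𝔾 →* (H →L[ℂ] H))

theorem comm_scalar (hcomm : ∀ g h, ∃ c : ℂ, ‖c‖ = 1 ∧ π (g * h) = c • π (h * g)) :
    ∀ x ∈ commutator 𝔾, ∃ c : ℂ, ‖c‖ = 1 ∧ π x = c • 1 := by
  let K : Subgroup 𝔾 :=
    { carrier := {x | ∃ c : ℂ, ‖c‖ = 1 ∧ π x = c • 1}
      mul_mem' := by
        rintro a b ⟨c, hc, h1⟩ ⟨d, hd, h2⟩
        exact ⟨c * d, by rw [norm_mul, hc, hd, one_mul], by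
          rw [map_mul, h1, h2, smul_mul_smul_comm, one_mul]⟩
      one_mem' := ⟨1, norm_one, by rw [map_one, one_smul]⟩
      inv_mem' := by
        rintro a ⟨c, hc, h1⟩
        have hc0 : c ≠ 0 := by intro h; rw [h] at hc; simp at hc
        refine ⟨c⁻¹, by rw [norm_inv, hc, inv_one], ?_⟩
        have h2 : π a * π a⁻¹ = 1 := by rw [← map_mul, mul_inv_cancel, map_one]
        rw [h1, smul_mul_assoc, one_mul] at h2
        rw [← h2, smul_smul, inv_mul_cancel₀ hc0, one_smul] }
  have hK : commutator 𝔾 ≤ K := by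
    rw [commutator_def, Subgroup.commutator_le]
    intro g _ h _
    obtain ⟨c, hc, h1⟩ := hcomm g h
    refine ⟨c, hc, ?_⟩
    have : ⁅g, h⁆ = (g * h) * (h * g)⁻¹ := by
      rw [commutatorElement_def]; group
    rw [this, map_mul, h1, smul_mul_assoc, ← map_mul, mul_inv_cancel, map_one]
  exact fun x hx => hK hx

/-- lifting to a projective representation of the abelianization -/
noncomputable def wrep (a : Additive (Abelianization 𝔾)) : H →L[ℂ] H :=
  π (Quotient.out (Additive.toMul a))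

theorem wrep_eq (hcomm : ∀ g h, ∃ c : ℂ, ‖c‖ = 1 ∧ π (g * h) = c • π (h * g)) (g : 𝔾)
    (a : Additive (Abelianization 𝔾)) (ha : a = Additive.ofMul (Abelianization.of g)) :
    ∃ c : ℂ, ‖c‖ = 1 ∧ π g = c • wrep π a := by
  have h1 : (Quotient.out (Additive.toMul a))⁻¹ * g ∈ commutator 𝔾 := by
    rw [← QuotientGroup.eq]
    rw [QuotientGroup.out_eq', ha]
    rfl
  obtain ⟨c, hc, h2⟩ := comm_scalar π hcomm _ h1
  refine ⟨c, hc, ?_⟩
  rw [wrep]
  calc π g = π (Quotient.out (Additive.toMul a) * ((Quotient.out (Additive.toMul a))⁻¹ * g)) := by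
        rw [mul_inv_cancel_left]
    _ = _ := by rw [map_mul, h2, mul_smul_comm, mul_one]

theorem wrep_proj (hπ : ∀ g, π g ∈ unitary (H →L[ℂ] H))
    (hcomm : ∀ g h, ∃ c : ℂ, ‖c‖ = 1 ∧ π (g * h) = c • π (h * g)) : IsProj (wrep π) where
  unit := fun x => hπ _
  mul := by
    intro x y
    obtain ⟨c, hc, h1⟩ := wrep_eq π hcomm
      (Quotient.out (Additive.toMul x) * Quotient.out (Additive.toMul y)) (x + y) (by
        rw [map_mul, ofMul_mul]
        congr 1
        · have := QuotientGroup.out_eq' (Additive.toMul x)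
          exact this.symm
        · have := QuotientGroup.out_eq' (Additive.toMul y)
          exact this.symm)
    exact ⟨c, hc, by rw [← h1, map_mul]; rfl⟩

/-- an ordered product `g_0 g_1^{n} g_2^{C(n,2)} ⋯ g_k^{C(n,k)}` -/
def pg (g : ℕ → 𝔾) : ℕ → ℕ → 𝔾
  | 0, _ => g 0
  | k + 1, n => pg g k n * g (k + 1) ^ (n.choose (k + 1))

theorem pg_class (g : ℕ → 𝔾) (k n : ℕ) :
    pseq (fun i => Additive.ofMul (Abelianization.of (g i))) k n =
      Additive.ofMul (Abelianization.of (pg g k n)) := by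
  induction k with
  | zero => simp [pseq, pg]
  | succ k ih =>
    rw [pg, map_mul, ofMul_mul, ← ih, pseq, Finset.sum_range_succ, pseq, map_pow, ofMul_pow]

theorem main_thm (hπ : ∀ g, π g ∈ unitary (H →L[ℂ] H))
    (hcomm : ∀ g h, ∃ c : ℂ, ‖c‖ = 1 ∧ π (g * h) = c • π (h * g)) (k : ℕ) :
    ∀ (g : ℕ → 𝔾) (ν : ℕ → ℂ), (∀ n, ‖ν n‖ ≤ 1) → OrthPoly ν → ∀ ξ : H,
    Tendsto (fun N : ℕ => ‖∑ n ∈ Finset.range N, ν n • π (pg g k n) ξ‖ / (N : ℝ)) atTop (𝓝 0) := by
  have hnorm : ∀ x ξ, ‖π x ξ‖ = ‖ξ‖ := fun x ξ =>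
    ContinuousLinearMap.norm_map_of_mem_unitary (hπ x) ξ
  induction k with
  | zero =>
    intro g ν hν1 hν ξ
    have h1 := (hν 0).norm.mul_const ‖π (g 0) ξ‖
    rw [norm_zero, zero_mul] at h1
    refine h1.congr fun N => ?_
    simp only [pg, eval_zero, AddChar.map_zero_eq_one, Circle.coe_one, mul_one]
    rw [← Finset.sum_smul, norm_smul, norm_div, Complex.norm_natCast]
    ring
  | succ k ih =>
    intro g ν hν1 hν
    intro ξ
    change ξ ∈ good (fun n => π (pg g (k + 1) n)) ν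
    apply good_top _ (good_closed _ ν hν1 (fun n ξ => (hnorm _ _).le)) (π (g (k + 1)))
    · intro z η hη
      by_cases h0 : η = 0
      · rw [h0]; exact Submodule.zero_mem _
      have hz : ‖z‖ = 1 := by
        have h1 := hnorm (g (k + 1)) η
        rw [hη, norm_smul] at h1
        have h2 : ‖η‖ ≠ 0 := norm_ne_zero_iff.2 h0
        exact mul_right_cancel₀ h2 (by rw [h1, one_mul])
      obtain ⟨θ, rfl⟩ := exists_phase z hz
      have h1 := ih g (fun n => ν n * (𝐞 ((C θ * choosePoly (k + 1)).eval (n : ℝ)) : ℂ)) ?_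
        (hν.mul_phase _) η
      · refine h1.congr fun N => ?_
        congr 2
        apply Finset.sum_congr rfl
        intro n _
        have h2 : ∀ m : ℕ, π (g (k + 1) ^ m) η = ((𝐞 θ : ℂ)) ^ m • η := by
          intro m
          induction m with
          | zero => simp
          | succ m ihm =>
            rw [pow_succ, map_mul, mul_apply_eq_comp, hη, map_smul, ihm, smul_smul, pow_succ,
              mul_comm]
        have h3 : pg g (k + 1) n = pg g k n * g (k + 1) ^ (n.choose (k + 1)) := rfl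
        simp only [h3]
        rw [map_mul, mul_apply_eq_comp, h2, map_smul, smul_smul, phase_pow, eval_mul, eval_C,
          choosePoly_eval]
      · intro n
        rw [norm_mul, Circle.norm_coe, mul_one]
        exact hν1 n
    · intro ξ hξ
      by_cases h0 : ξ = 0
      · rw [h0]; exact Submodule.zero_mem _
      have hξ0 : ‖ξ‖ ≠ 0 := norm_ne_zero_iff.2 h0
      have hscale : ξ = (‖ξ‖ : ℂ) • ((‖ξ‖ : ℂ)⁻¹ • ξ) := by
        rw [smul_smul, mul_inv_cancel₀ (by exact_mod_cast hξ0), one_smul]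
      rw [hscale]
      apply Submodule.smul_mem
      set ξ' := (‖ξ‖ : ℂ)⁻¹ • ξ with hξ'
      have hξ'n : ‖ξ'‖ ≤ 1 := by
        rw [hξ', norm_smul, norm_inv, Complex.norm_real, norm_norm, inv_mul_cancel₀ hξ0]
      have hwm : Wm (π (g (k + 1))) ξ' := by
        apply wm_of_cts _ (hπ _)
        intro z η hη
        rw [hξ', inner_smul_left, hξ z η hη, mul_zero]
      have hw := wrep_proj π hπ hcomm
      obtain ⟨c0, hc0, h1⟩ := wrep_eq π hcomm (g (k + 1)) _ rfl
      have hc0' : c0 ≠ 0 := by intro h; rw [h] at hc0; simp at hc0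
      have hwm2 : Wm (wrep π (Additive.ofMul (Abelianization.of (g (k + 1))))) ξ' := by
        have h2 : wrep π (Additive.ofMul (Abelianization.of (g (k + 1)))) =
            c0⁻¹ • π (g (k + 1)) := by
          rw [h1, smul_smul, inv_mul_cancel₀ hc0', one_smul]
        rw [h2]
        exact wm_smul _ _ hwm _ (by rw [norm_inv, hc0, inv_one])
      choose c hc h3 using fun n => wrep_eq π hcomm (pg g (k + 1) n) _ rfl
      have h4 := lemL hw k (fun i => Additive.ofMul (Abelianization.of (g i))) ξ' hξ'n hwm2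
        (fun n => ν n * c n) (fun n => by rw [norm_mul, hc, mul_one]; exact hν1 n)
      change Tendsto _ _ _
      refine h4.congr fun N => ?_
      congr 2
      apply Finset.sum_congr rfl
      intro n _
      simp only [pg_class, h3 n, smul_apply, smul_smul]

end grp

end Pool.Agent.Helper40.Wiener
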