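import Mathlib
import Pool.Agent.Helper40.Wiener4

open Filter Topology MeasureTheory Polynomial
open scoped InnerProductSpace ComplexConjugate FourierTransform

set_option linter.unusedSectionVars false

namespace Pool.Agent.Helper40.Wiener

/-- polynomial phases -/
def IsPP (f : ℕ → ℂ) : Prop := ∃ P : ℝ[X], ∀ n : ℕ, f n = (𝐞 (P.eval (n : ℝ)) : ℂ)

/-- integer valued polynomial sequences -/
def IsPN (a : ℕ → ℕ) : Prop := ∃ P : ℝ[X], ∀ n : ℕ, (a n : ℝ) = P.eval (n : ℝ)

theorem IsPP.mul {f g : ℕ → ℂ} (hf : IsPP f) (hg : IsPP g) : IsPP (fun n => f n * g n) := by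
  obtain ⟨P, hP⟩ := hf
  obtain ⟨Q, hQ⟩ := hg
  refine ⟨P + Q, fun n => ?_⟩
  beta_reduce
  rw [hP, hQ, eval_add, AddChar.map_add_eq_mul]
  push_cast
  rfl

theorem IsPP.const (θ : ℝ) : IsPP (fun _ => (𝐞 θ : ℂ)) := ⟨C θ, fun n => by rw [eval_C]⟩

theorem IsPP.one : IsPP (fun _ => (1 : ℂ)) := ⟨0, fun n => by simp⟩

theorem IsPP.pow (θ : ℝ) {a b : ℕ → ℕ} (ha : IsPN a) (hb : IsPN b) :
    IsPP (fun n => (𝐞 θ : ℂ) ^ (a n * b n)) := by
  obtain ⟨P, hP⟩ := ha
  obtain ⟨Q, hQ⟩ := hb
  refine ⟨C θ * (P * Q), fun n => ?_⟩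
  beta_reduce
  rw [phase_pow, eval_mul, eval_C, eval_mul, ← hP, ← hQ]
  push_cast
  rfl

theorem IsPN.choose (k : ℕ) : IsPN (fun n => n.choose k) :=
  ⟨choosePoly k, fun n => (choosePoly_eval k n).symm⟩

theorem IsPN.const (k : ℕ) : IsPN (fun _ => k) := ⟨C (k : ℝ), fun n => by rw [eval_C]⟩

theorem exists_sum_poly (Q : ℝ[X]) : ∃ R : ℝ[X], ∀ n : ℕ,
    R.eval (n : ℝ) = ∑ m ∈ Finset.range n, Q.eval (m : ℝ) := by
  induction Q using Polynomial.induction_on' with
  | add p q hp hq =>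
    obtain ⟨R, hR⟩ := hp
    obtain ⟨S, hS⟩ := hq
    refine ⟨R + S, fun n => ?_⟩
    rw [eval_add, hR, hS, ← Finset.sum_add_distrib]
    simp only [eval_add]
  | monomial p a =>
    refine ⟨∑ i ∈ Finset.range (p + 1),
      C (a * ((_root_.bernoulli i * ((p + 1).choose i) / (p + 1) : ℚ) : ℝ)) * X ^ (p + 1 - i), fun n => ?_⟩
    simp only [eval_monomial]
    rw [← Finset.mul_sum]
    have h1 := sum_range_pow n p
    have h2 : (∑ m ∈ Finset.range n, (m : ℝ) ^ p) = ((∑ k ∈ Finset.range n, (k : ℚ) ^ p : ℚ) : ℝ) := by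
      push_cast
      rfl
    rw [h2, h1, eval_finsetSum]
    push_cast
    rw [Finset.mul_sum]
    apply Finset.sum_congr rfl
    intro i _
    simp only [eval_mul, eval_C, eval_pow, eval_X]
    ring

theorem IsPP.prod {f F : ℕ → ℂ} (hf : IsPP f) (h0 : F 0 = 1) (h1 : ∀ n, F (n + 1) = f n * F n) :
    IsPP F := by
  obtain ⟨Q, hQ⟩ := hf
  obtain ⟨R, hR⟩ := exists_sum_poly Q
  refine ⟨R, fun n => ?_⟩
  induction n with
  | zero => rw [h0, hR]; simp
  | succ n ih =>
    rw [h1, ih, hR, hR, Finset.sum_range_succ, AddChar.map_add_eq_mul, hQ]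
    push_cast
    ring

variable {A : Type*} [Ring A] [Algebra ℂ A]

theorem comm_pow {x y : A} {c : ℂ} (h : x * y = c • (y * x)) (s t : ℕ) :
    x ^ s * y ^ t = c ^ (s * t) • (y ^ t * x ^ s) := by
  have h1 : ∀ t, x * y ^ t = c ^ t • (y ^ t * x) := by
    intro t
    induction t with
    | zero => simp
    | succ t ih =>
      rw [pow_succ, ← mul_assoc, ih, smul_mul_assoc, mul_assoc, h, mul_smul_comm, smul_smul,
        ← mul_assoc, ← pow_succ]
  induction s with
  | zero => simp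
  | succ s ih =>
    rw [pow_succ, mul_assoc, h1, mul_smul_comm, ← mul_assoc, ih, smul_mul_assoc, smul_smul,
      mul_assoc, ← pow_add]
    congr 2
    ring

/-- ordered products of powers -/
def PW (x : ℕ → A) (a : ℕ → ℕ → ℕ) : ℕ → ℕ → A
  | 0, _ => 1
  | k + 1, n => PW x a k n * x k ^ (a k n)

theorem pow_PW {x : ℕ → A} (hx : ∀ i j, ∃ θ : ℝ, x i * x j = (𝐞 θ : ℂ) • (x j * x i))
    {b : ℕ → ℕ → ℕ} (hb : ∀ j, IsPN (b j)) (l : ℕ) {s : ℕ → ℕ} (hs : IsPN s) (k : ℕ) :
    ∃ f, IsPP f ∧ ∀ n, x l ^ (s n) * PW x b k n = f n • (PW x b k n * x l ^ (s n)) := by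
  induction k with
  | zero => exact ⟨fun _ => 1, IsPP.one, fun n => by simp [PW]⟩
  | succ k ih =>
    obtain ⟨f, hf, h1⟩ := ih
    obtain ⟨θ, hθ⟩ := hx l k
    refine ⟨fun n => f n * (𝐞 θ : ℂ) ^ (s n * b k n), hf.mul (IsPP.pow θ hs (hb k)), fun n => ?_⟩
    have h2 : PW x b (k + 1) n = PW x b k n * x k ^ (b k n) := rfl
    rw [h2, ← mul_assoc, h1, smul_mul_assoc, mul_assoc, comm_pow hθ, mul_smul_comm, smul_smul,
      ← mul_assoc]

theorem PW_mul {x : ℕ → A} (hx : ∀ i j, ∃ θ : ℝ, x i * x j = (𝐞 θ : ℂ) • (x j * x i))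
    {a b : ℕ → ℕ → ℕ} (ha : ∀ j, IsPN (a j)) (hb : ∀ j, IsPN (b j)) (k : ℕ) :
    ∃ f, IsPP f ∧ ∀ n, PW x a k n * PW x b k n = f n • PW x (fun j n => a j n + b j n) k n := by
  induction k with
  | zero => exact ⟨fun _ => 1, IsPP.one, fun n => by simp [PW]⟩
  | succ k ih =>
    obtain ⟨f, hf, h1⟩ := ih
    obtain ⟨e, he, h2⟩ := pow_PW hx hb k (ha k) k
    refine ⟨fun n => e n * f n, he.mul hf, fun n => ?_⟩
    have h3 : PW x b (k + 1) n = PW x b k n * x k ^ (b k n) := rfl
    have h4 : PW x a (k + 1) n = PW x a k n * x k ^ (a k n) := rfl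
    have h5 : PW x (fun j n => a j n + b j n) (k + 1) n =
      PW x (fun j n => a j n + b j n) k n * x k ^ (a k n + b k n) := rfl
    rw [h3, h4, h5]
    calc PW x a k n * x k ^ a k n * (PW x b k n * x k ^ b k n)
        = PW x a k n * (x k ^ a k n * PW x b k n) * x k ^ b k n := by noncomm_ring
      _ = e n • ((PW x a k n * PW x b k n) * (x k ^ a k n * x k ^ b k n)) := by
          rw [h2]
          simp only [mul_smul_comm, smul_mul_assoc, mul_assoc]
      _ = _ := by
          rw [h1, ← pow_add, smul_mul_assoc, smul_smul]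

/-- the exponents -/
def ex (i j n : ℕ) : ℕ := if i ≤ j then n.choose (j - i) else 0

theorem ex_pn (i j : ℕ) : IsPN (ex i j) := by
  unfold ex
  split_ifs with h
  · exact IsPN.choose _
  · exact IsPN.const 0

theorem ex_add (i j n : ℕ) : ex (i + 1) j n + ex i j n = ex i j (n + 1) := by
  unfold ex
  rcases lt_trichotomy i j with h | h | h
  · rw [if_pos (by omega), if_pos (by omega), if_pos (by omega)]
    obtain ⟨t, rfl⟩ := Nat.exists_eq_add_of_lt h
    rw [show i + t + 1 - (i + 1) = t by omega, show i + t + 1 - i = t + 1 by omega,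
      Nat.choose_succ_succ]
  · subst h
    simp
  · rw [if_neg (by omega), if_neg (by omega), if_neg (by omega)]

theorem PW_ex_zero (x : ℕ → A) (i k : ℕ) :
    PW x (ex i) k 0 = if i < k then x i else 1 := by
  induction k with
  | zero => simp [PW]
  | succ k ih =>
    have h3 : PW x (ex i) (k + 1) 0 = PW x (ex i) k 0 * x k ^ (ex i k 0) := rfl
    rw [h3, ih]
    unfold ex
    rcases lt_trichotomy i k with h | h | h
    · rw [if_pos h, if_pos (by omega), if_pos (by omega), Nat.choose_eq_zero_of_lt (by omega)]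
      simp
    · subst h
      simp
    · rw [if_neg (by omega), if_neg (by omega), if_neg (by omega)]
      simp

theorem PW_ex_self (x : ℕ → A) (k n : ℕ) : PW x (ex k) k n = 1 := by
  have : ∀ l ≤ k, PW x (ex k) l n = 1 := by
    intro l
    induction l with
    | zero => intro _; rfl
    | succ l ih =>
      intro hl
      have h3 : PW x (ex k) (l + 1) n = PW x (ex k) l n * x l ^ (ex k l n) := rfl
      rw [h3, ih (by omega), ex, if_neg (by omega)]
      simp
  exact this k le_rfl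

theorem beta_iter (β : A → A) (hmul : ∀ x y, β (x * y) = β x * β y)
    (hsmul : ∀ (c : ℂ) x, β (c • x) = c • β x) (hone : β 1 = 1) (x : ℕ → A)
    (hx : ∀ i j, ∃ θ : ℝ, x i * x j = (𝐞 θ : ℂ) • (x j * x i))
    (hstep : ∀ i, β (x i) = x (i + 1) * x i) (k : ℕ) (hk : ∃ θ : ℝ, x k = (𝐞 θ : ℂ) • (1 : A))
    (i : ℕ) (hi : i ≤ k) :
    ∃ f, IsPP f ∧ ∀ n, β^[n] (x i) = f n • PW x (ex i) k n := by
  obtain ⟨t, rfl⟩ : ∃ t, k = i + t := ⟨k - i, by omega⟩
  induction t generalizing i with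
  | zero =>
    obtain ⟨θ, hθ⟩ := hk
    refine ⟨fun _ => (𝐞 θ : ℂ), IsPP.const θ, fun n => ?_⟩
    rw [add_zero, PW_ex_self]
    induction n with
    | zero =>
      rw [Function.iterate_zero, id]
      exact hθ
    | succ n ih =>
      rw [Function.iterate_succ', Function.comp_apply, ih, hsmul, hone]
  | succ t ih =>
    obtain ⟨f, hf, h1⟩ := ih (i + 1) (by
      rw [show i + 1 + t = i + (t + 1) by ring]; exact hk) (by omega)
    rw [show i + 1 + t = i + (t + 1) by ring] at h1
    obtain ⟨e, he, h2⟩ := PW_mul hx (ex_pn (i + 1)) (ex_pn i) (i + (t + 1))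
    let F : ℕ → ℂ := fun n => Nat.rec 1 (fun m r => (f m * e m) * r) n
    have hF0 : F 0 = 1 := rfl
    have hF1 : ∀ n, F (n + 1) = (f n * e n) * F n := fun n => rfl
    refine ⟨F, IsPP.prod (hf.mul he) hF0 hF1, fun n => ?_⟩
    induction n with
    | zero =>
      rw [Function.iterate_zero, id, hF0, one_smul, PW_ex_zero, if_pos (by omega)]
    | succ n ihn =>
      have hm : ∀ (n : ℕ) (a b : A), β^[n] (a * b) = β^[n] a * β^[n] b := by
        intro n
        induction n with
        | zero => intro a b; rfl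
        | succ n ihm =>
          intro a b
          rw [Function.iterate_succ, Function.comp_apply, hmul, ihm]
          rfl
      rw [Function.iterate_succ, Function.comp_apply, hstep, hm, h1, ihn, smul_mul_smul_comm, h2,
        smul_smul, hF1]
      have h3 : PW x (fun j n => ex (i + 1) j n + ex i j n) (i + (t + 1)) n =
          PW x (ex i) (i + (t + 1)) (n + 1) := by
        generalize i + (t + 1) = K
        induction K with
        | zero => rfl
        | succ K ihK =>
          have e1 : PW x (fun j n => ex (i + 1) j n + ex i j n) (K + 1) n =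
            PW x (fun j n => ex (i + 1) j n + ex i j n) K n *
              x K ^ (ex (i + 1) K n + ex i K n) := rfl
          have e2 : PW x (ex i) (K + 1) (n + 1) =
            PW x (ex i) K (n + 1) * x K ^ (ex i K (n + 1)) := rfl
          rw [e1, e2, ihK, ex_add]
      rw [h3]
      congr 1
      ring

end Pool.Agent.Helper40.Wiener
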