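import Mathlib
import Pool.Agent.Helper40.Wiener5

open Filter Topology MeasureTheory Polynomial
open scoped InnerProductSpace ComplexConjugate FourierTransform ArithmeticFunction.Moebius

set_option linter.unusedSectionVars false

namespace Pool.Agent.Helper40.Wiener

theorem range_of_Icc (f : ℕ → ℂ) (C : ℝ) (hf : ∀ n, ‖f n‖ ≤ C)
    (h : Tendsto (fun N : ℕ => (∑ n ∈ Finset.Icc 1 N, f n) / (N : ℂ)) atTop (𝓝 0)) :
    Tendsto (fun N : ℕ => (∑ n ∈ Finset.range N, f n) / (N : ℂ)) atTop (𝓝 0) := by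
  have h1 : ∀ N, ∑ n ∈ Finset.range N, f n = ∑ n ∈ Finset.Icc 1 N, f n + (f 0 - f N) := by
    intro N
    induction N with
    | zero => simp
    | succ N ih => rw [Finset.sum_range_succ, ih, Finset.sum_Icc_succ_top (by omega)]; ring
  have h2 : Tendsto (fun N : ℕ => (f 0 - f N) / (N : ℂ)) atTop (𝓝 0) := by
    rw [tendsto_zero_iff_norm_tendsto_zero]
    refine squeeze_zero (fun N => norm_nonneg _) (fun N => ?_)
      (tendsto_const_div_atTop_nhds_zero_nat (2 * C))
    rw [norm_div, Complex.norm_natCast]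
    gcongr
    calc _ ≤ ‖f 0‖ + ‖f N‖ := norm_sub_le _ _
      _ ≤ C + C := add_le_add (hf _) (hf _)
      _ = _ := by ring
  have h3 := h.add h2
  rw [add_zero] at h3
  refine h3.congr fun N => ?_
  rw [h1, add_div]

theorem Icc_of_range (f : ℕ → ℂ) (C : ℝ) (hf : ∀ n, ‖f n‖ ≤ C)
    (h : Tendsto (fun N : ℕ => (∑ n ∈ Finset.range N, f n) / (N : ℂ)) atTop (𝓝 0)) :
    Tendsto (fun N : ℕ => (∑ n ∈ Finset.Icc 1 N, f n) / (N : ℂ)) atTop (𝓝 0) := by
  have h1 : ∀ N, ∑ n ∈ Finset.Icc 1 N, f n = ∑ n ∈ Finset.range N, f n + (f N - f 0) := by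
    intro N
    induction N with
    | zero => simp
    | succ N ih => rw [Finset.sum_range_succ, Finset.sum_Icc_succ_top (by omega), ih]; ring
  have h2 : Tendsto (fun N : ℕ => (f N - f 0) / (N : ℂ)) atTop (𝓝 0) := by
    rw [tendsto_zero_iff_norm_tendsto_zero]
    refine squeeze_zero (fun N => norm_nonneg _) (fun N => ?_)
      (tendsto_const_div_atTop_nhds_zero_nat (2 * C))
    rw [norm_div, Complex.norm_natCast]
    gcongr
    calc _ ≤ ‖f N‖ + ‖f 0‖ := norm_sub_le _ _
      _ ≤ C + C := add_le_add (hf _) (hf _)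
      _ = _ := by ring
  have h3 := h.add h2
  rw [add_zero] at h3
  refine h3.congr fun N => ?_
  rw [h1, add_div]

theorem norm_moebius (n : ℕ) : ‖(μ n : ℂ)‖ ≤ 1 := by
  rw [Complex.norm_intCast]
  exact_mod_cast ArithmeticFunction.abs_moebius_le_one

theorem moebius_range (Q : ℝ[X]) :
    Tendsto (fun N : ℕ => (∑ n ∈ Finset.range N, (μ n : ℂ) * (𝐞 (Q.eval (n : ℝ)) : ℂ)) / (N : ℂ))
      atTop (𝓝 0) := by
  apply range_of_Icc _ 1 _ (Weyl.moebius_poly Q)
  intro n
  rw [norm_mul, Circle.norm_coe, mul_one]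
  exact norm_moebius n

theorem sum_range_mul {E : Type*} [AddCommMonoid E] (F : ℕ → E) (m M : ℕ) :
    ∑ n ∈ Finset.range (m * M), F n = ∑ r ∈ Finset.range m, ∑ q ∈ Finset.range M, F (m * q + r) := by
  induction M with
  | zero => simp
  | succ M ih =>
    rw [mul_add, mul_one, Finset.sum_range_add, ih, ← Finset.sum_add_distrib]
    apply Finset.sum_congr rfl
    intro r _
    rw [Finset.sum_range_succ]

theorem root_filter (m : ℕ) (hm : 1 ≤ m) (t : ℤ) :
    (∑ a ∈ Finset.range m, (𝐞 ((a : ℝ) * (t / m : ℝ)) : ℂ)) = if (m : ℤ) ∣ t then (m : ℂ) else 0 := by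
  have hm0 : (m : ℝ) ≠ 0 := by positivity
  have h1 : ∀ a : ℕ, (𝐞 ((a : ℝ) * (t / m : ℝ)) : ℂ) = (𝐞 (t / m : ℝ) : ℂ) ^ a := by
    intro a
    rw [phase_pow, mul_comm]
  simp_rw [h1]
  split_ifs with h
  · obtain ⟨s, rfl⟩ := h
    have : (𝐞 ((((m : ℤ) * s : ℤ) : ℝ) / (m : ℝ)) : ℂ) = 1 := by
      have h2 : ((((m : ℤ) * s : ℤ) : ℝ) / (m : ℝ)) = (s : ℝ) := by
        push_cast; field_simp
      rw [h2, Weyl.e_int]
    rw [this]
    simp
  · have hne : (𝐞 (t / m : ℝ) : ℂ) ≠ 1 := by
      intro h2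
      apply h
      rw [Real.fourierChar_apply, Complex.exp_eq_one_iff] at h2
      obtain ⟨n, hn⟩ := h2
      refine ⟨n, ?_⟩
      have h3 : (2 * Real.pi * Complex.I : ℂ) ≠ 0 := by simp [Real.pi_ne_zero]
      have h4 : ((t / m : ℝ) : ℂ) = n := by
        apply mul_left_cancel₀ h3
        rw [mul_comm _ (n : ℂ), ← hn]
        push_cast
        ring
      have h5 : (t / m : ℝ) = n := by exact_mod_cast h4
      rw [div_eq_iff hm0] at h5
      have h6 : (t : ℝ) = ((m * n : ℤ) : ℝ) := by rw [h5]; push_cast; ring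
      exact_mod_cast h6
    rw [geom_sum_eq hne, phase_pow]
    have : ((t / m : ℝ) * m) = (t : ℝ) := by field_simp
    rw [this, Weyl.e_int]
    simp

theorem moebius_ap (m : ℕ) (hm : 1 ≤ m) (r : ℕ) (hr : r < m) :
    OrthPoly (fun q => (μ (m * q + r) : ℂ)) := by
  classical
  intro P
  have hm0 : (m : ℝ) ≠ 0 := by positivity
  have hmC : (m : ℂ) ≠ 0 := by exact_mod_cast hm0
  let P' : ℝ[X] := P.comp (C ((m : ℝ)⁻¹) * (X - C (r : ℝ)))
  let Q : ℕ → ℝ[X] := fun a => P' + C ((a : ℝ) / m) * (X - C (r : ℝ))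
  have key : ∀ M : ℕ, ∑ q ∈ Finset.range M, (μ (m * q + r) : ℂ) * (𝐞 (P.eval (q : ℝ)) : ℂ) =
      (1 / (m : ℂ)) * ∑ a ∈ Finset.range m, ∑ n ∈ Finset.range (m * M),
        (μ n : ℂ) * (𝐞 ((Q a).eval (n : ℝ)) : ℂ) := by
    intro M
    rw [Finset.sum_comm]
    have h1 : ∀ n : ℕ, ∑ a ∈ Finset.range m, (μ n : ℂ) * (𝐞 ((Q a).eval (n : ℝ)) : ℂ) =
        (μ n : ℂ) * (𝐞 (P'.eval (n : ℝ)) : ℂ) *
          (if (m : ℤ) ∣ ((n : ℤ) - r) then (m : ℂ) else 0) := by
      intro n
      rw [← root_filter m hm ((n : ℤ) - r), Finset.mul_sum]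
      apply Finset.sum_congr rfl
      intro a _
      have h2 : (Q a).eval (n : ℝ) = P'.eval (n : ℝ) + (a : ℝ) * ((((n : ℤ) - r : ℤ) : ℝ) / m) := by
        simp only [Q, eval_add, eval_mul, eval_C, eval_sub, eval_X]
        push_cast
        ring
      rw [h2, AddChar.map_add_eq_mul]
      push_cast
      ring
    rw [Finset.sum_congr rfl (fun n _ => h1 n), sum_range_mul]
    have h8 := Finset.sum_eq_single_of_mem (s := Finset.range m)
      (f := fun i => ∑ q ∈ Finset.range M, (μ (m * q + i) : ℂ) *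
        (𝐞 (P'.eval ((m * q + i : ℕ) : ℝ)) : ℂ) *
          (if (m : ℤ) ∣ (((m * q + i : ℕ) : ℤ) - r) then (m : ℂ) else 0)) r
      (Finset.mem_range.2 hr) ?_
    · rw [h8, Finset.mul_sum]
      apply Finset.sum_congr rfl
      intro q _
      have h3 : (m : ℤ) ∣ (((m * q + r : ℕ) : ℤ) - r) := ⟨q, by push_cast; ring⟩
      rw [if_pos h3]
      have h4 : P'.eval (((m * q + r : ℕ)) : ℝ) = P.eval (q : ℝ) := by
        simp only [P', eval_comp, eval_mul, eval_C, eval_sub, eval_X]
        congr 1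
        push_cast
        field_simp
        ring
      rw [h4]
      field_simp
    · intro s hs hsr
      apply Finset.sum_eq_zero
      intro q _
      have h3 : ¬ (m : ℤ) ∣ (((m * q + s : ℕ) : ℤ) - r) := by
        rintro ⟨t, ht⟩
        apply hsr
        have hs' := Finset.mem_range.1 hs
        have h5 : ((s : ℤ) - r) = m * (t - q) := by push_cast at ht; linarith
        have h6 : t - q = 0 := by
          by_contra hne
          rcases lt_or_gt_of_ne hne with h7 | h7
          · have : (m : ℤ) * (t - q) ≤ m * (-1) := by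
              apply mul_le_mul_of_nonneg_left (by omega) (by omega)
            omega
          · have : (m : ℤ) * 1 ≤ m * (t - q) := by
              apply mul_le_mul_of_nonneg_left (by omega) (by omega)
            omega
        rw [h6, mul_zero] at h5
        omega
      rw [if_neg h3, mul_zero]
  have h2 : ∀ a, Tendsto (fun M : ℕ => (∑ n ∈ Finset.range (m * M),
        (μ n : ℂ) * (𝐞 ((Q a).eval (n : ℝ)) : ℂ)) / ((m * M : ℕ) : ℂ)) atTop (𝓝 0) := by
    intro a
    have h3 : Tendsto (fun N : ℕ => m * N) atTop atTop :=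
      tendsto_id.const_mul_atTop' (by omega)
    exact (moebius_range (Q a)).comp h3
  have h3 := tendsto_finsetSum (Finset.range m) (fun a _ => h2 a)
  rw [Finset.sum_const_zero] at h3
  refine h3.congr fun M => ?_
  beta_reduce
  rw [key, ← Finset.sum_div]
  push_cast
  field_simp

theorem residue_split (a : ℕ → ℂ) (K : ℝ) (ha : ∀ n, ‖a n‖ ≤ K) (m : ℕ) (hm : 1 ≤ m)
    (h : ∀ r < m, Tendsto (fun M : ℕ => (∑ q ∈ Finset.range M, a (m * q + r)) / (M : ℂ)) atTop
      (𝓝 0)) :
    Tendsto (fun N : ℕ => (∑ n ∈ Finset.range N, a n) / (N : ℂ)) atTop (𝓝 0) := by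
  have hK : 0 ≤ K := (norm_nonneg _).trans (ha 0)
  have h1 : Tendsto (fun N : ℕ => N / m) atTop atTop := Nat.tendsto_div_const_atTop (by omega)
  have h2 := tendsto_finsetSum (Finset.range m)
    (fun r hr => ((h r (Finset.mem_range.1 hr)).norm.comp h1))
  simp only [norm_zero, Finset.sum_const_zero] at h2
  have h3 : Tendsto (fun N : ℕ => (m * K) / (N : ℝ)) atTop (𝓝 0) :=
    tendsto_const_div_atTop_nhds_zero_nat _
  have h4 := h2.add h3
  rw [add_zero] at h4
  rw [tendsto_zero_iff_norm_tendsto_zero]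
  refine squeeze_zero' (Eventually.of_forall fun N => norm_nonneg _) ?_ h4
  filter_upwards [eventually_ge_atTop m] with N hN
  have hM : 1 ≤ N / m := (Nat.one_le_div_iff (by omega)).2 hN
  have hN0 : (0 : ℝ) < N := by
    have : 0 < N := by omega
    exact_mod_cast this
  have h5 : N = m * (N / m) + N % m := (Nat.div_add_mod N m).symm
  have h6 : ∑ n ∈ Finset.range N, a n = ∑ r ∈ Finset.range m, ∑ q ∈ Finset.range (N / m),
      a (m * q + r) + ∑ s ∈ Finset.range (N % m), a (m * (N / m) + s) := by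
    conv_lhs => rw [h5]
    rw [Finset.sum_range_add, sum_range_mul]
  rw [norm_div, Complex.norm_natCast, h6]
  have h7 : ‖∑ s ∈ Finset.range (N % m), a (m * (N / m) + s)‖ ≤ m * K := by
    refine (norm_sum_le _ _).trans ?_
    calc _ ≤ ∑ s ∈ Finset.range (N % m), K := Finset.sum_le_sum fun s _ => ha _
      _ = (N % m : ℕ) * K := by simp
      _ ≤ m * K := by
        gcongr
        exact (Nat.mod_lt N (by omega)).le
  calc _ ≤ (∑ r ∈ Finset.range m, ‖∑ q ∈ Finset.range (N / m), a (m * q + r)‖ + m * K) / N := by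
        gcongr
        refine (norm_add_le _ _).trans (add_le_add (norm_sum_le _ _) h7)
    _ = (∑ r ∈ Finset.range m, ‖∑ q ∈ Finset.range (N / m), a (m * q + r)‖ / N) + m * K / N := by
        rw [add_div, Finset.sum_div]
    _ ≤ _ := by
        gcongr with r hr
        simp only [Function.comp_apply]
        rw [norm_div, Complex.norm_natCast]
        have : (0 : ℝ) < (N / m : ℕ) := by exact_mod_cast hM
        gcongr
        exact Nat.div_le_self N m

end Pool.Agent.Helper40.Wiener
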