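import Mathlib
import Pool.Agent.Helper40.Wiener6
import Pool.Agent.Helper40.MobDefs

open Filter Topology MeasureTheory Polynomial
open scoped InnerProductSpace ComplexConjugate FourierTransform ArithmeticFunction.Moebius
open scoped ComplexOrder

set_option linter.unusedSectionVars false

namespace Pool.Agent.Helper40.Wiener

universe u

variable {A : Type u} [CStarAlgebra A]

open Pool.Agent.Helper40.Mob

/-- the GNS representation -/
theorem exists_gns (ρ : A →L[ℂ] ℂ) (hρ : IsState ρ) :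
    ∃ (H : Type u) (_ : NormedAddCommGroup H) (_ : InnerProductSpace ℂ H) (_ : CompleteSpace H)
      (π : A →⋆ₐ[ℂ] (H →L[ℂ] H)) (ζ : H), ∀ a, ρ a = inner ℂ ζ (π a ζ) := by
  let _ := CStarAlgebra.spectralOrder A
  have := CStarAlgebra.spectralOrderedRing A
  have hpos : ∀ a : A, 0 ≤ a → 0 ≤ (ρ : A →ₗ[ℂ] ℂ) a := by
    intro a ha
    obtain ⟨b, rfl⟩ := CStarAlgebra.nonneg_iff_eq_star_mul_self.1 ha
    obtain ⟨r, hr, h1⟩ := hρ.1 b
    change 0 ≤ ρ (star b * b)
    rw [h1]
    exact_mod_cast hr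
  let f : A →ₚ[ℂ] ℂ := PositiveLinearMap.mk₀ (ρ : A →ₗ[ℂ] ℂ) hpos
  refine ⟨f.GNS, inferInstance, inferInstance, inferInstance, f.gnsStarAlgHom,
    ((f.toPreGNS 1 : f.PreGNS) : f.GNS), fun a => ?_⟩
  change ρ a = inner ℂ ((f.toPreGNS 1 : f.PreGNS) : f.GNS)
    (f.gnsNonUnitalStarAlgHom a ((f.toPreGNS 1 : f.PreGNS) : f.GNS))
  rw [PositiveLinearMap.gnsNonUnitalStarAlgHom_apply_coe,
    UniformSpace.Completion.inner_coe, PositiveLinearMap.preGNS_inner_def]
  simp only [PositiveLinearMap.ofPreGNS_toPreGNS, star_one, one_mul,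
    PositiveLinearMap.leftMulMapPreGNS_apply, mul_one]
  rfl

section goodL

variable {E F : Type*} [NormedAddCommGroup E] [NormedSpace ℂ E] [NormedAddCommGroup F]
  [NormedSpace ℂ F]

/-- vectors with good averages -/
def goodL (T : ℕ → E →ₗ[ℂ] F) (ν : ℕ → ℂ) : Submodule ℂ E where
  carrier := {ξ | Tendsto (fun N : ℕ => ‖∑ n ∈ Finset.range N, ν n • T n ξ‖ / (N : ℝ)) atTop (𝓝 0)}
  add_mem' := by
    intro a b ha hb
    have h := Tendsto.add ha hb
    rw [add_zero] at h
    refine squeeze_zero (fun N => by positivity) (fun N => ?_) h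
    rw [← add_div]
    gcongr
    have : ∑ n ∈ Finset.range N, ν n • T n (a + b) =
      ∑ n ∈ Finset.range N, ν n • T n a + ∑ n ∈ Finset.range N, ν n • T n b := by
      rw [← Finset.sum_add_distrib]
      apply Finset.sum_congr rfl
      intro n _
      rw [map_add, smul_add]
    rw [this]
    exact norm_add_le _ _
  zero_mem' := by
    simp
  smul_mem' := by
    intro c a ha
    have h := Tendsto.const_mul ‖c‖ ha
    rw [mul_zero] at h
    refine h.congr (fun N => ?_)
    rw [← mul_div_assoc, ← norm_smul, Finset.smul_sum]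
    congr 2
    apply Finset.sum_congr rfl
    intro n _
    rw [map_smul, smul_comm]

theorem goodL_closed (T : ℕ → E →ₗ[ℂ] F) (ν : ℕ → ℂ) (hν : ∀ n, ‖ν n‖ ≤ 1)
    (hT : ∀ n ξ, ‖T n ξ‖ ≤ ‖ξ‖) : IsClosed (goodL T ν : Set E) := by
  rw [← closure_subset_iff_isClosed]
  intro ξ hξ
  rw [Metric.mem_closure_iff] at hξ
  change Tendsto _ _ _
  rw [Metric.tendsto_atTop]
  intro ε hε
  obtain ⟨η, hη, hd⟩ := hξ (ε / 2) (by positivity)
  have h1 : Tendsto (fun N : ℕ => ‖∑ n ∈ Finset.range N, ν n • T n η‖ / (N : ℝ)) atTop (𝓝 0) := hη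
  rw [Metric.tendsto_atTop] at h1
  obtain ⟨N0, hN0⟩ := h1 (ε / 2) (by positivity)
  refine ⟨N0, fun N hN => ?_⟩
  have h2 := hN0 N hN
  rw [Real.dist_eq, sub_zero, abs_of_nonneg (by positivity)] at h2 ⊢
  have h3 : ‖∑ n ∈ Finset.range N, ν n • T n ξ‖ ≤ ‖∑ n ∈ Finset.range N, ν n • T n η‖ +
      N * ‖ξ - η‖ := by
    have e1 : ∑ n ∈ Finset.range N, ν n • T n ξ = ∑ n ∈ Finset.range N, ν n • T n η +
        ∑ n ∈ Finset.range N, ν n • T n (ξ - η) := by
      rw [← Finset.sum_add_distrib]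
      apply Finset.sum_congr rfl
      intro n _
      rw [map_sub, smul_sub]
      abel
    rw [e1]
    refine (norm_add_le _ _).trans ?_
    gcongr
    calc _ ≤ ∑ n ∈ Finset.range N, ‖ν n • T n (ξ - η)‖ := norm_sum_le _ _
      _ ≤ ∑ n ∈ Finset.range N, ‖ξ - η‖ := by
        apply Finset.sum_le_sum
        intro n _
        rw [norm_smul]
        calc _ ≤ 1 * ‖ξ - η‖ := by
              gcongr
              · exact hν n
              · exact hT n _
          _ = _ := one_mul _
      _ = _ := by simp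
  rcases Nat.eq_zero_or_pos N with h0 | h0
  · subst h0; simpa using hε
  have hN : (0 : ℝ) < N := by exact_mod_cast h0
  rw [dist_eq_norm] at hd
  calc _ ≤ (‖∑ n ∈ Finset.range N, ν n • T n η‖ + N * ‖ξ - η‖) / N := by gcongr
    _ = ‖∑ n ∈ Finset.range N, ν n • T n η‖ / N + ‖ξ - η‖ := by field_simp
    _ < ε / 2 + ε / 2 := by gcongr
    _ = ε := by ring

end goodL

theorem iterate_norm_le (α : A →⋆ₐ[ℂ] A) (n : ℕ) (x : A) : ‖α^[n] x‖ ≤ ‖x‖ := by
  induction n with
  | zero => simp
  | succ n ih =>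
    rw [Function.iterate_succ', Function.comp_apply]
    exact (NonUnitalStarAlgHom.norm_apply_le α _).trans ih

/-- iterates as linear maps -/
def iterL (α : A →⋆ₐ[ℂ] A) (n : ℕ) : A →ₗ[ℂ] A where
  toFun := α^[n]
  map_add' := fun x y => iterate_map_add α n x y
  map_smul' := by
    intro c x
    simp only [RingHom.id_apply]
    induction n with
    | zero => rfl
    | succ n ih => rw [Function.iterate_succ', Function.comp_apply, ih, map_smul]; rfl

theorem mdiff_comm (α : A →⋆ₐ[ℂ] A) (m : ℕ) (x : A) (r i : ℕ) :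
    (mdiff α m)^[i] (α^[r] x) = α^[r] ((mdiff α m)^[i] x) := by
  have h1 : Function.Commute (mdiff α m) α := by
    intro y
    rw [mdiff, mdiff, map_mul, map_star]
    congr 1
    exact (Function.iterate_succ_apply α m y).symm.trans (Function.iterate_succ_apply' α m y)
  exact ((h1.iterate_left i).iterate_right r).eq x

theorem pg_coe {G : Subgroup (unitary A)} (g : ℕ → G) (x : ℕ → A)
    (hx : ∀ i, ((g i : unitary A) : A) = x i) (k n : ℕ) :
    (((pg g k n : G) : unitary A) : A) = PW x (ex 0) (k + 1) n := by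
  induction k with
  | zero => simp [pg, PW, ex, hx]
  | succ k ih =>
    have h1 : PW x (ex 0) (k + 1 + 1) n = PW x (ex 0) (k + 1) n * x (k + 1) ^ (ex 0 (k + 1) n) := rfl
    have h2 : pg g (k + 1) n = pg g k n * g (k + 1) ^ (n.choose (k + 1)) := rfl
    rw [h1, h2, ← ih, ← hx, ex, if_pos (by omega)]
    simp

theorem nc_torus (α : A →⋆ₐ[ℂ] A) (G : Subgroup (unitary A))
    (hdense : Dense ((Submodule.span ℂ {x : A | ∃ g ∈ G, (g : A) = x} : Submodule ℂ A) : Set A))
    (hcomm : ∀ g ∈ G, ∀ h ∈ G, ∃ c : ℂ, (g : A) * (h : A) = c • ((h : A) * (g : A)))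
    (hα : ∀ g ∈ G, ∃ g' ∈ G, (g' : A) = α (g : A))
    (hqd : ∀ g ∈ G, ∃ m : ℕ, 1 ≤ m ∧ ∃ k : ℕ, ∃ c : ℂ, (mdiff α m)^[k] (g : A) = c • (1 : A))
    (ρ : A →L[ℂ] ℂ) (hρ : IsState ρ) (u : A) :
    Tendsto (fun N : ℕ => (∑ n ∈ Finset.Icc 1 N, (μ n : ℂ) * ρ (α^[n] u)) / (N : ℂ))
      atTop (𝓝 0) := by
  classical
  have hnt : Nontrivial A := by
    by_contra h
    rw [not_nontrivial_iff_subsingleton] at h
    have h1 : ρ = 0 := by
      ext x
      rw [Subsingleton.elim x 0]
      simp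
    have := hρ.2
    rw [h1, norm_zero] at this
    exact zero_ne_one this
  have hn1 : ∀ g : unitary A, ‖(g : A)‖ = 1 := fun g => CStarRing.norm_coe_unitary g
  have hcomm' : ∀ g ∈ G, ∀ h ∈ G, ∃ θ : ℝ, (g : A) * (h : A) = (𝐞 θ : ℂ) • ((h : A) * (g : A)) := by
    intro g hg h hh
    obtain ⟨c, hc⟩ := hcomm g hg h hh
    have h1 : ‖c‖ = 1 := by
      have h2 : ‖((g * h : unitary A) : A)‖ = ‖c • ((h * g : unitary A) : A)‖ := by
        rw [Submonoid.coe_mul, Submonoid.coe_mul, hc]
      rw [norm_smul, hn1, hn1, mul_one] at h2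
      exact h2.symm
    obtain ⟨θ, hθ⟩ := exists_phase c h1
    exact ⟨θ, by rw [hc, hθ]⟩
  have hρb : ∀ x, ‖ρ x‖ ≤ ‖x‖ := fun x => by
    have := ρ.le_opNorm x
    rwa [hρ.2, one_mul] at this
  -- reduction to group elements
  suffices hG : ∀ g ∈ G, Tendsto (fun N : ℕ =>
      (∑ n ∈ Finset.range N, (μ n : ℂ) * ρ (α^[n] (g : A))) / (N : ℂ)) atTop (𝓝 0) by
    let T : ℕ → A →ₗ[ℂ] ℂ := fun n => (ρ : A →ₗ[ℂ] ℂ) ∘ₗ iterL α n
    have hT : ∀ n x, ‖T n x‖ ≤ ‖x‖ := fun n x => (hρb _).trans (iterate_norm_le α n x)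
    have hcl := goodL_closed T (fun n => (μ n : ℂ)) norm_moebius hT
    have hle : Submodule.span ℂ {x : A | ∃ g ∈ G, (g : A) = x} ≤ goodL T (fun n => (μ n : ℂ)) := by
      rw [Submodule.span_le]
      rintro x ⟨g, hg, rfl⟩
      have h1 := (hG g hg).norm
      rw [norm_zero] at h1
      change Tendsto _ _ _
      refine h1.congr fun N => ?_
      rw [norm_div, Complex.norm_natCast]
      rfl
    have hu : u ∈ goodL T (fun n => (μ n : ℂ)) := by
      have h2 : closure ((Submodule.span ℂ {x : A | ∃ g ∈ G, (g : A) = x} : Submodule ℂ A) : Set A)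
          ⊆ (goodL T (fun n => (μ n : ℂ)) : Set A) := closure_minimal hle hcl
      exact h2 (hdense u)
    have hu' : Tendsto (fun N : ℕ => ‖∑ n ∈ Finset.range N, (μ n : ℂ) • T n u‖ / (N : ℝ))
      atTop (𝓝 0) := hu
    apply Icc_of_range _ ‖u‖
    · intro n
      rw [norm_mul]
      calc _ ≤ 1 * ‖u‖ := by
            gcongr
            · exact norm_moebius n
            · exact hT n u
        _ = _ := one_mul _
    · rw [tendsto_zero_iff_norm_tendsto_zero]
      refine hu'.congr fun N => ?_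
      rw [norm_div, Complex.norm_natCast]
      rfl
  intro g hg
  obtain ⟨H, _, _, _, π₀, ζ, hζ⟩ := exists_gns ρ hρ
  obtain ⟨m, hm, k, c, hk⟩ := hqd g hg
  -- the group and its representation
  let π : G →* (H →L[ℂ] H) :=
    { toFun := fun x => π₀ ((x : unitary A) : A)
      map_one' := by simp
      map_mul' := fun x y => by simp }
  have hπ : ∀ x, π x ∈ unitary (H →L[ℂ] H) := by
    intro x
    have h1 := (x : unitary A).2
    exact Unitary.map_mem π₀ h1
  have hπc : ∀ x y, ∃ c : ℂ, ‖c‖ = 1 ∧ π (x * y) = c • π (y * x) := by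
    intro x y
    obtain ⟨θ, hθ⟩ := hcomm' x x.2 y y.2
    refine ⟨(𝐞 θ : ℂ), Circle.norm_coe _, ?_⟩
    change π₀ _ = _ • π₀ _
    rw [← map_smul]
    congr 1
  -- iterates stay in the group
  have hGα : ∀ (r : ℕ) (x : unitary A), x ∈ G → ∃ y ∈ G, (y : A) = α^[r] (x : A) := by
    intro r
    induction r with
    | zero => intro x hx; exact ⟨x, hx, rfl⟩
    | succ r ih =>
      intro x hx
      obtain ⟨y, hy, h1⟩ := ih x hx
      obtain ⟨z, hz, h2⟩ := hα y hy
      exact ⟨z, hz, by rw [Function.iterate_succ', Function.comp_apply, ← h1, h2]⟩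
  have hGd : ∀ (i : ℕ) (x : unitary A), x ∈ G → ∃ y ∈ G, (y : A) = (mdiff α m)^[i] (x : A) := by
    intro i
    induction i with
    | zero => intro x hx; exact ⟨x, hx, rfl⟩
    | succ i ih =>
      intro x hx
      obtain ⟨y, hy, h1⟩ := ih x hx
      obtain ⟨z, hz, h2⟩ := hGα m y hy
      refine ⟨z * y⁻¹, G.mul_mem hz (G.inv_mem hy), ?_⟩
      rw [Function.iterate_succ', Function.comp_apply, ← h1, mdiff, ← h2]
      rfl
  apply residue_split _ 1 _ m hm
  · intro r hr
    -- the sequence in the residue class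
    obtain ⟨g', hg', h1⟩ := hGα r g hg
    choose y hy1 hy2 using fun i => hGd i g' hg'
    let x : ℕ → A := fun i => (mdiff α m)^[i] (g' : A)
    let gg : ℕ → G := fun i => ⟨y i, hy1 i⟩
    have hgx : ∀ i, ((gg i : unitary A) : A) = x i := fun i => hy2 i
    have hx : ∀ i j, ∃ θ : ℝ, x i * x j = (𝐞 θ : ℂ) • (x j * x i) := by
      intro i j
      rw [← hgx, ← hgx]
      exact hcomm' _ (gg i).2 _ (gg j).2
    have hstep : ∀ i, α^[m] (x i) = x (i + 1) * x i := by
      intro i
      have h2 : x (i + 1) = α^[m] (x i) * star (x i) := by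
        simp only [x]
        rw [Function.iterate_succ', Function.comp_apply, mdiff]
      have h3 : star (x i) * x i = 1 := by
        rw [← hgx]
        exact (Unitary.mem_iff.1 (gg i : unitary A).2).1
      rw [h2, mul_assoc, h3, mul_one]
    have hone : α^[m] (1 : A) = 1 := iterate_map_one α m
    have hsm : ∀ (c : ℂ) (z : A), α^[m] (c • z) = c • α^[m] z := fun c z =>
      map_smul (iterL α m) c z
    have hxk : x k = c • (1 : A) := by
      simp only [x]
      rw [h1, mdiff_comm, hk]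
      rw [show α^[r] (c • (1 : A)) = c • α^[r] (1 : A) from map_smul (iterL α r) c 1,
        iterate_map_one]
    have hc1 : ‖c‖ = 1 := by
      have h2 : ‖x k‖ = 1 := by rw [← hgx]; exact hn1 _
      rw [hxk, norm_smul, norm_one, mul_one] at h2
      exact h2
    have hxk1 : x (k + 1) = (𝐞 (0 : ℝ) : ℂ) • (1 : A) := by
      have h2 : x (k + 1) = α^[m] (x k) * star (x k) := by
        simp only [x]
        rw [Function.iterate_succ', Function.comp_apply, mdiff]
      rw [h2, hxk, hsm, hone, star_smul, star_one, smul_mul_smul_comm, mul_one,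
        Complex.star_def, Complex.mul_conj, Complex.normSq_eq_norm_sq, hc1]
      simp
    obtain ⟨f, hf, hiter⟩ := beta_iter (α^[m]) (fun a b => iterate_map_mul α m a b) hsm hone x hx
      hstep (k + 1) ⟨0, hxk1⟩ 0 (by omega)
    have hval : ∀ q : ℕ, α^[m * q + r] (g : A) = f q • (((pg gg k q : G) : unitary A) : A) := by
      intro q
      rw [pg_coe gg x hgx, ← hiter q, Function.iterate_add, Function.comp_apply, ← h1,
        Function.iterate_mul]
      rfl
    obtain ⟨P, hP⟩ := hf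
    have hν : OrthPoly (fun q => (μ (m * q + r) : ℂ) * f q) := by
      have := (moebius_ap m hm r hr).mul_phase P
      simpa only [hP] using this
    have hmain := main_thm π hπ hπc k gg (fun q => (μ (m * q + r) : ℂ) * f q) (fun q => by
      rw [norm_mul, hP, Circle.norm_coe, mul_one]
      exact norm_moebius _) hν ζ
    have h5 := hmain.const_mul ‖ζ‖
    rw [mul_zero] at h5
    rw [tendsto_zero_iff_norm_tendsto_zero]
    refine squeeze_zero (fun N => norm_nonneg _) (fun N => ?_) h5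
    rw [norm_div, Complex.norm_natCast, ← mul_div_assoc]
    gcongr
    have h6 : ∑ q ∈ Finset.range N, (μ (m * q + r) : ℂ) * ρ (α^[m * q + r] (g : A)) =
        inner ℂ ζ (∑ q ∈ Finset.range N, ((μ (m * q + r) : ℂ) * f q) • π (pg gg k q) ζ) := by
      rw [inner_sum]
      apply Finset.sum_congr rfl
      intro q _
      rw [hval, map_smul, smul_eq_mul, hζ, inner_smul_right, mul_assoc]
      rfl
    rw [h6]
    exact norm_inner_le_norm _ _
  · intro n
    rw [norm_mul]
    calc _ ≤ 1 * ‖(g : A)‖ := by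
          gcongr
          · exact norm_moebius n
          · exact (hρb _).trans (iterate_norm_le α n _)
      _ = _ := by rw [hn1, one_mul]

end Pool.Agent.Helper40.Wiener
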