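import Mathlib
open Set Filter Topology MeasureTheory
open scoped ENNReal NNReal

namespace Pool.Agent.Helper40.BaireAffine

section Baire

theorem exists_open_small {X : Type*} [TopologicalSpace X] [CompactSpace X] [T2Space X]
    [Nonempty X] {E : Type*} [NormedAddCommGroup E] (h : ℕ → X → E) (f : X → E)
    (hc : ∀ n, Continuous (h n)) (hf : ∀ x, Tendsto (fun n => h n x) atTop (𝓝 (f x)))
    {δ : ℝ} (hδ : 0 < δ) :
    ∃ (W : Set X) (N : ℕ), IsOpen W ∧ W.Nonempty ∧ ∀ x ∈ W, ‖f x - h N x‖ ≤ δ := by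
  let F : ℕ → Set X := fun N => {x | ∀ n, N ≤ n → ‖h n x - h N x‖ ≤ δ}
  have hcl : ∀ N, IsClosed (F N) := by
    intro N
    have : F N = ⋂ (n : ℕ) (_ : N ≤ n), {x | ‖h n x - h N x‖ ≤ δ} := by
      ext x; simp [F]
    rw [this]
    refine isClosed_iInter fun n => isClosed_iInter fun _ => ?_
    exact isClosed_le ((hc n).sub (hc N)).norm continuous_const
  have hcov : ⋃ N, F N = univ := by
    refine eq_univ_of_forall fun x => ?_
    have hC : CauchySeq (fun n => h n x) := (hf x).cauchySeq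
    obtain ⟨N, hN⟩ := Metric.cauchySeq_iff'.1 hC δ hδ
    refine mem_iUnion.2 ⟨N, fun n hn => ?_⟩
    have := hN n hn
    rw [dist_eq_norm] at this
    exact this.le
  obtain ⟨N, hN⟩ := nonempty_interior_of_iUnion_of_closed hcl hcov
  refine ⟨interior (F N), N, isOpen_interior, hN, fun x hx => ?_⟩
  have hx' : x ∈ F N := interior_subset hx
  refine le_of_tendsto (((hf x).sub_const (h N x)).norm) ?_
  filter_upwards [eventually_ge_atTop N] with n hn using hx' n hn

theorem no_two_dense {X : Type*} [TopologicalSpace X] [CompactSpace X] [T2Space X]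
    [Nonempty X] (h : ℕ → X → ℝ) (f : X → ℝ)
    (hc : ∀ n, Continuous (h n)) (hf : ∀ x, Tendsto (fun n => h n x) atTop (𝓝 (f x)))
    {a b : ℝ} (ha : Dense {x | f x ≤ a}) (hb : Dense {x | b ≤ f x}) : b ≤ a := by
  by_contra hab
  push Not at hab
  obtain ⟨W, N, hWo, hWne, hW⟩ := exists_open_small h f hc hf (δ := (b - a) / 4) (by linarith)
  obtain ⟨x, hxW, hxa⟩ := ha.inter_open_nonempty W hWo hWne
  have hx1 := hW x hxW
  rw [Real.norm_eq_abs, abs_le] at hx1
  simp only [mem_ofPred_eq] at hxa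
  have hO : IsOpen (W ∩ {y | h N y < a + (b - a) / 2}) :=
    hWo.inter (isOpen_lt (hc N) continuous_const)
  have hne : (W ∩ {y | h N y < a + (b - a) / 2}).Nonempty :=
    ⟨x, hxW, by simp only [mem_ofPred_eq]; linarith⟩
  obtain ⟨y, hy, hyb⟩ := hb.inter_open_nonempty _ hO hne
  have hy1 := hW y hy.1
  have hy2 := hy.2
  rw [Real.norm_eq_abs, abs_le] at hy1
  simp only [mem_ofPred_eq] at hyb hy2
  linarith

end Baire

section Defs

variable {V : Type*} [AddCommGroup V] [Module ℝ V]
variable {E : Type*} [AddCommGroup E] [Module ℝ E]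

/-- `f : K → E` is affine: it respects convex combinations that lie in `K`. -/
def IsAffineFun (K : Set V) (f : K → E) : Prop :=
  ∀ (x y z : K) (t : ℝ), 0 ≤ t → t ≤ 1 →
    (z : V) = t • (x : V) + (1 - t) • (y : V) → f z = t • f x + (1 - t) • f y

end Defs

section Bounded

variable {V : Type*} [AddCommGroup V] [Module ℝ V] [TopologicalSpace V]
  [IsTopologicalAddGroup V] [ContinuousSMul ℝ V] [T2Space V]
variable {E : Type*} [NormedAddCommGroup E] [NormedSpace ℝ E]

theorem bounded_of_baireOne {K : Set V} (hK : IsCompact K) (hKc : Convex ℝ K)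
    (f : K → E) (hfa : IsAffineFun K f) (h : ℕ → K → E) (hc : ∀ n, Continuous (h n))
    (hf : ∀ x, Tendsto (fun n => h n x) atTop (𝓝 (f x))) : ∃ R : ℝ, 0 ≤ R ∧ ∀ x, ‖f x‖ ≤ R := by
  classical
  rcases K.eq_empty_or_nonempty with hKe | hKne
  · subst hKe
    exact ⟨0, le_rfl, fun x => (Set.notMem_empty _ x.2).elim⟩
  have : CompactSpace K := isCompact_iff_compactSpace.1 hK
  have : Nonempty K := hKne.to_subtype
  obtain ⟨W, N, hWo, ⟨x0, hx0⟩, hW⟩ := exists_open_small h f hc hf (δ := 1) one_pos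
  obtain ⟨O, hO, rfl⟩ := isOpen_induced_iff.1 hWo
  obtain ⟨M, hM⟩ : ∃ M : ℝ, ∀ x, ‖h N x‖ ≤ M := by
    obtain ⟨M, hM⟩ := (isCompact_range (hc N)).isBounded.exists_norm_le
    exact ⟨M, fun x => hM _ (mem_range_self x)⟩
  have hfW : ∀ x : K, (x : V) ∈ O → ‖f x‖ ≤ M + 1 := by
    intro x hx
    have h1 := hW x hx
    have h2 := hM x
    calc ‖f x‖ = ‖(f x - h N x) + h N x‖ := by congr 1; abel
      _ ≤ ‖f x - h N x‖ + ‖h N x‖ := norm_add_le _ _
      _ ≤ M + 1 := by linarith
  -- tube lemma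
  have hev : ∀ᶠ t : ℝ in 𝓝 0, ∀ y : K, (1 - t) • (x0 : V) + t • (y : V) ∈ O := by
    have hcont : Continuous (fun p : ℝ × K => (1 - p.1) • (x0 : V) + p.1 • (p.2 : V)) := by
      fun_prop
    have := (isCompact_univ (X := K)).eventually_forall_of_forall_eventually
      (x₀ := (0 : ℝ)) (P := fun t y => (1 - t) • (x0 : V) + t • (y : V) ∈ O) ?_
    · simpa using this
    · intro y _
      have : (fun p : ℝ × K => (1 - p.1) • (x0 : V) + p.1 • (p.2 : V)) ⁻¹' O ∈ 𝓝 ((0 : ℝ), y) := by
        refine hcont.continuousAt.preimage_mem_nhds ?_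
        refine hO.mem_nhds ?_
        simpa using hx0
      exact this
  have hev2 : ∀ᶠ t : ℝ in 𝓝[>] 0, (∀ y : K, (1 - t) • (x0 : V) + t • (y : V) ∈ O) ∧ 0 < t ∧ t < 1 := by
    filter_upwards [nhdsWithin_le_nhds hev, self_mem_nhdsWithin,
      nhdsWithin_le_nhds (Iio_mem_nhds (show (0 : ℝ) < 1 by norm_num))] with t h1 h2 h3
    exact ⟨h1, h2, h3⟩
  obtain ⟨t, ht, ht0, ht1⟩ := hev2.exists
  have hx0b := hfW x0 hx0
  have hM1 : 0 ≤ M + 1 := le_trans (norm_nonneg _) hx0b
  refine ⟨(2 * (M + 1)) / t, by positivity, fun y => ?_⟩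
  have hz : (1 - t) • (x0 : V) + t • (y : V) ∈ K :=
    hKc x0.2 y.2 (by linarith) ht0.le (by ring)
  have hfz := hfW ⟨_, hz⟩ (ht y)
  have haff := hfa y x0 ⟨_, hz⟩ t ht0.le ht1.le (by simp [add_comm])
  have : t • f y = f ⟨_, hz⟩ - (1 - t) • f x0 := by rw [haff]; abel
  have h3 : ‖t • f y‖ ≤ 2 * (M + 1) := by
    rw [this]
    calc ‖f ⟨_, hz⟩ - (1 - t) • f x0‖ ≤ ‖f ⟨_, hz⟩‖ + ‖(1 - t) • f x0‖ := norm_sub_le _ _
      _ = ‖f ⟨_, hz⟩‖ + (1 - t) * ‖f x0‖ := by
          rw [norm_smul, Real.norm_of_nonneg (by linarith)]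
      _ ≤ (M + 1) + 1 * (M + 1) := by
          gcongr
          linarith
      _ = 2 * (M + 1) := by ring
  rw [norm_smul, Real.norm_of_nonneg ht0.le] at h3
  rw [le_div_iff₀ ht0]
  linarith

end Bounded


section Bary

variable {V : Type*} [AddCommGroup V] [Module ℝ V] [TopologicalSpace V]
  [IsTopologicalAddGroup V] [ContinuousSMul ℝ V] [T2Space V]

theorem integrable_of_continuous {X : Type*} [TopologicalSpace X]
    [CompactSpace X] [MeasurableSpace X] [BorelSpace X]
    {F : Type*} [NormedAddCommGroup F]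
    (μ : Measure X) [IsFiniteMeasure μ] (g : X → F) (hg : Continuous g) : Integrable g μ := by
  have hm : AEStronglyMeasurable g μ := by
    have := ContinuousOn.aestronglyMeasurable_of_isCompact (μ := μ) (f := g) (s := univ)
      hg.continuousOn isCompact_univ MeasurableSet.univ
    simpa using this
  obtain ⟨M, hM⟩ := (isCompact_range hg).isBounded.exists_norm_le
  exact Integrable.of_bound hm M (Eventually.of_forall fun x => hM _ (mem_range_self x))

/-- Existence of barycenters. -/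
theorem exists_bary {K : Set V} [CompactSpace K] [MeasurableSpace K] [BorelSpace K]
    (μ : Measure K) [IsProbabilityMeasure μ] (S : Set V) (hS : IsCompact S) (hSc : Convex ℝ S)
    (hμ : ∀ᵐ x : K ∂μ, (x : V) ∈ S) :
    ∃ y ∈ S, ∀ l : V →L[ℝ] ℝ, l y = ∫ x : K, l x ∂μ := by
  classical
  have key := hS.inter_iInter_nonempty (fun l : V →L[ℝ] ℝ => {y : V | l y = ∫ x : K, l x ∂μ})
    (fun l => isClosed_eq l.continuous continuous_const) ?_
  · obtain ⟨y, hyS, hy⟩ := key
    exact ⟨y, hyS, fun l => by simpa using mem_iInter.1 hy l⟩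
  intro u
  let L : V →L[ℝ] (u → ℝ) := ContinuousLinearMap.pi (fun l => (l : V →L[ℝ] ℝ))
  have hLS : IsCompact (L '' S) := hS.image L.continuous
  have hLc : Convex ℝ (L '' S) := hSc.linear_image L.toLinearMap
  have hint : ∫ x : K, L x ∂μ ∈ L '' S := by
    refine hLc.integral_mem hLS.isClosed ?_ ?_
    · filter_upwards [hμ] with x hx using mem_image_of_mem _ hx
    · exact integrable_of_continuous μ _ (L.continuous.comp continuous_subtype_val)
  obtain ⟨y, hyS, hy⟩ := hint
  refine ⟨y, hyS, ?_⟩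
  refine mem_iInter₂.2 fun l hl => ?_
  have h1 : L y ⟨l, hl⟩ = l y := rfl
  have h2 : (∫ x : K, L x ∂μ) ⟨l, hl⟩ = ∫ x : K, l x ∂μ := by
    have := (ContinuousLinearMap.proj (R := ℝ) (φ := fun _ : u => ℝ) ⟨l, hl⟩).integral_comp_comm
      (integrable_of_continuous μ _ (L.continuous.comp (continuous_subtype_val (p := (· ∈ K)))))
    exact this.symm
  show l y = ∫ x : K, l x ∂μ
  rw [← h1, hy, h2]

variable [LocallyConvexSpace ℝ V]

theorem eq_of_functionals {x y : V} (h : ∀ l : V →L[ℝ] ℝ, l x = l y) : x = y := by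
  by_contra hne
  obtain ⟨f, hf⟩ := geometric_hahn_banach_point_point hne
  exact absurd (h f) hf.ne

end Bary


section MT

variable {X : Type*} [MeasurableSpace X]

/-- A finitely additive set function dominated by a finite measure gives a signed measure. -/
theorem exists_signedMeasure (ν : Measure X) [IsFiniteMeasure ν] (g : Set X → ℝ) (C : ℝ)
    (hadd : ∀ A B, MeasurableSet A → MeasurableSet B → Disjoint A B → g (A ∪ B) = g A + g B)
    (hbd : ∀ A, MeasurableSet A → |g A| ≤ C * ν.real A) :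
    ∃ σ : SignedMeasure X, ∀ A, MeasurableSet A → σ A = g A := by
  classical
  have h0 : g ∅ = 0 := by
    have := hadd ∅ ∅ MeasurableSet.empty MeasurableSet.empty (by simp)
    simpa using this
  refine ⟨⟨fun A => if MeasurableSet A then g A else 0, by simp [h0], ?_, ?_⟩, ?_⟩
  · intro A hA
    simp [hA]
  · intro f hf hdisj
    have hU : MeasurableSet (⋃ i, f i) := MeasurableSet.iUnion hf
    simp only [hf, hU, if_true]
    have hfin : ∀ s : Finset ℕ, g (⋃ i ∈ s, f i) = ∑ i ∈ s, g (f i) := by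
      intro s
      induction s using Finset.induction_on with
      | empty => simp [h0]
      | insert a s ha ih =>
        rw [Finset.set_biUnion_insert, hadd _ _ (hf a) (s.measurableSet_biUnion fun i _ => hf i),
          ih, Finset.sum_insert ha]
        rw [Set.disjoint_iUnion₂_right]
        intro i hi
        exact hdisj (fun h => ha (h ▸ hi))
    have hfinν : ∀ s : Finset ℕ, ν.real (⋃ i ∈ s, f i) = ∑ i ∈ s, ν.real (f i) := by
      intro s
      exact measureReal_biUnion_finset (fun i _ j _ hij => hdisj hij) (fun i _ => hf i)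
    have htend : Tendsto (fun s : Finset ℕ => C * (ν.real (⋃ i, f i) - ∑ i ∈ s, ν.real (f i)))
        atTop (𝓝 0) := by
      have h1 : HasSum (fun i => ν.real (f i)) (ν.real (⋃ i, f i)) := by
        have h2 : ν (⋃ i, f i) = ∑' i, ν (f i) := measure_iUnion hdisj hf
        have h3 : ∀ i, ν (f i) ≠ ∞ := fun i => measure_ne_top ν _
        have h4 : ∑' i, ν (f i) ≠ ∞ := h2 ▸ measure_ne_top ν _
        have h5 := ENNReal.hasSum_toReal h4
        have h6 : ∑' i, (ν (f i)).toReal = (∑' i, ν (f i)).toReal :=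
          (ENNReal.tsum_toReal_eq h3).symm
        rw [h6, ← h2] at h5
        exact h5
      have h2 : Tendsto (fun s : Finset ℕ => C * (ν.real (⋃ i, f i) - ∑ i ∈ s, ν.real (f i)))
        atTop (𝓝 (C * (ν.real (⋃ i, f i) - ν.real (⋃ i, f i)))) :=
        (h1.const_sub _).const_mul C
      simpa using h2
    rw [HasSum]
    refine tendsto_iff_norm_sub_tendsto_zero.2 ?_
    refine squeeze_zero (fun _ => norm_nonneg _) (fun s => ?_) htend
    have hms : MeasurableSet (⋃ i ∈ s, f i) := s.measurableSet_biUnion fun i _ => hf i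
    have hsub : (⋃ i ∈ s, f i) ⊆ ⋃ i, f i := iUnion₂_subset fun i _ => subset_iUnion f i
    have hdecomp : g (⋃ i, f i) = g (⋃ i ∈ s, f i) + g ((⋃ i, f i) \ ⋃ i ∈ s, f i) := by
      rw [← hadd _ _ hms (hU.diff hms) disjoint_sdiff_right, union_sdiff_cancel hsub]
    have hν : ν.real ((⋃ i, f i) \ ⋃ i ∈ s, f i) = ν.real (⋃ i, f i) - ∑ i ∈ s, ν.real (f i) := by
      rw [measureReal_sdiff hsub hms, hfinν]
    rw [← hν, ← hfin, hdecomp, Real.norm_eq_abs]
    have : g (⋃ i ∈ s, f i) - (g (⋃ i ∈ s, f i) + g ((⋃ i, f i) \ ⋃ i ∈ s, f i))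
      = - g ((⋃ i, f i) \ ⋃ i ∈ s, f i) := by ring
    rw [this, abs_neg]
    exact hbd _ (hU.diff hms)
  · intro A hA
    show (if MeasurableSet A then g A else 0) = g A
    simp [hA]

theorem exists_bad_set (ν : Measure X) [IsFiniteMeasure ν] (m : Set X → ℝ) (f : X → ℝ) (R : ℝ)
    (hadd : ∀ A B, MeasurableSet A → MeasurableSet B → Disjoint A B → m (A ∪ B) = m A + m B)
    (hbd : ∀ A, MeasurableSet A → |m A| ≤ R * ν.real A)
    (hfm : Measurable f) (hfb : ∀ x, |f x| ≤ R)
    (B : Set X) (hB : MeasurableSet B) (hlt : ∫ x in B, f x ∂ν < m B) :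
    ∃ (S : Set X) (a b : ℝ), MeasurableSet S ∧ ν S ≠ 0 ∧ a < b ∧ (∀ x ∈ S, f x ≤ a) ∧
      ∀ A, MeasurableSet A → A ⊆ S → b * ν.real A ≤ m A := by
  classical
  have hfi : Integrable f ν := Integrable.of_bound hfm.aestronglyMeasurable R
    (Eventually.of_forall fun x => by simpa using hfb x)
  have hR : 0 ≤ R := by
    by_contra hR
    push Not at hR
    have hX : IsEmpty X := ⟨fun x => by have := hfb x; have := abs_nonneg (f x); linarith⟩
    have : m B ≤ 0 := by
      have h1 := hbd B hB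
      have h2 : ν.real B = 0 := by
        have : B = ∅ := Subsingleton.elim _ _
        simp [this]
      rw [h2] at h1
      simpa using (le_abs_self _).trans h1
    have h3 : ∫ x in B, f x ∂ν = 0 := by
      have : B = ∅ := Subsingleton.elim _ _
      simp [this]
    linarith
  set gap := m B - ∫ x in B, f x ∂ν with hgap
  have hgap0 : 0 < gap := by linarith
  set T := ν.real univ with hT
  have hT0 : 0 ≤ T := measureReal_nonneg
  set δ := gap / (2 * (T + 1)) with hδ
  have hδ0 : 0 < δ := by positivity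
  let g : Set X → ℝ := fun A => m A - ∫ x in A, f x ∂ν - δ * ν.real A
  have hint_bd : ∀ A, MeasurableSet A → |∫ x in A, f x ∂ν| ≤ R * ν.real A := by
    intro A hA
    have := norm_setIntegral_le_of_norm_le_const (μ := ν) (s := A) (f := f) (C := R)
      (measure_lt_top ν A) (fun x _ => by simpa using hfb x)
    simpa using this
  obtain ⟨σ, hσ⟩ := exists_signedMeasure ν g (2 * R + δ) (by
    intro A A' hA hA' hd
    simp only [g]
    rw [hadd A A' hA hA' hd, setIntegral_union hd hA' hfi.integrableOn hfi.integrableOn,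
      measureReal_union hd hA']
    ring) (by
    intro A hA
    simp only [g]
    have h1 := hbd A hA
    have h2 := hint_bd A hA
    have h3 : |δ * ν.real A| = δ * ν.real A := abs_of_nonneg (by positivity)
    calc |m A - ∫ x in A, f x ∂ν - δ * ν.real A|
        ≤ |m A - ∫ x in A, f x ∂ν| + |δ * ν.real A| := abs_sub _ _
      _ ≤ |m A| + |∫ x in A, f x ∂ν| + |δ * ν.real A| := by gcongr; exact abs_sub _ _
      _ ≤ R * ν.real A + R * ν.real A + δ * ν.real A := by rw [h3]; gcongr
      _ = (2 * R + δ) * ν.real A := by ring)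
  obtain ⟨i, hi, hpos, hneg⟩ := σ.exists_compl_positive_negative
  have hpos' := (VectorMeasure.restrict_le_restrict_iff _ _ hi).1 hpos
  have hneg' := (VectorMeasure.restrict_le_restrict_iff _ _ hi.compl).1 hneg
  set B1 := B ∩ i with hB1
  have hB1m : MeasurableSet B1 := hB.inter hi
  have hσB : 0 < g B := by
    simp only [g]
    have h1 : ν.real B ≤ T := measureReal_mono (subset_univ _)
    have h2 : δ * ν.real B ≤ δ * (T + 1) := by gcongr; linarith
    have h3 : δ * (T + 1) = gap / 2 := by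
      rw [hδ]; field_simp
    linarith
  have hσB1 : 0 < g B1 := by
    have h1 : σ B = σ (B ∩ i) + σ (B ∩ iᶜ) := by
      rw [← VectorMeasure.of_union (by
        rw [Set.disjoint_left]; rintro x ⟨_, h⟩ ⟨_, h'⟩; exact h' h) hB1m (hB.inter hi.compl)]
      rw [← inter_union_distrib_left, union_compl_self, inter_univ]
    have h2 : σ (B ∩ iᶜ) ≤ 0 := by
      simpa using hneg' (hB.inter hi.compl) inter_subset_right
    rw [← hσ B hB] at hσB
    rw [← hσ B1 hB1m]
    linarith
  have hsub : ∀ A, MeasurableSet A → A ⊆ B1 → ∫ x in A, f x ∂ν + δ * ν.real A ≤ m A := by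
    intro A hA hAB
    have := hpos' hA (hAB.trans inter_subset_right)
    rw [hσ A hA] at this
    simp only [g] at this
    simp only [FunLike.coe_zero, Pi.zero_apply] at this
    linarith
  have hνB1 : ν B1 ≠ 0 := by
    intro h0
    have h1 : ν.real B1 = 0 := by simp [Measure.real, h0]
    have h2 : m B1 ≤ 0 := by
      have := hbd B1 hB1m
      rw [h1] at this
      simpa using (le_abs_self _).trans this
    have h3 : ∫ x in B1, f x ∂ν = 0 := by
      have := hint_bd B1 hB1m
      rw [h1, mul_zero] at this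
      exact abs_eq_zero.1 (le_antisymm this (abs_nonneg _))
    simp only [g] at hσB1
    rw [h1, h3] at hσB1
    linarith
  -- partition
  let P : ℤ → Set X := fun j => B1 ∩ {x | j * (δ / 2) ≤ f x ∧ f x < (j + 1) * (δ / 2)}
  have hPm : ∀ j, MeasurableSet (P j) := by
    intro j
    exact hB1m.inter ((measurableSet_le measurable_const hfm).inter
      (measurableSet_lt hfm measurable_const))
  have hcov : B1 ⊆ ⋃ j, P j := by
    intro x hx
    refine mem_iUnion.2 ⟨⌊f x / (δ / 2)⌋, hx, ?_, ?_⟩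
    · have := Int.floor_le (f x / (δ / 2))
      rwa [le_div_iff₀ (by positivity)] at this
    · have := Int.lt_floor_add_one (f x / (δ / 2))
      rwa [div_lt_iff₀ (by positivity)] at this
  have : ∃ j, ν (P j) ≠ 0 := by
    by_contra hcon
    push Not at hcon
    exact hνB1 (measure_mono_null hcov (measure_iUnion_null hcon))
  obtain ⟨j, hj⟩ := this
  refine ⟨P j, (j + 1) * (δ / 2), j * (δ / 2) + δ, hPm j, hj, by linarith, ?_, ?_⟩
  · intro x hx
    exact hx.2.2.le
  · intro A hA hAP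
    have h1 := hsub A hA (hAP.trans inter_subset_left)
    have h2 : (j * (δ / 2)) * ν.real A ≤ ∫ x in A, f x ∂ν := by
      have := setIntegral_mono_on (μ := ν) (s := A) (f := fun _ => (j : ℝ) * (δ / 2)) (g := f)
        (integrable_const _).integrableOn hfi.integrableOn hA (fun x hx => (hAP hx).2.1)
      simpa [mul_comm] using this
    linarith

theorem exists_support_set [TopologicalSpace X] [T2Space X] [CompactSpace X] [BorelSpace X]
    (ν : Measure X) [IsFiniteMeasure ν] [ν.Regular]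
    (B : Set X) (hB : MeasurableSet B) (hνB : ν B ≠ 0) :
    ∃ S ⊆ B, IsClosed S ∧ ν S ≠ 0 ∧ ∀ U, IsOpen U → (S ∩ U).Nonempty → ν (S ∩ U) ≠ 0 := by
  obtain ⟨S1, hS1B, hS1c, hS1ν⟩ := hB.exists_lt_isCompact_of_ne_top (measure_ne_top ν B)
    (r := 0) (pos_iff_ne_zero.2 hνB)
  have hS1cl : IsClosed S1 := hS1c.isClosed
  let G : Set X := ⋃ (U : Set X) (_ : IsOpen U ∧ ν (S1 ∩ U) = 0), U
  have hGo : IsOpen G := isOpen_iUnion fun U => isOpen_iUnion fun h => h.1
  have hG0 : ν (S1 ∩ G) = 0 := by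
    by_contra hne
    obtain ⟨C, hCsub, hCc, hCν⟩ := (hS1cl.measurableSet.inter hGo.measurableSet).exists_lt_isCompact_of_ne_top
      (measure_ne_top ν _) (r := 0) (pos_iff_ne_zero.2 hne)
    have hcov : C ⊆ ⋃ (U : {U : Set X // IsOpen U ∧ ν (S1 ∩ U) = 0}), (U : Set X) := by
      intro x hx
      obtain ⟨U, hU, hxU⟩ := mem_iUnion₂.1 (hCsub hx).2
      exact mem_iUnion.2 ⟨⟨U, hU⟩, hxU⟩
    obtain ⟨t, ht⟩ := hCc.elim_finite_subcover _ (fun U => U.2.1) hcov
    have : ν C = 0 := by
      refine measure_mono_null (t := ⋃ U ∈ t, (S1 ∩ (U : Set X))) ?_ ?_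
      · intro x hx
        obtain ⟨U, hU, hxU⟩ := mem_iUnion₂.1 (ht hx)
        exact mem_iUnion₂.2 ⟨U, hU, (hCsub hx).1, hxU⟩
      · exact (measure_biUnion_null_iff t.countable_toSet).2 fun U _ => U.2.2
    exact hCν.ne' this
  refine ⟨S1 \ G, sdiff_subset.trans hS1B, hS1cl.sdiff hGo, ?_, ?_⟩
  · intro h0
    have : ν S1 ≤ ν (S1 ∩ G) + ν (S1 \ G) := by
      rw [measure_inter_add_sdiff _ hGo.measurableSet]
    rw [hG0, h0] at this
    simp at this
    exact hS1ν.ne' this
  · intro U hU hne h0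
    obtain ⟨x, ⟨hx1, hxG⟩, hxU⟩ := hne
    apply hxG
    refine mem_iUnion₂.2 ⟨U, ⟨hU, ?_⟩, hxU⟩
    have : ν (S1 ∩ U) ≤ ν (S1 ∩ G) + ν ((S1 \ G) ∩ U) := by
      calc ν (S1 ∩ U) ≤ ν ((S1 ∩ G) ∪ ((S1 \ G) ∩ U)) := by
            refine measure_mono ?_
            intro y hy
            by_cases hyG : y ∈ G
            · exact Or.inl ⟨hy.1, hyG⟩
            · exact Or.inr ⟨⟨hy.1, hyG⟩, hy.2⟩
        _ ≤ _ := measure_union_le _ _
    rw [hG0, h0] at this
    simpa using this

end MT


end Pool.Agent.Helper40.BaireAffine
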