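import Mathlib
import Pool.Agent.Helper40.BaireAffine1
open Set Filter Topology MeasureTheory
open scoped ENNReal NNReal CompactlySupported

set_option linter.unusedSectionVars false

namespace Pool.Agent.Helper40.BaireAffine

section Choquet

variable {V : Type*} [AddCommGroup V] [Module ℝ V] [TopologicalSpace V]
  [IsTopologicalAddGroup V] [ContinuousSMul ℝ V] [T2Space V] [LocallyConvexSpace ℝ V]

/-- `y` is an (unnormalised) barycentre of `ν` restricted to `B`. -/
def IsBary {K : Set V} [MeasurableSpace K] (ν : Measure K) (B : Set K) (y : V) : Prop :=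
  ∀ l : V →L[ℝ] ℝ, ν.real B * l y = ∫ x in B, l (x : V) ∂ν

theorem IsBary.unique {K : Set V} [MeasurableSpace K] {ν : Measure K} {B : Set K} {y z : V}
    (hB : ν.real B ≠ 0) (hy : IsBary ν B y) (hz : IsBary ν B z) : y = z := by
  refine eq_of_functionals fun l => ?_
  have := (hy l).trans (hz l).symm
  exact mul_left_cancel₀ hB this

theorem exists_isBary {K : Set V} [CompactSpace K] [MeasurableSpace K] [BorelSpace K]
    (ν : Measure K) [IsFiniteMeasure ν] (S : Set V) (hS : IsCompact S) (hSc : Convex ℝ S)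
    (hSne : S.Nonempty) (B : Set K) (hB : MeasurableSet B) (hBS : ∀ x ∈ B, (x : V) ∈ S) :
    ∃ y ∈ S, IsBary ν B y := by
  by_cases h0 : ν B = 0
  · obtain ⟨y, hy⟩ := hSne
    refine ⟨y, hy, fun l => ?_⟩
    simp [Measure.real, h0, Measure.restrict_eq_zero.2 h0]
  · let μ : Measure K := (ν B)⁻¹ • ν.restrict B
    have hμ : IsProbabilityMeasure μ := by
      refine ⟨?_⟩
      simp only [μ, Measure.smul_apply, Measure.restrict_apply_univ, smul_eq_mul]
      exact ENNReal.inv_mul_cancel h0 (measure_ne_top ν B)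
    obtain ⟨y, hyS, hy⟩ := exists_bary μ S hS hSc (by
      refine Measure.ae_smul_measure ?_ _
      filter_upwards [ae_restrict_mem hB] with x hx using hBS x hx)
    refine ⟨y, hyS, fun l => ?_⟩
    rw [hy l]
    simp only [μ, integral_smul_measure]
    rw [ENNReal.toReal_inv, smul_eq_mul, ← mul_assoc]
    have : ν.real B * (ν B).toReal⁻¹ = 1 := by
      rw [Measure.real]
      exact mul_inv_cancel₀ (ENNReal.toReal_ne_zero.2 ⟨h0, measure_ne_top ν B⟩)
    rw [this, one_mul]

theorem isBary_union {K : Set V} [CompactSpace K] [MeasurableSpace K] [BorelSpace K]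
    (ν : Measure K) [IsFiniteMeasure ν] (f : K → ℝ) (hfa : IsAffineFun K f)
    (A B : Set K) (hA : MeasurableSet A) (hB : MeasurableSet B) (hd : Disjoint A B)
    (x y z : K) (hx : IsBary ν A x) (hy : IsBary ν B y) (hz : IsBary ν (A ∪ B) z) :
    ν.real (A ∪ B) * f z = ν.real A * f x + ν.real B * f y := by
  have hu : ν.real (A ∪ B) = ν.real A + ν.real B := measureReal_union hd hB
  by_cases h0 : ν.real (A ∪ B) = 0
  · have hA0 : ν.real A = 0 := by
      have := measureReal_nonneg (μ := ν) (s := A)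
      have := measureReal_nonneg (μ := ν) (s := B)
      linarith
    have hB0 : ν.real B = 0 := by linarith
    simp [h0, hA0, hB0]
  · have hpos : 0 < ν.real (A ∪ B) := lt_of_le_of_ne measureReal_nonneg (Ne.symm h0)
    set t := ν.real A / ν.real (A ∪ B) with ht
    have ht0 : 0 ≤ t := by positivity
    have ht1 : 1 - t = ν.real B / ν.real (A ∪ B) := by
      rw [ht, eq_div_iff h0, sub_mul, div_mul_cancel₀ _ h0]; linarith
    have ht1' : 0 ≤ 1 - t := by rw [ht1]; positivity
    have hzz : (z : V) = t • (x : V) + (1 - t) • (y : V) := by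
      refine IsBary.unique h0 hz fun l => ?_
      rw [map_add, map_smul, map_smul, smul_eq_mul, smul_eq_mul]
      have hli : Integrable (fun x : K => l (x : V)) ν :=
        integrable_of_continuous ν _ (l.continuous.comp continuous_subtype_val)
      rw [setIntegral_union hd hB hli.integrableOn hli.integrableOn]
      rw [← hx l, ← hy l, ht1, ht]
      field_simp
    have := hfa x y z t ht0 (by linarith) hzz
    rw [this, ht1, ht, smul_eq_mul, smul_eq_mul]
    field_simp

theorem exists_closed_convex_nhds (s : V) (O : Set V) (hO : O ∈ 𝓝 s) :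
    ∃ C, IsClosed C ∧ Convex ℝ C ∧ C ∈ 𝓝 s ∧ C ⊆ O := by
  obtain ⟨C0, hC0, hC0cl, hC0O⟩ := exists_mem_nhds_isClosed_subset hO
  obtain ⟨C1, ⟨hC1, hC1c⟩, hC1C0⟩ :=
    (LocallyConvexSpace.convex_basis (𝕜 := ℝ) s).mem_iff.1 hC0
  refine ⟨closure C1, isClosed_closure, hC1c.closure, ?_, ?_⟩
  · exact mem_of_superset hC1 subset_closure
  · exact (closure_minimal hC1C0 hC0cl).trans hC0O

theorem choquet_le {K : Set V} [CompactSpace K] [MeasurableSpace K] [BorelSpace K]
    (hKc : Convex ℝ K)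
    (ν : Measure K) [IsFiniteMeasure ν] [ν.Regular] (f : K → ℝ) (hfa : IsAffineFun K f)
    (h : ℕ → K → ℝ) (hc : ∀ n, Continuous (h n))
    (hf : ∀ x, Tendsto (fun n => h n x) atTop (𝓝 (f x))) (R : ℝ) (hR : ∀ x, |f x| ≤ R)
    (y : K) (hy : IsBary ν univ y) : ν.real univ * f y ≤ ∫ x, f x ∂ν := by
  classical
  by_contra hlt
  push Not at hlt
  have hKcomp : IsCompact K := isCompact_iff_compactSpace.2 inferInstance
  have hKne : K.Nonempty := ⟨y, y.2⟩
  have hex : ∀ B : Set K, MeasurableSet B → ∃ z : K, IsBary ν B z := by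
    intro B hB
    obtain ⟨z, hz, hzb⟩ := exists_isBary ν K hKcomp hKc hKne B hB (fun x _ => x.2)
    exact ⟨⟨z, hz⟩, hzb⟩
  let r : Set K → K := fun B => if hB : MeasurableSet B then (hex B hB).choose else y
  have hr : ∀ B, MeasurableSet B → IsBary ν B (r B) := by
    intro B hB
    simp only [r, hB, dif_pos]
    exact (hex B hB).choose_spec
  let m : Set K → ℝ := fun B => ν.real B * f (r B)
  have hfm : Measurable f :=
    measurable_of_tendsto_metrizable (fun n => (hc n).measurable) (tendsto_pi_nhds.2 hf)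
  have hadd : ∀ A B, MeasurableSet A → MeasurableSet B → Disjoint A B →
      m (A ∪ B) = m A + m B := by
    intro A B hA hB hd
    exact isBary_union ν f hfa A B hA hB hd _ _ _ (hr A hA) (hr B hB) (hr _ (hA.union hB))
  have hbd : ∀ A, MeasurableSet A → |m A| ≤ R * ν.real A := by
    intro A _
    simp only [m]
    rw [abs_mul, abs_of_nonneg measureReal_nonneg, mul_comm]
    gcongr
    exact hR _
  have hmuniv : m univ = ν.real univ * f y := by
    simp only [m]
    by_cases h0 : ν.real (univ : Set K) = 0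
    · rw [h0]; simp
    · have : ((r univ : K) : V) = y := IsBary.unique h0 (hr univ MeasurableSet.univ) hy
      rw [Subtype.ext this]
  obtain ⟨S0, a, b, hS0m, hS0ν, hab, hfa', hmb⟩ := exists_bad_set ν m f R hadd hbd hfm hR univ
    MeasurableSet.univ (by rw [hmuniv]; simpa using hlt)
  obtain ⟨S, hSS0, hScl, hSν, hSU⟩ := exists_support_set ν S0 hS0m hS0ν
  have hSne : S.Nonempty := by
    by_contra hne
    rw [Set.not_nonempty_iff_eq_empty] at hne
    rw [hne] at hSν
    exact hSν measure_empty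
  let K' : Set V := closure (convexHull ℝ ((↑) '' S))
  have hK'K : K' ⊆ K := by
    refine closure_minimal (convexHull_min ?_ hKc) hKcomp.isClosed
    rintro _ ⟨x, _, rfl⟩
    exact x.2
  have hK'comp : IsCompact K' := hKcomp.of_isClosed_subset isClosed_closure hK'K
  have hK'c : Convex ℝ K' := (convex_convexHull ℝ _).closure
  have hSK' : ∀ s ∈ S, (s : V) ∈ K' := fun s hs =>
    subset_closure (subset_convexHull ℝ _ (mem_image_of_mem _ hs))
  have hK'ne : K'.Nonempty := by
    obtain ⟨s, hs⟩ := hSne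
    exact ⟨s, hSK' s hs⟩
  have : CompactSpace K' := isCompact_iff_compactSpace.1 hK'comp
  have : Nonempty K' := hK'ne.to_subtype
  let inc : K' → K := fun x => ⟨x, hK'K x.2⟩
  have hinc : Continuous inc := by
    exact Continuous.subtype_mk continuous_subtype_val _
  -- two dense sets
  have hDa : Dense {x : K' | f (inc x) ≤ a} := by
    rw [Subtype.dense_iff]
    refine closure_mono ?_
    have hconv : Convex ℝ {x : V | ∃ hx : x ∈ K, f ⟨x, hx⟩ ≤ a} := by
      rintro u ⟨hu, hu'⟩ v ⟨hv, hv'⟩ p q hp hq hpq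
      have hw : p • u + q • v ∈ K := hKc hu hv hp hq hpq
      refine ⟨hw, ?_⟩
      have hq' : q = 1 - p := by linarith
      have := hfa ⟨u, hu⟩ ⟨v, hv⟩ ⟨_, hw⟩ p hp (by linarith) (by rw [← hq'])
      rw [this, smul_eq_mul, smul_eq_mul, ← hq']
      calc p * f ⟨u, hu⟩ + q * f ⟨v, hv⟩ ≤ p * a + q * a := by gcongr
        _ = a := by rw [← add_mul, hpq, one_mul]
    have hsub : convexHull ℝ ((↑) '' S) ⊆ {x : V | ∃ hx : x ∈ K, f ⟨x, hx⟩ ≤ a} := by
      refine convexHull_min ?_ hconv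
      rintro _ ⟨x, hx, rfl⟩
      exact ⟨x.2, hfa' x (hSS0 hx)⟩
    intro x hx
    obtain ⟨hxK, hxa⟩ := hsub hx
    exact ⟨⟨x, subset_closure hx⟩, hxa, rfl⟩
  have hDb : Dense {x : K' | b ≤ f (inc x)} := by
    rw [Subtype.dense_iff]
    let D : Set V := {x : V | x ∈ K' ∧ ∃ hx : x ∈ K, b ≤ f ⟨x, hx⟩}
    have hDeq : ((↑) '' {x : K' | b ≤ f (inc x)} : Set V) = D := by
      ext x
      constructor
      · rintro ⟨x, hx, rfl⟩
        exact ⟨x.2, hK'K x.2, hx⟩
      · rintro ⟨hx, hxK, hxb⟩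
        exact ⟨⟨x, hx⟩, hxb, rfl⟩
    rw [hDeq]
    have hDconv : Convex ℝ D := by
      rintro u ⟨hu1, hu, hu'⟩ v ⟨hv1, hv, hv'⟩ p q hp hq hpq
      have hw : p • u + q • v ∈ K := hKc hu hv hp hq hpq
      refine ⟨hK'c hu1 hv1 hp hq hpq, hw, ?_⟩
      have hq' : q = 1 - p := by linarith
      have := hfa ⟨u, hu⟩ ⟨v, hv⟩ ⟨_, hw⟩ p hp (by linarith) (by rw [← hq'])
      rw [this, smul_eq_mul, smul_eq_mul, ← hq']
      calc b = p * b + q * b := by rw [← add_mul, hpq, one_mul]
        _ ≤ p * f ⟨u, hu⟩ + q * f ⟨v, hv⟩ := by gcongr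
    refine closure_minimal (convexHull_min ?_ hDconv.closure) isClosed_closure
    rintro _ ⟨s, hs, rfl⟩
    rw [mem_closure_iff_nhds]
    intro O hO
    obtain ⟨C, hCcl, hCc, hCn, hCO⟩ := exists_closed_convex_nhds (s : V) O hO
    let B' : Set K := S ∩ (↑) ⁻¹' C
    have hB'm : MeasurableSet B' :=
      (hScl.inter (hCcl.preimage continuous_subtype_val)).measurableSet
    have hB'ν : ν B' ≠ 0 := by
      intro h0
      have hne : (S ∩ ((↑) ⁻¹' (interior C) : Set K)).Nonempty :=
        ⟨s, hs, mem_interior_iff_mem_nhds.2 hCn⟩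
      refine hSU _ (isOpen_interior.preimage continuous_subtype_val) hne ?_
      refine measure_mono_null ?_ h0
      exact inter_subset_inter_right _ (preimage_mono interior_subset)
    have hB'r : ν.real B' ≠ 0 := ENNReal.toReal_ne_zero.2 ⟨hB'ν, measure_ne_top ν _⟩
    obtain ⟨z, hz, hzb⟩ := exists_isBary ν (K' ∩ C) (hK'comp.inter_right hCcl) (hK'c.inter hCc)
      ⟨s, hSK' s hs, mem_of_mem_nhds hCn⟩ B' hB'm (fun x hx => ⟨hSK' x hx.1, hx.2⟩)
    refine ⟨z, hCO hz.2, hz.1, hK'K hz.1, ?_⟩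
    have hrz : ((r B' : K) : V) = z := IsBary.unique hB'r (hr B' hB'm) hzb
    have h1 := hmb B' hB'm (inter_subset_left.trans hSS0)
    simp only [m] at h1
    have h2 : f (r B') = f ⟨z, hK'K hz.1⟩ := by congr 1; exact Subtype.ext hrz
    rw [h2, mul_comm] at h1
    exact le_of_mul_le_mul_left h1 (lt_of_le_of_ne measureReal_nonneg (Ne.symm hB'r))
  have := no_two_dense (fun n x => h n (inc x)) (fun x => f (inc x))
    (fun n => (hc n).comp hinc) (fun x => hf _) hDa hDb
  linarith

theorem choquet {K : Set V} [CompactSpace K] [MeasurableSpace K] [BorelSpace K]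
    (hKc : Convex ℝ K)
    (ν : Measure K) [IsFiniteMeasure ν] [ν.Regular] (f : K → ℝ) (hfa : IsAffineFun K f)
    (h : ℕ → K → ℝ) (hc : ∀ n, Continuous (h n))
    (hf : ∀ x, Tendsto (fun n => h n x) atTop (𝓝 (f x))) (R : ℝ) (hR : ∀ x, |f x| ≤ R)
    (y : K) (hy : IsBary ν univ y) : ∫ x, f x ∂ν = ν.real univ * f y := by
  refine le_antisymm ?_ (choquet_le hKc ν f hfa h hc hf R hR y hy)
  have := choquet_le hKc ν (fun x => - f x) (by
    intro x y z t ht0 ht1 hz
    have := hfa x y z t ht0 ht1 hz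
    simp only [this, smul_eq_mul]; ring) (fun n x => - h n x) (fun n => (hc n).neg)
    (fun x => (hf x).neg) R (fun x => by simpa using hR x) y hy
  rw [integral_neg] at this
  linarith

end Choquet


section Dom

variable {X : Type*} [TopologicalSpace X] [CompactSpace X]
variable {E : Type*} [NormedAddCommGroup E] [NormedSpace ℝ E]

/-- Values of `φ` on maps dominated by `g`. -/
def domSet (φ : C(X, E) →L[ℝ] ℝ) (g : X → ℝ) : Set ℝ :=
  {r | ∃ h : C(X, E), (∀ x, ‖h x‖ ≤ g x) ∧ φ h = r}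

theorem domSet_bddAbove (φ : C(X, E) →L[ℝ] ℝ) (g : X → ℝ) (hg : Continuous g) :
    BddAbove (domSet φ g) := by
  obtain ⟨M, hM⟩ := (isCompact_range hg).isBounded.exists_norm_le
  refine ⟨‖φ‖ * |M|, ?_⟩
  rintro _ ⟨h, hh, rfl⟩
  have h1 : ‖h‖ ≤ |M| := by
    refine (ContinuousMap.norm_le _ (abs_nonneg M)).2 fun x => ?_
    calc ‖h x‖ ≤ g x := hh x
      _ ≤ ‖g x‖ := le_abs_self _
      _ ≤ M := hM _ (mem_range_self x)
      _ ≤ |M| := le_abs_self _
  calc φ h ≤ ‖φ h‖ := le_abs_self _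
    _ ≤ ‖φ‖ * ‖h‖ := φ.le_opNorm h
    _ ≤ ‖φ‖ * |M| := by gcongr

theorem domSet_zero_mem (φ : C(X, E) →L[ℝ] ℝ) (g : X → ℝ) (hg : ∀ x, 0 ≤ g x) :
    (0 : ℝ) ∈ domSet φ g := ⟨0, by simpa using hg, by simp⟩

theorem domSet_add (φ : C(X, E) →L[ℝ] ℝ) (g₁ g₂ : X → ℝ) (h₁ : Continuous g₁)
    (h₂ : Continuous g₂) (p₁ : ∀ x, 0 ≤ g₁ x) (p₂ : ∀ x, 0 ≤ g₂ x) :
    sSup (domSet φ (fun x => g₁ x + g₂ x)) = sSup (domSet φ g₁) + sSup (domSet φ g₂) := by
  refine le_antisymm ?_ ?_
  · refine csSup_le ⟨0, domSet_zero_mem φ _ fun x => add_nonneg (p₁ x) (p₂ x)⟩ ?_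
    rintro _ ⟨h, hh, rfl⟩
    have key : ∀ (u v : X → ℝ), Continuous u → Continuous v → (∀ x, 0 ≤ u x) → (∀ x, 0 ≤ v x) →
        (∀ x, ‖h x‖ ≤ u x + v x) →
        (Continuous fun x => (u x / (u x + v x)) • h x) ∧
        ∀ x, ‖(u x / (u x + v x)) • h x‖ ≤ u x := by
      intro u v hu hv pu pv huv
      have hb : ∀ x, ‖(u x / (u x + v x)) • h x‖ ≤ u x := by
        intro x
        rw [norm_smul, Real.norm_of_nonneg (div_nonneg (pu x) (add_nonneg (pu x) (pv x)))]
        rcases (add_nonneg (pu x) (pv x)).eq_or_lt' with h0 | h0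
        · simp [h0, pu x]
        · calc u x / (u x + v x) * ‖h x‖ ≤ u x / (u x + v x) * (u x + v x) := by
                gcongr
                · exact div_nonneg (pu x) h0.le
                · exact huv x
            _ = u x := by field_simp
      refine ⟨?_, hb⟩
      rw [continuous_iff_continuousAt]
      intro x
      rcases (add_nonneg (pu x) (pv x)).eq_or_lt' with h0 | h0
      · have hux : u x = 0 := by have := pu x; have := pv x; linarith
        have hval : (u x / (u x + v x)) • h x = 0 := by simp [hux]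
        unfold ContinuousAt
        simp only [hval]
        refine squeeze_zero_norm (fun y => hb y) ?_
        simpa [hux] using hu.tendsto x
      · have : ContinuousAt (fun x => u x / (u x + v x)) x :=
          hu.continuousAt.div (hu.add hv).continuousAt h0.ne'
        exact this.smul h.continuous.continuousAt
    obtain ⟨c1, b1⟩ := key g₁ g₂ h₁ h₂ p₁ p₂ hh
    obtain ⟨c2, b2⟩ := key g₂ g₁ h₂ h₁ p₂ p₁ (fun x => by rw [add_comm]; exact hh x)
    have hsum : h = (⟨_, c1⟩ : C(X, E)) + ⟨_, c2⟩ := by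
      ext x
      simp only [ContinuousMap.coe_add, ContinuousMap.coe_mk, Pi.add_apply]
      rw [← add_smul]
      rcases (add_nonneg (p₁ x) (p₂ x)).eq_or_lt' with h0 | h0
      · have : h x = 0 := by
          have : ‖h x‖ ≤ g₁ x + g₂ x := hh x
          rw [h0] at this
          exact norm_le_zero_iff.1 this
        simp [this]
      · have : g₁ x / (g₁ x + g₂ x) + g₂ x / (g₂ x + g₁ x) = 1 := by
          rw [add_comm (g₂ x) (g₁ x)]; field_simp
        rw [this, one_smul]
    rw [hsum, map_add]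
    exact add_le_add (le_csSup (domSet_bddAbove φ _ h₁) ⟨_, b1, rfl⟩)
      (le_csSup (domSet_bddAbove φ _ h₂) ⟨_, b2, rfl⟩)
  · rw [← le_sub_iff_add_le]
    refine csSup_le ⟨0, domSet_zero_mem φ _ p₁⟩ ?_
    rintro _ ⟨u, hu, rfl⟩
    rw [le_sub_comm]
    refine csSup_le ⟨0, domSet_zero_mem φ _ p₂⟩ ?_
    rintro _ ⟨v, hv, rfl⟩
    rw [le_sub_iff_add_le, ← map_add]
    refine le_csSup (domSet_bddAbove φ _ (h₁.add h₂)) ⟨v + u, fun x => ?_, rfl⟩
    calc ‖(v + u) x‖ ≤ ‖v x‖ + ‖u x‖ := norm_add_le _ _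
      _ ≤ g₂ x + g₁ x := add_le_add (hv x) (hu x)
      _ = g₁ x + g₂ x := add_comm _ _

theorem domSet_smul (φ : C(X, E) →L[ℝ] ℝ) (g : X → ℝ) (c : ℝ) (hc : 0 ≤ c) (p : ∀ x, 0 ≤ g x)
    (hg : Continuous g) :
    sSup (domSet φ (fun x => c * g x)) = c * sSup (domSet φ g) := by
  rcases hc.eq_or_lt' with h0 | h0
  · subst h0
    simp only [zero_mul]
    refine le_antisymm ?_ ?_
    · refine csSup_le ⟨0, domSet_zero_mem φ _ fun x => le_rfl⟩ ?_
      rintro _ ⟨h, hh, rfl⟩
      have : h = 0 := by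
        ext x
        exact norm_le_zero_iff.1 (hh x)
      simp [this]
    · exact le_csSup (domSet_bddAbove φ _ continuous_const) (domSet_zero_mem φ _ fun x => le_rfl)
  · refine le_antisymm ?_ ?_
    · refine csSup_le ⟨0, domSet_zero_mem φ _ fun x => mul_nonneg hc (p x)⟩ ?_
      rintro _ ⟨h, hh, rfl⟩
      have h1 : φ (c⁻¹ • h) ≤ sSup (domSet φ g) := by
        refine le_csSup (domSet_bddAbove φ _ hg) ⟨c⁻¹ • h, fun x => ?_, rfl⟩
        rw [ContinuousMap.smul_apply, norm_smul, Real.norm_of_nonneg (inv_nonneg.2 hc)]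
        rw [inv_mul_le_iff₀ h0]
        exact hh x
      rw [map_smul, smul_eq_mul, inv_mul_le_iff₀ h0] at h1
      exact h1
    · rw [← le_div_iff₀' h0]
      refine csSup_le ⟨0, domSet_zero_mem φ _ p⟩ ?_
      rintro _ ⟨h, hh, rfl⟩
      rw [le_div_iff₀' h0]
      refine le_csSup (domSet_bddAbove φ _ (continuous_const.mul hg)) ⟨c • h, fun x => ?_, by simp⟩
      rw [ContinuousMap.smul_apply, norm_smul, Real.norm_of_nonneg hc]
      exact mul_le_mul_of_nonneg_left (hh x) hc

theorem exists_dom [T2Space X] [MeasurableSpace X] [BorelSpace X] (φ : C(X, E) →L[ℝ] ℝ) :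
    ∃ ν : Measure X, IsFiniteMeasure ν ∧ ν.Regular ∧ ∀ h : C(X, E), |φ h| ≤ ∫ x, ‖h x‖ ∂ν := by
  have hnn : ∀ g : X →C_c ℝ≥0, 0 ≤ sSup (domSet φ (fun x => (g x : ℝ))) := by
    intro g
    exact le_csSup (domSet_bddAbove φ _ (NNReal.continuous_coe.comp g.continuous))
      (domSet_zero_mem φ _ fun x => (g x).2)
  let Λ : (X →C_c ℝ≥0) →ₗ[ℝ≥0] ℝ≥0 :=
    { toFun := fun g => ⟨sSup (domSet φ (fun x => (g x : ℝ))), hnn g⟩
      map_add' := by
        intro g₁ g₂
        apply NNReal.eq
        simp only [NNReal.coe_add, CompactlySupportedContinuousMap.coe_add,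
          Pi.add_apply]
        exact domSet_add φ _ _ (NNReal.continuous_coe.comp g₁.continuous)
          (NNReal.continuous_coe.comp g₂.continuous) (fun x => (g₁ x).2) (fun x => (g₂ x).2)
      map_smul' := by
        intro c g
        apply NNReal.eq
        simp only [NNReal.coe_mul, CompactlySupportedContinuousMap.coe_smul,
          Pi.smul_apply, smul_eq_mul, RingHom.id_apply]
        exact domSet_smul φ _ c c.2 (fun x => (g x).2) (NNReal.continuous_coe.comp g.continuous) }
  let ν := NNRealRMK.rieszMeasure Λ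
  have hreg : ν.Regular := inferInstance
  have hfin : IsFiniteMeasure ν := inferInstance
  have key : ∀ h : C(X, E), φ h ≤ ∫ x, ‖h x‖ ∂ν := by
    intro h
    let g : X →C_c ℝ≥0 := ⟨⟨fun x => ‖h x‖₊, by fun_prop⟩, HasCompactSupport.of_compactSpace _⟩
    have h1 := NNRealRMK.lintegral_rieszMeasure Λ g
    have h2 : φ h ≤ sSup (domSet φ (fun x => (g x : ℝ))) := by
      refine le_csSup (domSet_bddAbove φ _ (NNReal.continuous_coe.comp g.continuous)) ⟨h, ?_, rfl⟩
      intro x
      exact le_of_eq rfl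
    have h3 : ∫ x, ‖h x‖ ∂ν = sSup (domSet φ (fun x => (g x : ℝ))) := by
      rw [integral_eq_lintegral_of_nonneg_ae (Eventually.of_forall fun x => norm_nonneg _)
        (h.continuous.norm.aestronglyMeasurable)]
      have : ∀ x, ENNReal.ofReal ‖h x‖ = ((g x : ℝ≥0) : ℝ≥0∞) := by
        intro x
        rw [ofReal_norm]
        rfl
      simp only [this]
      rw [h1]
      rfl
    rw [h3]
    exact h2
  refine ⟨ν, hfin, hreg, fun h => abs_le.2 ⟨?_, key h⟩⟩
  have := key (-h)
  simp only [map_neg, ContinuousMap.coe_neg, Pi.neg_apply, norm_neg] at this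
  linarith

end Dom


end Pool.Agent.Helper40.BaireAffine
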