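import Mathlib
import Pool.Agent.Helper40.BaireAffine2
open Set Filter Topology MeasureTheory
open scoped ENNReal NNReal CompactlySupported

set_option linter.unusedSectionVars false
set_option maxHeartbeats 1000000

namespace Pool.Agent.Helper40.BaireAffine

section Scalar

variable {V : Type*} [AddCommGroup V] [Module ℝ V] [TopologicalSpace V]
  [IsTopologicalAddGroup V] [ContinuousSMul ℝ V] [T2Space V] [LocallyConvexSpace ℝ V]

/-- Restriction of a continuous functional to `K`. -/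
def resFun (K : Set V) (l : V →L[ℝ] ℝ) : C(K, ℝ) :=
  ⟨fun x => l (x : V), l.continuous.comp continuous_subtype_val⟩

theorem scalar_tendsto {K : Set V} [CompactSpace K] [MeasurableSpace K] [BorelSpace K]
    (hKc : Convex ℝ K) (ψ : C(K, ℝ) →L[ℝ] ℝ) (h1 : ψ 1 = 0)
    (hl : ∀ l : V →L[ℝ] ℝ, ψ (resFun K l) = 0)
    (f : K → ℝ) (hfa : IsAffineFun K f) (g : ℕ → C(K, ℝ)) (R : ℝ) (hR : ∀ n x, |g n x| ≤ R)
    (hg : ∀ x, Tendsto (fun n => g n x) atTop (𝓝 (f x))) :
    Tendsto (fun n => ψ (g n)) atTop (𝓝 0) := by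
  have hKcomp : IsCompact K := isCompact_iff_compactSpace.2 inferInstance
  rcases K.eq_empty_or_nonempty with hKe | hKne
  · have hem : IsEmpty K := Set.isEmpty_coe_sort.2 hKe
    have : ∀ n, ψ (g n) = 0 := by
      intro n
      have : g n = 0 := by
        ext x; exact hem.elim x
      rw [this, map_zero]
    simp only [this]
    exact tendsto_const_nhds
  obtain ⟨ν, hν1, hν2, hν⟩ := exists_dom ψ
  have hci : ∀ u : C(K, ℝ), Integrable (fun x => u x) ν := fun u =>
    integrable_of_continuous ν _ u.continuous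
  let Λ : (K →C_c ℝ) →ₚ[ℝ] ℝ := PositiveLinearMap.mk₀
    { toFun := fun u => ∫ x, u x ∂ν + ψ u.toContinuousMap
      map_add' := by
        intro u v
        have e1 : ∫ x, (u + v) x ∂ν = ∫ x, u x ∂ν + ∫ x, v x ∂ν :=
          integral_add (hci u.toContinuousMap) (hci v.toContinuousMap)
        have e2 : ψ (u + v).toContinuousMap = ψ u.toContinuousMap + ψ v.toContinuousMap := by
          rw [← map_add]; rfl
        rw [e1, e2]; ring
      map_smul' := by
        intro c u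
        have e1 : ∫ x, (c • u) x ∂ν = c * ∫ x, u x ∂ν := by
          rw [← integral_const_mul]; rfl
        have e2 : ψ (c • u).toContinuousMap = c * ψ u.toContinuousMap := by
          rw [← smul_eq_mul, ← map_smul]; rfl
        rw [e1, e2]
        simp only [smul_eq_mul, RingHom.id_apply]
        ring } (by
      intro u hu
      have h2 := hν u.toContinuousMap
      have h3 : ∫ x, ‖u.toContinuousMap x‖ ∂ν = ∫ x, u x ∂ν := by
        refine integral_congr_ae (Eventually.of_forall fun x => ?_)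
        exact Real.norm_of_nonneg (hu x)
      rw [h3] at h2
      have := (abs_le.1 h2).1
      show 0 ≤ ∫ x, u x ∂ν + ψ u.toContinuousMap
      linarith)
  let μ := RealRMK.rieszMeasure Λ
  have hμ1 : μ.Regular := inferInstance
  have hμ2 : IsFiniteMeasure μ := inferInstance
  have hμ : ∀ u : C(K, ℝ), ∫ x, u x ∂μ = ∫ x, u x ∂ν + ψ u := by
    intro u
    let v : K →C_c ℝ := ⟨u, HasCompactSupport.of_compactSpace _⟩
    have := RealRMK.integral_rieszMeasure Λ v
    exact this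
  have hmass : μ.real univ = ν.real univ := by
    have := hμ 1
    rw [h1] at this
    simpa using this
  obtain ⟨y, hyK, hy⟩ := exists_isBary ν K hKcomp hKc hKne univ MeasurableSet.univ
    (fun x _ => x.2)
  have hyμ : IsBary μ univ y := by
    intro l
    have h2 := hy l
    have h3 := hμ (resFun K l)
    rw [hl, add_zero] at h3
    rw [hmass, h2]
    simp only [Measure.restrict_univ]
    exact h3.symm
  have hRf : ∀ x, |f x| ≤ R := fun x =>
    le_of_tendsto (hg x).abs (Eventually.of_forall fun n => hR n x)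
  have c1 := choquet hKc ν f hfa (fun n => g n) (fun n => (g n).continuous) hg R hRf ⟨y, hyK⟩ hy
  have c2 := choquet hKc μ f hfa (fun n => g n) (fun n => (g n).continuous) hg R hRf ⟨y, hyK⟩ hyμ
  have t : ∀ (ρ : Measure K) [IsFiniteMeasure ρ],
      Tendsto (fun n => ∫ x, g n x ∂ρ) atTop (𝓝 (∫ x, f x ∂ρ)) := by
    intro ρ _
    refine tendsto_integral_of_dominated_convergence (fun _ => R)
      (fun n => (g n).continuous.aestronglyMeasurable) (integrable_const _)
      (fun n => Eventually.of_forall fun x => by simpa using hR n x)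
      (Eventually.of_forall hg)
  have t3 := (t μ).sub (t ν)
  have e : ∀ n, ∫ x, g n x ∂μ - ∫ x, g n x ∂ν = ψ (g n) := by
    intro n
    rw [hμ]; ring
  simp only [e] at t3
  rw [c1, c2, hmass, sub_self] at t3
  exact t3

end Scalar

section AP

variable {E : Type*} [NormedAddCommGroup E]

/-- The approximation property (over the scalar field `𝕜`). -/
def HasAP (𝕜 : Type*) (E : Type*) [NontriviallyNormedField 𝕜] [NormedAddCommGroup E]
    [NormedSpace 𝕜 E] : Prop :=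
  ∀ C : Set E, IsCompact C → ∀ ε : ℝ, 0 < ε →
    ∃ T : E →L[𝕜] E, FiniteDimensional 𝕜 (LinearMap.range (T : E →ₗ[𝕜] E)) ∧
      ∀ x ∈ C, ‖T x - x‖ < ε

theorem isCompact_insert_zero (F : ℕ → Finset E) (r : ℕ → ℝ) (hr : Tendsto r atTop (𝓝 0))
    (hF : ∀ k, ∀ v ∈ F k, ‖v‖ ≤ r k) : IsCompact (insert 0 (⋃ k, (F k : Set E))) := by
  classical
  refine isCompact_of_finite_subcover ?_
  intro ι U hU hcov
  obtain ⟨i0, hi0⟩ := mem_iUnion.1 (hcov (mem_insert _ _))
  obtain ⟨δ, hδ, hball⟩ := Metric.isOpen_iff.1 (hU i0) 0 hi0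
  obtain ⟨N, hN⟩ := (hr.eventually (gt_mem_nhds hδ)).exists_forall_of_atTop
  have hfin : (⋃ k ∈ Finset.range N, (F k : Set E)).Finite :=
    Set.Finite.biUnion (Finset.finite_toSet _) fun k _ => Finset.finite_toSet _
  obtain ⟨t, ht⟩ := hfin.isCompact.elim_finite_subcover U hU (by
    refine Set.Subset.trans ?_ hcov
    intro x hx
    obtain ⟨k, _, hx⟩ := mem_iUnion₂.1 hx
    exact mem_insert_of_mem _ (mem_iUnion.2 ⟨k, hx⟩))
  refine ⟨insert i0 t, ?_⟩
  intro x hx
  rcases hx with rfl | hx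
  · exact mem_iUnion₂.2 ⟨i0, Finset.mem_insert_self _ _, hi0⟩
  · obtain ⟨k, hk⟩ := mem_iUnion.1 hx
    by_cases hkN : k < N
    · obtain ⟨i, hi, hxi⟩ := mem_iUnion₂.1 (ht (mem_iUnion₂.2 ⟨k, Finset.mem_range.2 hkN, hk⟩))
      exact mem_iUnion₂.2 ⟨i, Finset.mem_insert_of_mem hi, hxi⟩
    · refine mem_iUnion₂.2 ⟨i0, Finset.mem_insert_self _ _, hball ?_⟩
      rw [mem_ball_zero_iff]
      exact (hF k x hk).trans_lt (hN k (not_lt.1 hkN))

variable [NormedSpace ℝ E]

theorem exists_finrank_L1 (hAP : HasAP ℝ E) {X : Type*} [MeasurableSpace X] (ν : Measure X)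
    [IsFiniteMeasure ν] (f : X → E) (hf : Integrable f ν) (ε : ℝ) (hε : 0 < ε) :
    ∃ T : E →L[ℝ] E, FiniteDimensional ℝ (LinearMap.range (T : E →ₗ[ℝ] E)) ∧
      ∫ x, ‖f x - T (f x)‖ ∂ν < ε := by
  classical
  have happ : ∀ k : ℕ, ∃ s : SimpleFunc X E, Integrable s ν ∧
      ∫ x, ‖f x - s x‖ ∂ν ≤ (1 / 8 : ℝ) ^ k := by
    intro k
    obtain ⟨s, hs1, hs2⟩ := (memLp_one_iff_integrable.2 hf).exists_simpleFunc_eLpNorm_sub_lt
      (by simp) (ε := ENNReal.ofReal ((1 / 8 : ℝ) ^ k)) (by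
        simp only [ne_eq, ENNReal.ofReal_eq_zero, not_le]; positivity)
    have hsi := memLp_one_iff_integrable.1 hs2
    refine ⟨s, hsi, ?_⟩
    have hnn : ∫ x, ‖(f - ⇑s) x‖ ∂ν = (∫⁻ x, ‖(f - ⇑s) x‖ₑ ∂ν).toReal :=
      integral_norm_eq_lintegral_enorm (hf.sub hsi).aestronglyMeasurable
    show ∫ x, ‖(f - ⇑s) x‖ ∂ν ≤ _
    rw [hnn]
    rw [eLpNorm_one_eq_lintegral_enorm] at hs1
    refine ENNReal.toReal_le_of_le_ofReal (by positivity) ?_
    exact hs1.le
  choose s hsi hs using happ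
  obtain ⟨d, hd0, hdS⟩ : ∃ d : ℕ → SimpleFunc X E, d 0 = s 0 ∧
      ∀ j, d (j + 1) = s (j + 1) - s j :=
    ⟨fun k => Nat.casesOn k (s 0) (fun j => s (j + 1) - s j), rfl, fun _ => rfl⟩
  have hdi : ∀ k, Integrable (d k) ν := by
    intro k
    cases k with
    | zero => rw [hd0]; exact hsi 0
    | succ j => rw [hdS]; exact (hsi (j + 1)).sub (hsi j)
  have hfs : ∀ k, Integrable (fun x => f x - s k x) ν := fun k => hf.sub (hsi k)
  have hdb : ∀ j, ∫ x, ‖d (j + 1) x‖ ∂ν ≤ 2 * (1 / 8 : ℝ) ^ j := by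
    intro j
    have h1 : ∀ x, ‖d (j + 1) x‖ ≤ ‖f x - s j x‖ + ‖f x - s (j + 1) x‖ := by
      intro x
      have : d (j + 1) x = (f x - s j x) - (f x - s (j + 1) x) := by
        rw [hdS, SimpleFunc.sub_apply]; abel
      rw [this]
      exact norm_sub_le _ _
    calc ∫ x, ‖d (j + 1) x‖ ∂ν ≤ ∫ x, (‖f x - s j x‖ + ‖f x - s (j + 1) x‖) ∂ν :=
          integral_mono (hdi _).norm ((hfs j).norm.add (hfs (j + 1)).norm) h1
      _ = ∫ x, ‖f x - s j x‖ ∂ν + ∫ x, ‖f x - s (j + 1) x‖ ∂ν :=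
          integral_add (hfs j).norm (hfs (j + 1)).norm
      _ ≤ (1 / 8 : ℝ) ^ j + (1 / 8 : ℝ) ^ (j + 1) := add_le_add (hs j) (hs (j + 1))
      _ ≤ 2 * (1 / 8 : ℝ) ^ j := by
          rw [pow_succ]
          have : (0 : ℝ) ≤ (1 / 8 : ℝ) ^ j := by positivity
          linarith
  let F : ℕ → Finset E := fun k => (d k).range.image (fun v => ((2 : ℝ) ^ k * ‖v‖)⁻¹ • v)
  have hFn : ∀ k, ∀ v ∈ F k, ‖v‖ ≤ (1 / 2 : ℝ) ^ k := by
    intro k v hv
    obtain ⟨w, _, rfl⟩ := Finset.mem_image.1 hv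
    rw [norm_smul, norm_inv, norm_mul, norm_norm, norm_pow, Real.norm_ofNat]
    rcases eq_or_ne w 0 with rfl | hw
    · simp
    · have hw' : ‖w‖ ≠ 0 := norm_ne_zero_iff.2 hw
      rw [mul_inv, mul_assoc, inv_mul_cancel₀ hw', mul_one]
      simp
  have hcomp := isCompact_insert_zero F (fun k => (1 / 2 : ℝ) ^ k)
    (tendsto_pow_atTop_nhds_zero_of_lt_one (by norm_num) (by norm_num)) hFn
  set A0 := ∫ x, ‖d 0 x‖ ∂ν with hA0
  have hA0n : 0 ≤ A0 := integral_nonneg fun x => norm_nonneg _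
  set η := ε / (2 * (A0 + 6)) with hη
  have hη0 : 0 < η := by positivity
  obtain ⟨T, hT1, hT2⟩ := hAP _ hcomp η hη0
  refine ⟨T, hT1, ?_⟩
  have hTv : ∀ k x, ‖d k x - T (d k x)‖ ≤ η * 2 ^ k * ‖d k x‖ := by
    intro k x
    rcases eq_or_ne (d k x) 0 with h0 | h0
    · simp [h0]
    · have h0' : 0 < ‖d k x‖ := norm_pos_iff.2 h0
      have hmem : ((2 : ℝ) ^ k * ‖d k x‖)⁻¹ • d k x ∈ insert 0 (⋃ k, (F k : Set E)) := by
        refine mem_insert_of_mem _ (mem_iUnion.2 ⟨k, ?_⟩)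
        exact Finset.mem_coe.2 (Finset.mem_image.2 ⟨_, (d k).mem_range_self x, rfl⟩)
      have := (hT2 _ hmem).le
      rw [map_smul, ← smul_sub, norm_smul, Real.norm_of_nonneg (by positivity),
        inv_mul_le_iff₀ (by positivity)] at this
      rw [norm_sub_rev]
      calc ‖T (d k x) - d k x‖ ≤ 2 ^ k * ‖d k x‖ * η := this
        _ = η * 2 ^ k * ‖d k x‖ := by ring
  have hTi : ∀ {u : X → E}, Integrable u ν → Integrable (fun x => u x - T (u x)) ν := by
    intro u hu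
    exact hu.sub (T.integrable_comp hu)
  have hind : ∀ k, ∫ x, ‖s k x - T (s k x)‖ ∂ν ≤
      η * (A0 + ∑ j ∈ Finset.range k, 4 * (1 / 4 : ℝ) ^ j) := by
    intro k
    induction k with
    | zero =>
      simp only [Finset.range_zero, Finset.sum_empty, add_zero]
      rw [hA0, ← integral_const_mul]
      refine integral_mono (hTi (hsi 0)).norm ((hdi 0).norm.const_mul _) fun x => ?_
      have := hTv 0 x
      rw [pow_zero, mul_one, hd0] at this
      rw [hd0]
      exact this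
    | succ j ih =>
      have h1 : ∀ x, ‖s (j + 1) x - T (s (j + 1) x)‖ ≤
          ‖s j x - T (s j x)‖ + η * 2 ^ (j + 1) * ‖d (j + 1) x‖ := by
        intro x
        have h2 : s (j + 1) x = s j x + d (j + 1) x := by rw [hdS, SimpleFunc.sub_apply]; abel
        rw [h2, map_add]
        calc ‖s j x + d (j + 1) x - (T (s j x) + T (d (j + 1) x))‖
            = ‖(s j x - T (s j x)) + (d (j + 1) x - T (d (j + 1) x))‖ := by congr 1; abel
          _ ≤ ‖s j x - T (s j x)‖ + ‖d (j + 1) x - T (d (j + 1) x)‖ := norm_add_le _ _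
          _ ≤ _ := by gcongr; exact hTv (j + 1) x
      calc ∫ x, ‖s (j + 1) x - T (s (j + 1) x)‖ ∂ν
          ≤ ∫ x, (‖s j x - T (s j x)‖ + η * 2 ^ (j + 1) * ‖d (j + 1) x‖) ∂ν :=
            integral_mono (hTi (hsi _)).norm
              ((hTi (hsi j)).norm.add ((hdi (j + 1)).norm.const_mul _)) h1
        _ = ∫ x, ‖s j x - T (s j x)‖ ∂ν + η * 2 ^ (j + 1) * ∫ x, ‖d (j + 1) x‖ ∂ν := by
            rw [integral_add (hTi (hsi j)).norm ((hdi (j + 1)).norm.const_mul _),
              integral_const_mul]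
        _ ≤ η * (A0 + ∑ j ∈ Finset.range j, 4 * (1 / 4 : ℝ) ^ j)
            + η * 2 ^ (j + 1) * (2 * (1 / 8 : ℝ) ^ j) := by
            gcongr
            exact hdb j
        _ = η * (A0 + ∑ j ∈ Finset.range (j + 1), 4 * (1 / 4 : ℝ) ^ j) := by
            rw [Finset.sum_range_succ]
            have : (2 : ℝ) ^ (j + 1) * (2 * (1 / 8 : ℝ) ^ j) = 4 * (1 / 4 : ℝ) ^ j := by
              rw [pow_succ]
              have : (1 / 4 : ℝ) ^ j = 2 ^ j * (1 / 8 : ℝ) ^ j := by
                rw [← mul_pow]; norm_num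
              rw [this]; ring
            rw [mul_assoc, this]; ring
  have hgeo : ∀ k, ∑ j ∈ Finset.range k, 4 * (1 / 4 : ℝ) ^ j ≤ 6 := by
    intro k
    rw [← Finset.mul_sum]
    have : ∑ j ∈ Finset.range k, (1 / 4 : ℝ) ^ j ≤ 4 / 3 := by
      rw [geom_sum_eq (by norm_num)]
      have : (0 : ℝ) ≤ (1 / 4 : ℝ) ^ k := by positivity
      rw [div_le_iff_of_neg (by norm_num)]
      linarith
    linarith
  have hsb : ∀ k, ∫ x, ‖s k x - T (s k x)‖ ∂ν ≤ ε / 2 := by
    intro k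
    calc _ ≤ η * (A0 + ∑ j ∈ Finset.range k, 4 * (1 / 4 : ℝ) ^ j) := hind k
      _ ≤ η * (A0 + 6) := by gcongr; exact hgeo k
      _ = ε / 2 := by rw [hη]; field_simp
  have hfin : ∀ k, ∫ x, ‖f x - T (f x)‖ ∂ν ≤ (1 + ‖T‖) * (1 / 8 : ℝ) ^ k + ε / 2 := by
    intro k
    have h1 : ∀ x, ‖f x - T (f x)‖ ≤ (1 + ‖T‖) * ‖f x - s k x‖ + ‖s k x - T (s k x)‖ := by
      intro x
      calc ‖f x - T (f x)‖ = ‖(f x - s k x) - T (f x - s k x) + (s k x - T (s k x))‖ := by
            rw [map_sub]; congr 1; abel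
        _ ≤ ‖(f x - s k x) - T (f x - s k x)‖ + ‖s k x - T (s k x)‖ := norm_add_le _ _
        _ ≤ (‖f x - s k x‖ + ‖T‖ * ‖f x - s k x‖) + ‖s k x - T (s k x)‖ := by
            gcongr
            exact (norm_sub_le _ _).trans (add_le_add le_rfl (T.le_opNorm _))
        _ = _ := by ring
    calc ∫ x, ‖f x - T (f x)‖ ∂ν
        ≤ ∫ x, ((1 + ‖T‖) * ‖f x - s k x‖ + ‖s k x - T (s k x)‖) ∂ν :=
          integral_mono (hTi hf).norm (((hfs k).norm.const_mul _).add (hTi (hsi k)).norm) h1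
      _ = (1 + ‖T‖) * ∫ x, ‖f x - s k x‖ ∂ν + ∫ x, ‖s k x - T (s k x)‖ ∂ν := by
          rw [integral_add ((hfs k).norm.const_mul _) (hTi (hsi k)).norm, integral_const_mul]
      _ ≤ _ := by
          gcongr
          · exact hs k
          · exact hsb k
  have hlim : Tendsto (fun k : ℕ => (1 + ‖T‖) * (1 / 8 : ℝ) ^ k + ε / 2) atTop (𝓝 (0 + ε / 2)) := by
    have := ((tendsto_pow_atTop_nhds_zero_of_lt_one (r := (1 / 8 : ℝ)) (by norm_num)
      (by norm_num)).const_mul (1 + ‖T‖)).add_const (ε / 2)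
    simpa using this
  have := ge_of_tendsto' hlim hfin
  linarith

end AP

end Pool.Agent.Helper40.BaireAffine
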