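import Mathlib
import Pool.Agent.Helper40.BaireAffine3
open Set Filter Topology MeasureTheory
open scoped ENNReal NNReal CompactlySupported

set_option linter.unusedSectionVars false
set_option maxHeartbeats 1000000

namespace Pool.Agent.Helper40.BaireAffine

section Final

variable {V : Type*} [AddCommGroup V] [Module ℝ V] [TopologicalSpace V]
  [IsTopologicalAddGroup V] [ContinuousSMul ℝ V] [T2Space V] [LocallyConvexSpace ℝ V]
variable {E : Type*} [NormedAddCommGroup E] [NormedSpace ℝ E]

theorem finrank_tendsto {K : Set V} [CompactSpace K] [MeasurableSpace K] [BorelSpace K]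
    (hKc : Convex ℝ K) (φ : C(K, E) →L[ℝ] ℝ)
    (hφ : ∀ a : C(K, E), IsAffineFun K a → φ a = 0)
    (T : E →L[ℝ] E) (hT : FiniteDimensional ℝ (LinearMap.range (T : E →ₗ[ℝ] E)))
    (f : K → E) (hfa : IsAffineFun K f) (g : ℕ → C(K, E)) (R : ℝ) (hR : ∀ n x, ‖g n x‖ ≤ R)
    (hg : ∀ x, Tendsto (fun n => g n x) atTop (𝓝 (f x))) :
    Tendsto (fun n => φ (T.compLeftContinuous ℝ K (g n))) atTop (𝓝 0) := by
  classical
  let W := LinearMap.range (T : E →ₗ[ℝ] E)
  let b := Module.finBasis ℝ W
  let TW : E →L[ℝ] W := T.codRestrict W (fun x => ⟨x, rfl⟩)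
  let c : Fin (Module.finrank ℝ W) → (E →L[ℝ] ℝ) := fun i =>
    (LinearMap.toContinuousLinearMap (b.coord i)).comp TW
  have hTc : ∀ x, T x = ∑ i, c i x • (b i : E) := by
    intro x
    have h1 := congrArg (Subtype.val) (b.sum_repr (TW x))
    rw [Submodule.coe_sum] at h1
    have h2 : ((TW x : W) : E) = T x := rfl
    rw [← h2, ← h1]
    rfl
  let J : Fin (Module.finrank ℝ W) → (C(K, ℝ) →L[ℝ] C(K, E)) := fun i =>
    (ContinuousLinearMap.toSpanSingleton ℝ (b i : E)).compLeftContinuous ℝ K
  have hJ : ∀ i (u : C(K, ℝ)) x, J i u x = u x • (b i : E) := fun i u x => rfl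
  have hdec : ∀ u : C(K, E), T.compLeftContinuous ℝ K u =
      ∑ i, J i ((c i).compLeftContinuous ℝ K u) := by
    intro u
    ext x
    have : (∑ i, J i ((c i).compLeftContinuous ℝ K u)) x
        = ∑ i, (J i ((c i).compLeftContinuous ℝ K u)) x := by
      simp [ContinuousMap.coe_sum]
    rw [this]
    show T (u x) = _
    rw [hTc]
    rfl
  have hi : ∀ i, Tendsto (fun n => φ (J i ((c i).compLeftContinuous ℝ K (g n)))) atTop
      (𝓝 0) := by
    intro i
    refine scalar_tendsto hKc (φ.comp (J i)) ?_ ?_ (fun x => c i (f x)) ?_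
      (fun n => (c i).compLeftContinuous ℝ K (g n)) (‖c i‖ * R) ?_ ?_
    · refine hφ _ ?_
      intro x y z t _ _ _
      show (1 : ℝ) • (b i : E) = t • ((1 : ℝ) • (b i : E)) + (1 - t) • ((1 : ℝ) • (b i : E))
      rw [← add_smul, add_sub_cancel, one_smul, one_smul]
    · intro l
      refine hφ _ ?_
      intro x y z t _ _ hz
      show l (z : V) • (b i : E) = t • (l (x : V) • (b i : E)) + (1 - t) • (l (y : V) • (b i : E))
      rw [hz, map_add, map_smul, map_smul, add_smul, smul_eq_mul, smul_eq_mul, mul_smul,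
        mul_smul]
    · intro x y z t ht0 ht1 hz
      have := hfa x y z t ht0 ht1 hz
      simp only [this, map_add, map_smul]
    · intro n x
      show |c i (g n x)| ≤ _
      calc |c i (g n x)| = ‖c i (g n x)‖ := rfl
        _ ≤ ‖c i‖ * ‖g n x‖ := (c i).le_opNorm _
        _ ≤ ‖c i‖ * R := by gcongr; exact hR n x
    · intro x
      exact ((c i).continuous.tendsto (f x)).comp (hg x)
  have hsum := tendsto_finsetSum (Finset.univ) (fun i _ => hi i)
  simp only [Finset.sum_const_zero] at hsum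
  refine hsum.congr fun n => ?_
  rw [hdec, map_sum]

theorem functional_tendsto {K : Set V} [CompactSpace K]
    (hKc : Convex ℝ K) (hAP : HasAP ℝ E) (φ : C(K, E) →L[ℝ] ℝ)
    (hφ : ∀ a : C(K, E), IsAffineFun K a → φ a = 0)
    (f : K → E) (hfa : IsAffineFun K f) (g : ℕ → C(K, E)) (R : ℝ) (hR : ∀ n x, ‖g n x‖ ≤ R)
    (hg : ∀ x, Tendsto (fun n => g n x) atTop (𝓝 (f x))) :
    Tendsto (fun n => φ (g n)) atTop (𝓝 0) := by
  classical
  let _ : MeasurableSpace K := borel K
  have : BorelSpace K := ⟨rfl⟩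
  obtain ⟨ν, hν1, hν2, hν⟩ := exists_dom φ
  have hfR : ∀ x, ‖f x‖ ≤ R := fun x =>
    le_of_tendsto (hg x).norm (Eventually.of_forall fun n => hR n x)
  have hfm : AEStronglyMeasurable f ν :=
    aestronglyMeasurable_of_tendsto_ae atTop
      (fun n => (integrable_of_continuous ν _ (g n).continuous).aestronglyMeasurable)
      (Eventually.of_forall hg)
  have hfi : Integrable f ν := Integrable.of_bound hfm R (Eventually.of_forall hfR)
  rw [Metric.tendsto_atTop]
  intro ε hε
  obtain ⟨T, hT1, hT2⟩ := exists_finrank_L1 hAP ν f hfi (ε / 2) (by positivity)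
  have h1 := finrank_tendsto hKc φ hφ T hT1 f hfa g R hR hg
  have h2 : Tendsto (fun n => ∫ x, ‖g n x - T (g n x)‖ ∂ν) atTop
      (𝓝 (∫ x, ‖f x - T (f x)‖ ∂ν)) := by
    refine tendsto_integral_of_dominated_convergence (fun _ => R + ‖T‖ * R) ?_
      (integrable_const _) ?_ ?_
    · intro n
      exact (integrable_of_continuous ν (fun x => ‖g n x - T (g n x)‖)
        (by fun_prop)).aestronglyMeasurable
    · intro n
      refine Eventually.of_forall fun x => ?_
      rw [norm_norm]
      calc ‖g n x - T (g n x)‖ ≤ ‖g n x‖ + ‖T (g n x)‖ := norm_sub_le _ _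
        _ ≤ ‖g n x‖ + ‖T‖ * ‖g n x‖ := by gcongr; exact T.le_opNorm _
        _ ≤ R + ‖T‖ * R := by gcongr <;> exact hR n x
    · refine Eventually.of_forall fun x => ?_
      exact ((hg x).sub ((T.continuous.tendsto (f x)).comp (hg x))).norm
  have h3 : Tendsto (fun n => ∫ x, ‖g n x - T (g n x)‖ ∂ν
      + |φ (T.compLeftContinuous ℝ K (g n))|) atTop
      (𝓝 (∫ x, ‖f x - T (f x)‖ ∂ν + |0|)) := h2.add h1.abs
  have h4 : ∀ᶠ n in atTop, ∫ x, ‖g n x - T (g n x)‖ ∂ν
      + |φ (T.compLeftContinuous ℝ K (g n))| < ε := by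
    refine h3.eventually (gt_mem_nhds ?_)
    rw [abs_zero, add_zero]
    linarith
  obtain ⟨N, hN⟩ := h4.exists_forall_of_atTop
  refine ⟨N, fun n hn => ?_⟩
  rw [Real.dist_eq, sub_zero]
  refine lt_of_le_of_lt ?_ (hN n hn)
  have h5 : φ (g n) = φ (g n - T.compLeftContinuous ℝ K (g n))
      + φ (T.compLeftContinuous ℝ K (g n)) := by
    rw [← map_add]; congr 1; abel
  rw [h5]
  refine (abs_add_le _ _).trans ?_
  gcongr
  exact hν _

theorem main_real {K : Set V} (hK : IsCompact K) (hKc : Convex ℝ K) (hAP : HasAP ℝ E)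
    (f : K → E) (hfa : IsAffineFun K f) (h : ℕ → K → E) (hc : ∀ n, Continuous (h n))
    (hf : ∀ x, Tendsto (fun n => h n x) atTop (𝓝 (f x))) :
    ∃ F : ℕ → K → E, (∀ n, Continuous (F n) ∧ IsAffineFun K (F n)) ∧
      ∀ x, Tendsto (fun n => F n x) atTop (𝓝 (f x)) := by
  classical
  have : CompactSpace K := isCompact_iff_compactSpace.1 hK
  obtain ⟨R, hR0, hR⟩ := bounded_of_baireOne hK hKc f hfa h hc hf
  -- truncation
  let tr : E → E := fun v => (max 1 (‖v‖ / (R + 1)))⁻¹ • v
  have htr_cont : Continuous tr := by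
    refine Continuous.smul ?_ continuous_id
    refine Continuous.inv₀ (by fun_prop) fun v => ?_
    have : (0 : ℝ) < max 1 (‖v‖ / (R + 1)) := lt_of_lt_of_le one_pos (le_max_left _ _)
    exact this.ne'
  have htr_bd : ∀ v, ‖tr v‖ ≤ R + 1 := by
    intro v
    have h1 : (0 : ℝ) < max 1 (‖v‖ / (R + 1)) := lt_of_lt_of_le one_pos (le_max_left _ _)
    simp only [tr]
    rw [norm_smul, norm_inv, Real.norm_of_nonneg h1.le, inv_mul_le_iff₀ h1]
    have h2 := le_max_right 1 (‖v‖ / (R + 1))
    have h3 : (0 : ℝ) < R + 1 := by linarith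
    rw [div_le_iff₀ h3] at h2
    exact h2
  have htr_id : ∀ v, ‖v‖ ≤ R → tr v = v := by
    intro v hv
    have h3 : (0 : ℝ) < R + 1 := by linarith
    have : max 1 (‖v‖ / (R + 1)) = 1 := by
      refine max_eq_left ?_
      rw [div_le_one h3]; linarith
    simp only [tr, this, inv_one, one_smul]
  let g : ℕ → C(K, E) := fun n => ⟨fun x => tr (h n x), htr_cont.comp (hc n)⟩
  have hgR : ∀ n x, ‖g n x‖ ≤ R + 1 := fun n x => htr_bd _
  have hg : ∀ x, Tendsto (fun n => g n x) atTop (𝓝 (f x)) := by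
    intro x
    have := (htr_cont.tendsto (f x)).comp (hf x)
    rw [htr_id _ (hR x)] at this
    exact this
  -- the subspace of affine maps
  let A : Submodule ℝ C(K, E) :=
    { carrier := {a | IsAffineFun K a}
      add_mem' := by
        intro a b ha hb x y z t ht0 ht1 hz
        have h1 := ha x y z t ht0 ht1 hz
        have h2 := hb x y z t ht0 ht1 hz
        simp only [ContinuousMap.add_apply, h1, h2, smul_add]
        abel
      zero_mem' := by
        intro x y z t _ _ _
        simp
      smul_mem' := by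
        intro c a ha x y z t ht0 ht1 hz
        have h1 := ha x y z t ht0 ht1 hz
        simp only [ContinuousMap.smul_apply, h1, smul_add]
        rw [smul_comm c t, smul_comm c (1 - t)] }
  have key : ∀ k : ℕ, ∀ ε : ℝ, 0 < ε →
      ∃ u ∈ convexHull ℝ (g '' Ici k), ∃ a ∈ A, ‖u - a‖ < ε := by
    intro k ε hε
    by_contra hcon
    push Not at hcon
    set C := convexHull ℝ (g '' Ici k) with hC
    have hdisj : Disjoint (Metric.thickening ε C) (A : Set C(K, E)) := by
      rw [Set.disjoint_left]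
      intro a ha haA
      obtain ⟨u, hu, hau⟩ := Metric.mem_thickening_iff.1 ha
      have := hcon u hu a haA
      rw [dist_comm, dist_eq_norm] at hau
      linarith
    obtain ⟨ψ, s, hψ1, hψ2⟩ := geometric_hahn_banach_open
      ((convex_convexHull ℝ (g '' Ici k)).thickening ε) Metric.isOpen_thickening A.convex hdisj
    have hψA : ∀ a ∈ A, ψ a = 0 := by
      intro a ha
      by_contra hne
      have h1 := hψ2 (((s - 1) / ψ a) • a) (A.smul_mem _ ha)
      rw [map_smul, smul_eq_mul, div_mul_cancel₀ _ hne] at h1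
      linarith
    have hs : s ≤ 0 := by
      have := hψ2 0 A.zero_mem
      simpa using this
    have hsub : C ⊆ Metric.thickening ε C := Metric.self_subset_thickening hε C
    have hgC : ∀ n, k ≤ n → g n ∈ C := fun n hn =>
      subset_convexHull ℝ _ (mem_image_of_mem _ hn)
    have hneg : ψ (g k) < 0 := (hψ1 _ (hsub (hgC k le_rfl))).trans_le hs
    -- choose v
    have hne : g k ≠ 0 := by
      intro h0; rw [h0, map_zero] at hneg; exact lt_irrefl _ hneg
    have hnorm : 0 < ‖g k‖ := norm_pos_iff.2 hne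
    let v : C(K, E) := (-(ε / (2 * ‖g k‖))) • g k
    have hvn : ‖v‖ < ε := by
      simp only [v]
      rw [norm_smul, norm_neg, Real.norm_of_nonneg (by positivity)]
      have : ε / (2 * ‖g k‖) * ‖g k‖ = ε / 2 := by field_simp
      rw [this]; linarith
    have hvψ : 0 < ψ v := by
      simp only [v]
      rw [map_smul, smul_eq_mul]
      have : 0 < ε / (2 * ‖g k‖) := by positivity
      nlinarith
    have hbound : ∀ n, k ≤ n → ψ (g n) ≤ - ψ v := by
      intro n hn
      have h1 : g n + v ∈ Metric.thickening ε C := by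
        refine Metric.mem_thickening_iff.2 ⟨g n, hgC n hn, ?_⟩
        rw [dist_eq_norm]
        simpa using hvn
      have h2 := (hψ1 _ h1).trans_le hs
      rw [map_add] at h2
      linarith
    have hlim := functional_tendsto hKc hAP ψ (fun a ha => hψA a ha) f hfa g (R + 1) hgR hg
    have := le_of_tendsto hlim (eventually_atTop.2 ⟨k, hbound⟩)
    linarith
  have key2 : ∀ k : ℕ, ∃ u ∈ convexHull ℝ (g '' Ici k), ∃ a ∈ A, ‖u - a‖ < 1 / ((k : ℝ) + 1) :=
    fun k => key k _ (by positivity)
  choose u hu a ha hua using key2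
  refine ⟨fun k x => a k x, fun k => ⟨(a k).continuous, ha k⟩, fun x => ?_⟩
  have hux : Tendsto (fun k => u k x) atTop (𝓝 (f x)) := by
    rw [Metric.tendsto_atTop]
    intro ε hε
    obtain ⟨N, hN⟩ := Metric.tendsto_atTop.1 (hg x) (ε / 2) (by positivity)
    refine ⟨N, fun k hk => ?_⟩
    have hconv : Convex ℝ {w : C(K, E) | w x ∈ Metric.closedBall (f x) (ε / 2)} := by
      have := (convex_closedBall (f x) (ε / 2)).linear_preimage
        ({ toFun := fun w : C(K, E) => w x, map_add' := fun _ _ => rfl,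
           map_smul' := fun _ _ => rfl } : C(K, E) →ₗ[ℝ] E)
      exact this
    have hmem : u k ∈ {w : C(K, E) | w x ∈ Metric.closedBall (f x) (ε / 2)} := by
      refine convexHull_min ?_ hconv (hu k)
      rintro _ ⟨n, hn, rfl⟩
      exact (hN n (le_trans hk hn)).le
    have : dist (u k x) (f x) ≤ ε / 2 := hmem
    linarith
  have hdiff : Tendsto (fun k => u k x - a k x) atTop (𝓝 0) := by
    refine squeeze_zero_norm (a := fun k : ℕ => 1 / ((k : ℝ) + 1)) (fun k => ?_)
      tendsto_one_div_add_atTop_nhds_zero_nat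
    calc ‖u k x - a k x‖ = ‖(u k - a k) x‖ := rfl
      _ ≤ ‖u k - a k‖ := (u k - a k).norm_coe_le_norm x
      _ ≤ _ := (hua k).le
  have := hux.sub hdiff
  simpa using this

end Final

end Pool.Agent.Helper40.BaireAffine
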