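import Mathlib
import Pool.Agent.Helper40.Wiener7

open Filter Topology MeasureTheory
open scoped InnerProductSpace ComplexConjugate FourierTransform ArithmeticFunction.Moebius

set_option linter.unusedSectionVars false

namespace Pool.Agent.Helper40.QFree

open Pool.Agent.Helper40.Wiener Pool.Agent.Helper40.Mob

section bounds

variable {K : Type*} [NormedAddCommGroup K] [InnerProductSpace ℂ K] [CompleteSpace K]

theorem inner_star_left (T : K →L[ℂ] K) (x y : K) : inner ℂ (star T x) y = inner ℂ x (T y) := by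
  rw [ContinuousLinearMap.star_eq_adjoint, ContinuousLinearMap.adjoint_inner_left]

theorem inner_star_right (T : K →L[ℂ] K) (x y : K) : inner ℂ x (star T y) = inner ℂ (T x) y := by
  rw [ContinuousLinearMap.star_eq_adjoint, ContinuousLinearMap.adjoint_inner_right]

/-- the basic estimate for `q`-commuting creation operators -/
theorem row_bound (q : ℝ) (hq : |q| < 1) (T : ℕ → K →L[ℂ] K) (g : ℕ → ℕ → ℂ)
    (hT : ∀ m n, star (T m) * T n = (q : ℂ) • (T n * star (T m)) + g m n • 1)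
    (hg : ∀ m n, ‖g m n‖ = ‖g n m‖) (N : ℕ) (R : ℝ) (hR0 : 0 ≤ R)
    (hR : ∀ m < N, ∑ n ∈ Finset.range N, ‖g m n‖ ≤ R) (η : K) :
    ∑ n ∈ Finset.range N, ‖star (T n) η‖ ^ 2 ≤ R / (1 - |q|) * ‖η‖ ^ 2 := by
  set P : K →L[ℂ] K := ∑ n ∈ Finset.range N, T n * star (T n) with hP
  have hPx : ∀ x : K, P x = ∑ n ∈ Finset.range N, T n (star (T n) x) := by
    intro x
    rw [hP, sum_apply]
    rfl
  have hS : ∀ x : K, ((∑ n ∈ Finset.range N, ‖star (T n) x‖ ^ 2 : ℝ) : ℂ) = inner ℂ x (P x) := by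
    intro x
    rw [hPx, inner_sum]
    push_cast
    apply Finset.sum_congr rfl
    intro n _
    rw [← inner_star_left, Weyl.norm_sq_eq_inner]
  have hSle : ∀ x : K, ∑ n ∈ Finset.range N, ‖star (T n) x‖ ^ 2 ≤ ‖P‖ * ‖x‖ ^ 2 := by
    intro x
    have h1 : ∑ n ∈ Finset.range N, ‖star (T n) x‖ ^ 2 =
        ‖((∑ n ∈ Finset.range N, ‖star (T n) x‖ ^ 2 : ℝ) : ℂ)‖ := by
      rw [Complex.norm_real, Real.norm_of_nonneg (by positivity)]
    rw [h1, hS]
    calc _ ≤ ‖x‖ * ‖P x‖ := norm_inner_le_norm _ _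
      _ ≤ ‖x‖ * (‖P‖ * ‖x‖) := by gcongr; exact P.le_opNorm x
      _ = _ := by ring
  have hPn : 0 ≤ ‖P‖ := norm_nonneg _
  -- main estimate
  have hmain : ∀ x : K, ‖P x‖ ^ 2 ≤ (R + |q| * ‖P‖) * ∑ n ∈ Finset.range N, ‖star (T n) x‖ ^ 2 := by
    intro x
    set y : ℕ → K := fun n => star (T n) x with hy
    have h1 : ((‖P x‖ ^ 2 : ℝ) : ℂ) = ∑ m ∈ Finset.range N, ∑ n ∈ Finset.range N,
        (g m n * inner ℂ (y m) (y n) + (q : ℂ) * inner ℂ (star (T n) (y m)) (star (T m) (y n))) := by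
      push_cast
      rw [Weyl.norm_sq_eq_inner, hPx, sum_inner]
      apply Finset.sum_congr rfl
      intro m _
      rw [inner_sum]
      apply Finset.sum_congr rfl
      intro n _
      change inner ℂ (T m (y m)) (T n (y n)) = _
      have e1 : star (T m) (T n (y n)) = (q : ℂ) • T n (star (T m) (y n)) + g m n • y n := by
        have := congrArg (fun S : K →L[ℂ] K => S (y n)) (hT m n)
        simpa only [mul_apply_eq_comp, add_apply, smul_apply, one_apply_eq_self,
          Function.comp_apply] using this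
      rw [← inner_star_right, e1, inner_add_right, inner_smul_right, inner_smul_right,
        ← inner_star_left (T n)]
      ring
    have h2 : ‖P x‖ ^ 2 ≤ ∑ m ∈ Finset.range N, ∑ n ∈ Finset.range N,
        (‖g m n‖ * ((‖y m‖ ^ 2 + ‖y n‖ ^ 2) / 2) +
          |q| * ((‖star (T n) (y m)‖ ^ 2 + ‖star (T m) (y n)‖ ^ 2) / 2)) := by
      have h3 : ‖P x‖ ^ 2 = ‖((‖P x‖ ^ 2 : ℝ) : ℂ)‖ := by
        rw [Complex.norm_real, Real.norm_of_nonneg (by positivity)]
      rw [h3, h1]
      refine (norm_sum_le _ _).trans (Finset.sum_le_sum fun m _ => ?_)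
      refine (norm_sum_le _ _).trans (Finset.sum_le_sum fun n _ => ?_)
      refine (norm_add_le _ _).trans (add_le_add ?_ ?_)
      · rw [norm_mul]
        gcongr
        refine (norm_inner_le_norm _ _).trans ?_
        nlinarith [sq_nonneg (‖y m‖ - ‖y n‖)]
      · rw [norm_mul, Complex.norm_real, Real.norm_eq_abs]
        gcongr
        refine (norm_inner_le_norm _ _).trans ?_
        nlinarith [sq_nonneg (‖star (T n) (y m)‖ - ‖star (T m) (y n)‖)]
    have h4 : ∑ m ∈ Finset.range N, ∑ n ∈ Finset.range N,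
        (‖g m n‖ * ((‖y m‖ ^ 2 + ‖y n‖ ^ 2) / 2) +
          |q| * ((‖star (T n) (y m)‖ ^ 2 + ‖star (T m) (y n)‖ ^ 2) / 2)) =
        ∑ m ∈ Finset.range N, ((∑ n ∈ Finset.range N, ‖g m n‖) * ‖y m‖ ^ 2 +
          |q| * ∑ n ∈ Finset.range N, ‖star (T n) (y m)‖ ^ 2) := by
      have e1 : ∑ m ∈ Finset.range N, ∑ n ∈ Finset.range N, ‖g m n‖ * ‖y n‖ ^ 2 =
          ∑ m ∈ Finset.range N, ∑ n ∈ Finset.range N, ‖g m n‖ * ‖y m‖ ^ 2 := by
        rw [Finset.sum_comm]
        apply Finset.sum_congr rfl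
        intro m _
        apply Finset.sum_congr rfl
        intro n _
        rw [hg]
      have e2 : ∑ m ∈ Finset.range N, ∑ n ∈ Finset.range N, ‖star (T m) (y n)‖ ^ 2 =
          ∑ m ∈ Finset.range N, ∑ n ∈ Finset.range N, ‖star (T n) (y m)‖ ^ 2 := Finset.sum_comm
      have e3 : ∀ a b : ℝ, ∀ c d : ℝ, a * ((b + c) / 2) + |q| * d = 
        (a * b) / 2 + (a * c) / 2 + |q| * d := by intro a b c d; ring
      simp only [mul_add, add_div, Finset.sum_add_distrib, Finset.sum_mul, Finset.mul_sum,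
        mul_div_assoc']
      simp only [← Finset.sum_div]
      rw [e1]
      simp only [← Finset.mul_sum]
      rw [e2]
      ring
    rw [h4] at h2
    refine h2.trans ?_
    rw [Finset.mul_sum]
    apply Finset.sum_le_sum
    intro m hm
    have h5 := hR m (Finset.mem_range.1 hm)
    have h6 := hSle (y m)
    calc _ ≤ R * ‖y m‖ ^ 2 + |q| * (‖P‖ * ‖y m‖ ^ 2) := by gcongr
      _ = _ := by ring
  have hq' : 0 < 1 - |q| := by linarith
  have hκ : ‖P‖ ≤ R / (1 - |q|) := by
    have h7 : ∀ x : K, ‖P x‖ ≤ √((R + |q| * ‖P‖) * ‖P‖) * ‖x‖ := by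
      intro x
      apply (pow_le_pow_iff_left₀ (norm_nonneg _) (by positivity) two_ne_zero).1
      rw [mul_pow, Real.sq_sqrt (by positivity)]
      calc _ ≤ _ := hmain x
        _ ≤ (R + |q| * ‖P‖) * (‖P‖ * ‖x‖ ^ 2) := by gcongr; exact hSle x
        _ = _ := by ring
    have h8 : ‖P‖ ≤ √((R + |q| * ‖P‖) * ‖P‖) := P.opNorm_le_bound (by positivity) h7
    have h9 : ‖P‖ ^ 2 ≤ (R + |q| * ‖P‖) * ‖P‖ := by
      calc _ ≤ √((R + |q| * ‖P‖) * ‖P‖) ^ 2 := by gcongr
        _ = _ := Real.sq_sqrt (by positivity)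
    rw [le_div_iff₀ hq']
    rcases hPn.eq_or_lt with h0 | h0
    · rw [← h0]; simpa using hR0
    · nlinarith
  calc _ ≤ _ := hSle η
    _ ≤ _ := by gcongr

end bounds

section words

variable {A : Type*} [CStarAlgebra A] {H : Type*} [NormedAddCommGroup H] [InnerProductSpace ℂ H]
  [CompleteSpace H]

/-- words in the generators -/
noncomputable def Sw (s : H →ₗ[ℂ] A) : List H → A
  | [] => 1
  | ξ :: L => s ξ * Sw s L

/-- the `q`-commutation relations -/
def IsQ (q : ℝ) (s : H →ₗ[ℂ] A) : Prop :=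
  ∀ ξ η : H, star (s ξ) * s η = (q : ℂ) • (s η * star (s ξ)) + (inner ℂ ξ η) • (1 : A)

theorem s_norm {q : ℝ} (hq : |q| < 1) {s : H →ₗ[ℂ] A} (hs : IsQ q s) (ξ : H) :
    ‖s ξ‖ ≤ √(1 / (1 - |q|)) * ‖ξ‖ := by
  have hq' : 0 < 1 - |q| := by linarith
  have h1 : ‖s ξ‖ ^ 2 ≤ |q| * ‖s ξ‖ ^ 2 + ‖ξ‖ ^ 2 := by
    calc ‖s ξ‖ ^ 2 = ‖star (s ξ) * s ξ‖ := by rw [CStarRing.norm_star_mul_self, sq]
      _ = ‖(q : ℂ) • (s ξ * star (s ξ)) + (inner ℂ ξ ξ) • (1 : A)‖ := by rw [hs]
      _ ≤ ‖(q : ℂ) • (s ξ * star (s ξ))‖ + ‖(inner ℂ ξ ξ : ℂ) • (1 : A)‖ := norm_add_le _ _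
      _ ≤ _ := by
        rw [norm_smul, norm_smul, CStarRing.norm_self_mul_star, Complex.norm_real,
          Real.norm_eq_abs, ← sq]
        have h2 : ‖(inner ℂ ξ ξ : ℂ)‖ = ‖ξ‖ ^ 2 := by
          rw [← Weyl.norm_sq_eq_inner, norm_pow, Complex.norm_real, norm_norm]
        have h3 : ‖(1 : A)‖ ≤ 1 := by
          rcases subsingleton_or_nontrivial A with h | h
          · rw [Subsingleton.elim (1 : A) 0]; simp
          · exact CStarRing.norm_one.le
        rw [h2]
        nlinarith [sq_nonneg ‖ξ‖]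
  have h2 : ‖s ξ‖ ^ 2 ≤ (1 / (1 - |q|)) * ‖ξ‖ ^ 2 := by
    rw [one_div, inv_mul_eq_div, le_div_iff₀ hq']
    nlinarith
  apply (pow_le_pow_iff_left₀ (norm_nonneg _) (by positivity) two_ne_zero).1
  rw [mul_pow, Real.sq_sqrt (by positivity)]
  exact h2

theorem Sw_append (s : H →ₗ[ℂ] A) (L : List H) (ξ : H) : Sw s (L ++ [ξ]) = Sw s L * s ξ := by
  induction L with
  | nil => simp [Sw]
  | cons η L ih => simp only [List.cons_append, Sw, ih, mul_assoc]

/-- the span of the creation words -/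
noncomputable def Vw (s : H →ₗ[ℂ] A) : Submodule ℂ A := Submodule.span ℂ (Set.range (Sw s))

/-- the span of the Wick words -/
noncomputable def Ww (s : H →ₗ[ℂ] A) : Submodule ℂ A :=
  Submodule.span ℂ {x : A | ∃ L M : List H, x = Sw s L * star (Sw s M)}

theorem s_mul_Vw (s : H →ₗ[ℂ] A) (ξ : H) {x : A} (hx : x ∈ Vw s) : s ξ * x ∈ Vw s := by
  have : Vw s ≤ (Vw s).comap (LinearMap.mulLeft ℂ (s ξ)) := by
    rw [Vw, Submodule.span_le]
    rintro _ ⟨L, rfl⟩
    exact Submodule.subset_span ⟨ξ :: L, rfl⟩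
  exact this hx

theorem star_word {q : ℝ} {s : H →ₗ[ℂ] A} (hs : IsQ q s) (ξ : H) (L : List H) :
    ∃ x ∈ Vw s, star (s ξ) * Sw s L = x + ((q : ℂ) ^ L.length) • (Sw s L * star (s ξ)) := by
  induction L with
  | nil => exact ⟨0, Submodule.zero_mem _, by simp [Sw]⟩
  | cons η L ih =>
    obtain ⟨x, hx, h1⟩ := ih
    refine ⟨(q : ℂ) • (s η * x) + (inner ℂ ξ η : ℂ) • Sw s L, ?_, ?_⟩
    · exact Submodule.add_mem _ (Submodule.smul_mem _ _ (s_mul_Vw s η hx))
        (Submodule.smul_mem _ _ (Submodule.subset_span ⟨L, rfl⟩))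
    · have h2 : Sw s (η :: L) = s η * Sw s L := rfl
      rw [h2, ← mul_assoc, hs, add_mul, smul_mul_assoc, smul_mul_assoc, one_mul, mul_assoc, h1,
        mul_add, smul_add, List.length_cons, pow_succ, mul_smul_comm, smul_smul, ← mul_assoc]
      rw [mul_comm ((q : ℂ) ^ L.length) (q : ℂ)]
      abel

theorem s_mul_Ww (s : H →ₗ[ℂ] A) (ξ : H) {x : A} (hx : x ∈ Ww s) : s ξ * x ∈ Ww s := by
  have : Ww s ≤ (Ww s).comap (LinearMap.mulLeft ℂ (s ξ)) := by
    rw [Ww, Submodule.span_le]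
    rintro _ ⟨L, M, rfl⟩
    refine Submodule.subset_span ⟨ξ :: L, M, ?_⟩
    simp only [LinearMap.mulLeft_apply, Sw, mul_assoc]
  exact this hx

theorem Vw_mul_star {s : H →ₗ[ℂ] A} {x : A} (hx : x ∈ Vw s) (M : List H) :
    x * star (Sw s M) ∈ Ww s := by
  have : Vw s ≤ (Ww s).comap (LinearMap.mulRight ℂ (star (Sw s M))) := by
    rw [Vw, Submodule.span_le]
    rintro _ ⟨L, rfl⟩
    exact Submodule.subset_span ⟨L, M, rfl⟩
  exact this hx

theorem star_mul_Ww {q : ℝ} {s : H →ₗ[ℂ] A} (hs : IsQ q s) (ξ : H) {x : A} (hx : x ∈ Ww s) :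
    star (s ξ) * x ∈ Ww s := by
  have : Ww s ≤ (Ww s).comap (LinearMap.mulLeft ℂ (star (s ξ))) := by
    rw [Ww, Submodule.span_le]
    rintro _ ⟨L, M, rfl⟩
    obtain ⟨x, hx, h1⟩ := star_word hs ξ L
    change star (s ξ) * (Sw s L * star (Sw s M)) ∈ Ww s
    rw [← mul_assoc, h1, add_mul]
    refine Submodule.add_mem _ (Vw_mul_star hx M) ?_
    rw [smul_mul_assoc, mul_assoc, ← star_mul, ← Sw_append]
    exact Submodule.smul_mem _ _ (Submodule.subset_span ⟨L, M ++ [ξ], rfl⟩)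
  exact this hx

theorem adjoin_le {q : ℝ} {s : H →ₗ[ℂ] A} (hs : IsQ q s) {x : A}
    (hx : x ∈ StarAlgebra.adjoin ℂ (Set.range s)) : x ∈ Ww s := by
  have h1 : x ∈ Algebra.adjoin ℂ (Set.range s ∪ star (Set.range s)) := hx
  clear hx
  have h2 : ∀ y ∈ Ww s, x * y ∈ Ww s := by
    induction h1 using Algebra.adjoin_induction with
    | mem x hx =>
      intro y hy
      rcases hx with ⟨ξ, rfl⟩ | hx
      · exact s_mul_Ww s ξ hy
      · obtain ⟨ξ, hξ⟩ := hx
        have : x = star (s ξ) := by rw [hξ, star_star]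
        rw [this]
        exact star_mul_Ww hs ξ hy
    | algebraMap r =>
      intro y hy
      rw [← Algebra.smul_def]
      exact Submodule.smul_mem _ _ hy
    | add x y _ _ hx hy =>
      intro z hz
      rw [add_mul]
      exact Submodule.add_mem _ (hx z hz) (hy z hz)
    | mul x y _ _ hx hy =>
      intro z hz
      rw [mul_assoc]
      exact hx _ (hy z hz)
  have h3 : (1 : A) ∈ Ww s := Submodule.subset_span ⟨[], [], by simp [Sw]⟩
  have := h2 1 h3
  rwa [mul_one] at this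

end words

/-- bounded weights orthogonal to all characters -/
def OrthLin (ν : ℕ → ℂ) : Prop :=
  (∀ n, ‖ν n‖ ≤ 1) ∧ ∀ z : ℂ, ‖z‖ = 1 →
    Tendsto (fun N : ℕ => ‖∑ n ∈ Finset.range N, ν n * z ^ n‖ / (N : ℝ)) atTop (𝓝 0)

theorem OrthLin.mul {ν : ℕ → ℂ} (hν : OrthLin ν) {w : ℂ} (hw : ‖w‖ = 1) :
    OrthLin (fun n => ν n * w ^ n) := by
  refine ⟨fun n => ?_, fun z hz => ?_⟩
  · rw [norm_mul, norm_pow, hw, one_pow, mul_one]; exact hν.1 n
  · refine (hν.2 (w * z) (by rw [norm_mul, hw, hz, one_mul])).congr fun N => ?_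
    congr 2
    apply Finset.sum_congr rfl
    intro n _
    rw [mul_pow]
    ring

theorem OrthLin.conj {ν : ℕ → ℂ} (hν : OrthLin ν) : OrthLin (fun n => conj (ν n)) := by
  refine ⟨fun n => ?_, fun z hz => ?_⟩
  · rw [RCLike.norm_conj]; exact hν.1 n
  · refine (hν.2 (conj z) (by rw [RCLike.norm_conj, hz])).congr fun N => ?_
    rw [← RCLike.norm_conj, map_sum]
    congr 2
    apply Finset.sum_congr rfl
    intro n _
    rw [map_mul, map_pow, Complex.conj_conj]

theorem orthLin_moebius : OrthLin (fun n => (μ n : ℂ)) := by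
  refine ⟨norm_moebius, fun z hz => ?_⟩
  have h1 := range_of_Icc (fun n => (μ n : ℂ) * z ^ n) 1 (fun n => by
    rw [norm_mul, norm_pow, hz, one_pow, mul_one]; exact norm_moebius n) (Weyl.moebius_linear z hz)
  have h2 := h1.norm
  rw [norm_zero] at h2
  refine h2.congr fun N => ?_
  rw [norm_div, Complex.norm_natCast]

section good

variable {E F : Type*} [NormedAddCommGroup E] [NormedSpace ℂ E] [NormedAddCommGroup F]
  [NormedSpace ℂ F]

theorem goodL_closed' (T : ℕ → E →ₗ[ℂ] F) (ν : ℕ → ℂ) (hν : ∀ n, ‖ν n‖ ≤ 1) (C : ℝ)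
    (hT : ∀ n ξ, ‖T n ξ‖ ≤ C * ‖ξ‖) : IsClosed (goodL T ν : Set E) := by
  have hC : 0 < |C| + 1 := by positivity
  have h1 : (goodL T ν : Set E) =
      (goodL (fun n => (((|C| + 1)⁻¹ : ℝ) : ℂ) • T n) ν : Set E) := by
    ext ξ
    change Tendsto _ _ _ ↔ Tendsto _ _ _
    have h2 : ∀ N : ℕ, ‖∑ n ∈ Finset.range N, ν n • ((((|C| + 1)⁻¹ : ℝ) : ℂ) • T n) ξ‖ / (N : ℝ) =
        (|C| + 1)⁻¹ * (‖∑ n ∈ Finset.range N, ν n • T n ξ‖ / (N : ℝ)) := by
      intro N
      have : ∑ n ∈ Finset.range N, ν n • ((((|C| + 1)⁻¹ : ℝ) : ℂ) • T n) ξ =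
          (((|C| + 1)⁻¹ : ℝ) : ℂ) • ∑ n ∈ Finset.range N, ν n • T n ξ := by
        rw [Finset.smul_sum]
        apply Finset.sum_congr rfl
        intro n _
        rw [LinearMap.smul_apply, smul_comm]
      rw [this, norm_smul, Complex.norm_real, Real.norm_of_nonneg (by positivity), mul_div_assoc]
    simp only [h2]
    constructor
    · intro h
      have := h.const_mul (|C| + 1)⁻¹
      rwa [mul_zero] at this
    · intro h
      have := h.const_mul (|C| + 1)
      rw [mul_zero] at this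
      refine this.congr fun N => ?_
      rw [← mul_assoc, mul_inv_cancel₀ hC.ne', one_mul]
  rw [h1]
  apply goodL_closed _ ν hν
  intro n ξ
  rw [LinearMap.smul_apply, norm_smul, Complex.norm_real, Real.norm_of_nonneg (by positivity),
    inv_mul_le_iff₀ hC]
  refine (hT n ξ).trans ?_
  gcongr
  linarith [le_abs_self C]

end good

section main

variable {A : Type*} [CStarAlgebra A] {H : Type*} [NormedAddCommGroup H] [InnerProductSpace ℂ H]
  [CompleteSpace H] {K : Type*} [NormedAddCommGroup K] [InnerProductSpace ℂ K] [CompleteSpace K]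

/-- the moved word -/
noncomputable def mw (s : H →ₗ[ℂ] A) (U : H →L[ℂ] H) (L : List H) (n : ℕ) : A :=
  Sw s (L.map (fun ξ => (U ^ n) ξ))

theorem mw_cons (s : H →ₗ[ℂ] A) (U : H →L[ℂ] H) (ξ : H) (L : List H) (n : ℕ) :
    mw s U (ξ :: L) n = s ((U ^ n) ξ) * mw s U L n := rfl

theorem mw_bound {q : ℝ} (hq : |q| < 1) {s : H →ₗ[ℂ] A} (hs : IsQ q s) (U : H →L[ℂ] H)
    (hU : U ∈ unitary (H →L[ℂ] H)) (L : List H) : ∃ C : ℝ, 0 ≤ C ∧ ∀ n, ‖mw s U L n‖ ≤ C := by
  induction L with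
  | nil => exact ⟨‖(1 : A)‖, norm_nonneg _, fun n => le_rfl⟩
  | cons ξ L ih =>
    obtain ⟨C, hC, h1⟩ := ih
    refine ⟨√(1 / (1 - |q|)) * ‖ξ‖ * C, by positivity, fun n => ?_⟩
    rw [mw_cons]
    refine (norm_mul_le _ _).trans ?_
    gcongr
    · refine (s_norm hq hs _).trans ?_
      rw [norm_pow_apply U hU]
    · exact h1 n

/-- the claim for a pair of words -/
def Claim (s : H →ₗ[ℂ] A) (U : H →L[ℂ] H) (π : A →⋆ₐ[ℂ] (K →L[ℂ] K)) (L M : List H) : Prop :=
  ∀ ν : ℕ → ℂ, OrthLin ν → ∀ η ζ : K, Tendsto (fun N : ℕ =>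
    ‖∑ n ∈ Finset.range N, ν n * inner ℂ η (π (mw s U L n * star (mw s U M n)) ζ)‖ / (N : ℝ))
    atTop (𝓝 0)

theorem claim_nil (s : H →ₗ[ℂ] A) (U : H →L[ℂ] H) (π : A →⋆ₐ[ℂ] (K →L[ℂ] K)) :
    Claim s U π [] [] := by
  intro ν hν η ζ
  have h1 := (hν.2 1 norm_one).mul_const ‖(inner ℂ η ζ : ℂ)‖
  rw [zero_mul] at h1
  refine h1.congr fun N => ?_
  have h2 : ∀ n, mw s U [] n = 1 := fun n => rfl
  simp only [h2, star_one, mul_one, map_one, one_apply_eq_self, one_pow]
  rw [← Finset.sum_mul, norm_mul]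
  ring

theorem claim_conj (s : H →ₗ[ℂ] A) (U : H →L[ℂ] H) (π : A →⋆ₐ[ℂ] (K →L[ℂ] K)) (L M : List H)
    (h : Claim s U π L M) : Claim s U π M L := by
  intro ν hν η ζ
  refine (h _ hν.conj ζ η).congr fun N => ?_
  rw [← RCLike.norm_conj, map_sum]
  congr 2
  apply Finset.sum_congr rfl
  intro n _
  rw [map_mul, Complex.conj_conj, inner_conj_symm]
  congr 1
  have : star (mw s U M n * star (mw s U L n)) = mw s U L n * star (mw s U M n) := by
    rw [star_mul, star_star]
  rw [← this, map_star, inner_star_left]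

theorem claim_cons {q : ℝ} (hq : |q| < 1) {s : H →ₗ[ℂ] A} (hs : IsQ q s) (U : H →L[ℂ] H)
    (hU : U ∈ unitary (H →L[ℂ] H)) (π : A →⋆ₐ[ℂ] (K →L[ℂ] K)) (L M : List H)
    (h : Claim s U π L M) (ξ : H) : Claim s U π (ξ :: L) M := by
  intro ν hν η ζ
  obtain ⟨C, hC, hCL⟩ := mw_bound hq hs U hU L
  obtain ⟨C', hC', hCM⟩ := mw_bound hq hs U hU M
  have hq' : 0 < 1 - |q| := by linarith
  have hπn : ∀ a : A, ‖π a‖ ≤ ‖a‖ := fun a => NonUnitalStarAlgHom.norm_apply_le π a
  -- the linear maps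
  let T : ℕ → H →ₗ[ℂ] ℂ := fun n =>
    { toFun := fun ξ => inner ℂ η (π (s ((U ^ n) ξ) * (mw s U L n * star (mw s U M n))) ζ)
      map_add' := by
        intro x y
        rw [map_add, map_add, add_mul, map_add, add_apply, inner_add_right]
      map_smul' := by
        intro c x
        rw [map_smul, map_smul, smul_mul_assoc, map_smul, smul_apply, inner_smul_right]
        rfl }
  have hT : ∀ n x, ‖T n x‖ ≤ (‖η‖ * √(1 / (1 - |q|)) * C * C' * ‖ζ‖) * ‖x‖ := by
    intro n x
    change ‖inner ℂ η (π (s ((U ^ n) x) * (mw s U L n * star (mw s U M n))) ζ)‖ ≤ _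
    calc _ ≤ ‖η‖ * ‖π (s ((U ^ n) x) * (mw s U L n * star (mw s U M n))) ζ‖ :=
          norm_inner_le_norm _ _
      _ ≤ ‖η‖ * (‖s ((U ^ n) x) * (mw s U L n * star (mw s U M n))‖ * ‖ζ‖) := by
          gcongr
          refine (ContinuousLinearMap.le_opNorm _ _).trans ?_
          gcongr
          exact hπn _
      _ ≤ ‖η‖ * (((√(1 / (1 - |q|)) * ‖x‖) * (C * C')) * ‖ζ‖) := by
          gcongr
          refine (norm_mul_le _ _).trans ?_
          gcongr
          · refine (s_norm hq hs _).trans ?_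
            rw [norm_pow_apply U hU]
          · refine (norm_mul_le _ _).trans ?_
            rw [norm_star]
            gcongr
            · exact hCL n
            · exact hCM n
      _ = _ := by ring
  have hgoal : ξ ∈ goodL T ν := by
    apply good_top (goodL T ν) (goodL_closed' T ν hν.1 _ hT) U
    · intro z x hx
      by_cases h0 : x = 0
      · rw [h0]; exact Submodule.zero_mem _
      have hz : ‖z‖ = 1 := by
        have h1 := norm_pow_apply U hU 1 x
        rw [pow_one, hx, norm_smul] at h1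
        have h2 : ‖x‖ ≠ 0 := norm_ne_zero_iff.2 h0
        exact mul_right_cancel₀ h2 (by rw [h1, one_mul])
      have hpow : ∀ n : ℕ, (U ^ n) x = z ^ n • x := by
        intro n
        induction n with
        | zero => simp
        | succ n ih => rw [pow_succ', mul_apply_eq_comp, ih, map_smul, hx,
            smul_smul, pow_succ]
      have h1 := h _ (hν.mul hz) (star (π (s x)) η) ζ
      change Tendsto _ _ _
      refine h1.congr fun N => ?_
      congr 2
      apply Finset.sum_congr rfl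
      intro n _
      change _ = ν n • inner ℂ η (π (s ((U ^ n) x) * (mw s U L n * star (mw s U M n))) ζ)
      rw [hpow, map_smul, smul_mul_assoc, map_smul, smul_apply, inner_smul_right, map_mul π (s x),
        inner_star_left, smul_eq_mul]
      ring_nf
      rfl
    · intro x hx
      have hwm := wm_of_cts U hU x hx
      change Tendsto _ _ _
      -- the Gram matrix
      let g : ℕ → ℕ → ℂ := fun m n => inner ℂ ((U ^ m) x) ((U ^ n) x)
      let b : ℕ → ℝ := fun k => ‖inner ℂ x ((U ^ k) x)‖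
      have hgs : ∀ m n, ‖g m n‖ = ‖g n m‖ := by
        intro m n
        change ‖inner ℂ ((U ^ m) x) ((U ^ n) x)‖ = ‖inner ℂ ((U ^ n) x) ((U ^ m) x)‖
        rw [← inner_conj_symm, RCLike.norm_conj]
      have hgb : ∀ m k, g m (m + k) = inner ℂ x ((U ^ k) x) := by
        intro m k
        change inner ℂ ((U ^ m) x) ((U ^ (m + k)) x) = _
        rw [pow_add, mul_apply_eq_comp, inner_map_map (pow_mem hU m)]
      have hgb' : ∀ m n, ‖g m n‖ = b (if m ≤ n then n - m else m - n) := by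
        intro m n
        split_ifs with hmn
        · obtain ⟨k, rfl⟩ := Nat.exists_eq_add_of_le hmn
          rw [hgb, Nat.add_sub_cancel_left]
        · obtain ⟨k, rfl⟩ := Nat.exists_eq_add_of_le (le_of_not_ge hmn)
          rw [hgs, hgb, Nat.add_sub_cancel_left]
      have hrow : ∀ N, ∀ m < N, ∑ n ∈ Finset.range N, ‖g m n‖ ≤
          2 * ∑ k ∈ Finset.range N, b k := by
        intro N m hm
        simp only [hgb']
        exact double_sum_le b (fun n => norm_nonneg _) N m hm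
      have hTm : ∀ m n, star (π (s ((U ^ m) x))) * π (s ((U ^ n) x)) =
          (q : ℂ) • (π (s ((U ^ n) x)) * star (π (s ((U ^ m) x)))) + g m n • 1 := by
        intro m n
        rw [← map_star, ← map_mul, hs, map_add, map_smul, map_smul, map_mul, map_one]
      have hsum : ∀ N : ℕ, ‖∑ n ∈ Finset.range N, ν n • T n x‖ ^ 2 ≤
          2 * N * ∑ k ∈ Finset.range N, ((1 / (1 - |q|)) * ‖η‖ ^ 2 * (C * C' * ‖ζ‖) ^ 2) * b k := by
        intro N
        have h1 := row_bound q hq (fun n => π (s ((U ^ n) x))) g hTm hgs N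
          (2 * ∑ k ∈ Finset.range N, b k) (by positivity) (hrow N) η
        have h2 : ∀ n, ‖ν n • T n x‖ ≤ ‖star (π (s ((U ^ n) x))) η‖ * (C * C' * ‖ζ‖) := by
          intro n
          rw [norm_smul]
          calc _ ≤ 1 * ‖T n x‖ := by gcongr; exact hν.1 n
            _ = ‖inner ℂ (star (π (s ((U ^ n) x))) η) (π (mw s U L n * star (mw s U M n)) ζ)‖ := by
                rw [one_mul, inner_star_left]
                congr 1
                change inner ℂ η (π (s ((U ^ n) x) * (mw s U L n * star (mw s U M n))) ζ) = _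
                rw [map_mul]
                rfl
            _ ≤ ‖star (π (s ((U ^ n) x))) η‖ * ‖π (mw s U L n * star (mw s U M n)) ζ‖ :=
                norm_inner_le_norm _ _
            _ ≤ _ := by
                gcongr
                refine (ContinuousLinearMap.le_opNorm _ _).trans ?_
                gcongr
                refine (hπn _).trans ((norm_mul_le _ _).trans ?_)
                rw [norm_star]
                gcongr
                · exact hCL n
                · exact hCM n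
        calc _ ≤ (∑ n ∈ Finset.range N, ‖ν n • T n x‖) ^ 2 := by
              gcongr
              exact norm_sum_le _ _
          _ ≤ (∑ n ∈ Finset.range N, ‖star (π (s ((U ^ n) x))) η‖ * (C * C' * ‖ζ‖)) ^ 2 := by
              gcongr with n hn
              exact h2 n
          _ ≤ (∑ n ∈ Finset.range N, ‖star (π (s ((U ^ n) x))) η‖ ^ 2) *
                (∑ n ∈ Finset.range N, (C * C' * ‖ζ‖) ^ 2) :=
              Finset.sum_mul_sq_le_sq_mul_sq _ _ _
          _ ≤ ((2 * ∑ k ∈ Finset.range N, b k) / (1 - |q|) * ‖η‖ ^ 2) *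
                (N * (C * C' * ‖ζ‖) ^ 2) := by
              gcongr
              rw [Finset.sum_const, Finset.card_range, nsmul_eq_mul]
          _ = _ := by
              rw [← Finset.mul_sum]
              ring
      apply tendsto_of_sq _ (fun N => norm_nonneg _) _ hsum
      have h3 := hwm.const_mul ((1 / (1 - |q|)) * ‖η‖ ^ 2 * (C * C' * ‖ζ‖) ^ 2)
      rw [mul_zero] at h3
      refine h3.congr fun N => ?_
      rw [← Finset.mul_sum, mul_div_assoc]
  have hgoal' : Tendsto (fun N : ℕ => ‖∑ n ∈ Finset.range N, ν n • T n ξ‖ / (N : ℝ)) atTop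
    (𝓝 0) := hgoal
  refine hgoal'.congr fun N => ?_
  congr 2
  apply Finset.sum_congr rfl
  intro n _
  change ν n • inner ℂ η (π (s ((U ^ n) ξ) * (mw s U L n * star (mw s U M n))) ζ) = _
  rw [smul_eq_mul, mw_cons, mul_assoc]

theorem claim_all {q : ℝ} (hq : |q| < 1) {s : H →ₗ[ℂ] A} (hs : IsQ q s) (U : H →L[ℂ] H)
    (hU : U ∈ unitary (H →L[ℂ] H)) (π : A →⋆ₐ[ℂ] (K →L[ℂ] K)) (L M : List H) :
    Claim s U π L M := by
  have h1 : ∀ M, Claim s U π M [] := by
    intro M
    induction M with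
    | nil => exact claim_nil s U π
    | cons ξ M ih => exact claim_cons hq hs U hU π M [] ih ξ
  induction L with
  | nil => exact claim_conj _ _ _ _ _ (h1 M)
  | cons ξ L ih => exact claim_cons hq hs U hU π L M ih ξ

theorem qfree (q : ℝ) (hq : |q| < 1) (s : H →ₗ[ℂ] A)
    (hs : ∀ ξ η : H, star (s ξ) * s η = (q : ℂ) • (s η * star (s ξ)) + (inner ℂ ξ η) • (1 : A))
    (hgen : Dense ((StarAlgebra.adjoin ℂ (Set.range s) : StarSubalgebra ℂ A) : Set A))
    (U : H →L[ℂ] H) (hU : U ∈ unitary (H →L[ℂ] H)) (α : A →⋆ₐ[ℂ] A)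
    (hα : ∀ ξ, α (s ξ) = s (U ξ)) (ρ : A →L[ℂ] ℂ) (hρ : IsState ρ) (u : A) :
    Tendsto (fun N : ℕ => (∑ n ∈ Finset.Icc 1 N, (μ n : ℂ) * ρ (α^[n] u)) / (N : ℂ))
      atTop (𝓝 0) := by
  classical
  have hρb : ∀ x, ‖ρ x‖ ≤ ‖x‖ := fun x => by
    have := ρ.le_opNorm x
    rwa [hρ.2, one_mul] at this
  obtain ⟨K, _, _, _, π, ζ, hζ⟩ := exists_gns ρ hρ
  let T : ℕ → A →ₗ[ℂ] ℂ := fun n => (ρ : A →ₗ[ℂ] ℂ) ∘ₗ iterL α n
  have hT : ∀ n x, ‖T n x‖ ≤ ‖x‖ := fun n x => (hρb _).trans (iterate_norm_le α n x)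
  have hcl := goodL_closed T (fun n => (μ n : ℂ)) norm_moebius hT
  have hword : ∀ (L : List H) (n : ℕ), α^[n] (Sw s L) = mw s U L n := by
    intro L n
    induction n with
    | zero => simp [mw]
    | succ n ih =>
      rw [Function.iterate_succ', Function.comp_apply, ih, mw, mw]
      clear ih
      induction L with
      | nil => simp [Sw]
      | cons ξ L ihL =>
        simp only [List.map_cons, Sw, map_mul, hα]
        rw [ihL, pow_succ', mul_apply_eq_comp]
  have hle : Ww s ≤ goodL T (fun n => (μ n : ℂ)) := by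
    rw [Ww, Submodule.span_le]
    rintro x ⟨L, M, rfl⟩
    change Tendsto _ _ _
    refine (claim_all hq hs U hU π L M _ orthLin_moebius ζ ζ).congr fun N => ?_
    congr 2
    apply Finset.sum_congr rfl
    intro n _
    change _ = (μ n : ℂ) • ρ (α^[n] (Sw s L * star (Sw s M)))
    have h1 : ∀ n : ℕ, α^[n] (star (Sw s M)) = star (α^[n] (Sw s M)) := by
      intro n
      induction n with
      | zero => rfl
      | succ n ih =>
        rw [Function.iterate_succ', Function.comp_apply, Function.comp_apply, ih, map_star]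
    rw [iterate_map_mul, h1, hword, hword, hζ, smul_eq_mul]
  have hu : u ∈ goodL T (fun n => (μ n : ℂ)) := by
    have h2 : closure ((StarAlgebra.adjoin ℂ (Set.range s) : StarSubalgebra ℂ A) : Set A)
        ⊆ (goodL T (fun n => (μ n : ℂ)) : Set A) :=
      closure_minimal (fun x hx => hle (adjoin_le hs hx)) hcl
    exact h2 (hgen u)
  have hu' : Tendsto (fun N : ℕ => ‖∑ n ∈ Finset.range N, (μ n : ℂ) • T n u‖ / (N : ℝ))
    atTop (𝓝 0) := hu
  apply Icc_of_range _ ‖u‖
  · intro n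
    rw [norm_mul]
    calc _ ≤ 1 * ‖u‖ := by
          gcongr
          · exact norm_moebius n
          · exact hT n u
      _ = _ := one_mul _
  · rw [tendsto_zero_iff_norm_tendsto_zero]
    refine hu'.congr fun N => ?_
    rw [norm_div, Complex.norm_natCast]
    rfl

end main

end Pool.Agent.Helper40.QFree
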